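import Pool.Agent.Lib.MP_2c27be_co.Steiner

/-!
A finite tree metric embeds in Euclidean space with distortion polynomial in `log log n`.
-/

namespace Pool.Agent.Lib.MP_2c27be_co

open Finset

variable {X : Type} [Fintype X]

open Classical in
/-- The height at which the cluster above `x` reaches size `2 ^ k`. -/
noncomputable def HH (g : X → X → ℝ) (k : ℕ) (x : X) : ℝ :=
  ⨆ z, if 2 ^ k ≤ (univ.filter fun z' => g x z ≤ g x z').card then g x z else 0

lemma le_of_pos_le {a b : ℝ} (hb : 0 ≤ b) (h : 0 < a → a ≤ b) : a ≤ b := by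
  by_cases ha : 0 < a
  · exact h ha
  · linarith

variable {g : X → X → ℝ}

open Classical in
lemma HH_nonneg (hg : IsGP g) (k : ℕ) (x : X) : 0 ≤ HH g k x := by
  refine le_trans ?_ (le_ciSup (Finite.bddAbove_range _) x)
  split_ifs
  · exact hg.nonneg x x
  · exact le_rfl

open Classical in
lemma le_HH_iff (k : ℕ) (x : X) {h : ℝ} (hh : 0 < h) :
    h ≤ HH g k x ↔ 2 ^ k ≤ (univ.filter fun z => h ≤ g x z).card := by
  constructor
  · intro h1
    haveI : Nonempty X := ⟨x⟩
    obtain ⟨z, hz⟩ := exists_eq_ciSup_of_finite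
      (f := fun z => if 2 ^ k ≤ (univ.filter fun z' => g x z ≤ g x z').card then g x z else 0)
    unfold HH at h1
    rw [← hz] at h1
    split_ifs at h1 with h2
    · refine h2.trans (card_le_card ?_)
      intro w hw
      simp only [mem_filter, mem_univ, true_and] at hw ⊢
      exact h1.trans hw
    · linarith
  · intro h1
    have hne : (univ.filter fun z => h ≤ g x z).Nonempty := by
      rw [← card_pos]
      exact lt_of_lt_of_le (by positivity) h1
    obtain ⟨z, hz, hmin⟩ := exists_min_image _ (g x) hne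
    refine le_trans ?_ (le_ciSup (Finite.bddAbove_range _) z)
    have h2 : 2 ^ k ≤ (univ.filter fun z' => g x z ≤ g x z').card := by
      refine h1.trans (card_le_card ?_)
      intro w hw
      simp only [mem_filter, mem_univ, true_and]
      exact hmin w hw
    rw [if_pos h2]
    exact (mem_filter.1 hz).2

open Classical in
lemma HH_zero (hg : IsGP g) (x : X) : HH g 0 x = g x x := by
  apply le_antisymm
  · refine le_of_pos_le (hg.nonneg x x) fun h => ?_
    have := (le_HH_iff (g := g) 0 x h).1 le_rfl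
    rw [pow_zero] at this
    obtain ⟨z, hz⟩ := card_pos.1 this
    exact (mem_filter.1 hz).2.trans (hg.le_self x z)
  · refine le_of_pos_le (HH_nonneg hg 0 x) fun h => ?_
    rw [le_HH_iff 0 x h, pow_zero]
    exact card_pos.2 ⟨x, by simp⟩

open Classical in
lemma HH_anti (hg : IsGP g) (x : X) {k l : ℕ} (hkl : k ≤ l) : HH g l x ≤ HH g k x := by
  refine le_of_pos_le (HH_nonneg hg k x) fun h => ?_
  rw [le_HH_iff k x h]
  exact (Nat.pow_le_pow_right (by norm_num) hkl).trans ((le_HH_iff l x h).1 le_rfl)

open Classical in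
lemma HH_top (hg : IsGP g) (x : X) {k : ℕ} (hk : Fintype.card X < 2 ^ k) : HH g k x = 0 := by
  apply le_antisymm _ (HH_nonneg hg k x)
  refine le_of_pos_le le_rfl fun h => ?_
  have := (le_HH_iff (g := g) k x h).1 le_rfl
  have h2 := card_le_univ (univ.filter fun z => HH g k x ≤ g x z)
  omega

open Classical in
lemma min_HH_le (hg : IsGP g) (k : ℕ) (x y : X) : min (HH g k x) (g x y) ≤ HH g k y := by
  refine le_of_pos_le (HH_nonneg hg k y) fun h => ?_
  rw [le_HH_iff k y h]
  refine ((le_HH_iff k x h).1 (min_le_left _ _)).trans (card_le_card ?_)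
  intro w hw
  simp only [mem_filter, mem_univ, true_and] at hw ⊢
  exact hg.trans_le (by rw [hg.symm y x]; exact min_le_right _ _) hw

lemma min_HH_eq (hg : IsGP g) (k : ℕ) (x y : X) :
    min (HH g k x) (g x y) = min (HH g k y) (g x y) := by
  apply le_antisymm
  · exact le_min (min_HH_le hg k x y) (min_le_right _ _)
  · refine le_min ?_ (min_le_right _ _)
    rw [hg.symm x y]
    exact min_HH_le hg k y x

lemma HH_eq_of_lt (hg : IsGP g) {k : ℕ} {x y : X} (h : HH g k x < g x y) :
    HH g k y = HH g k x := by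
  have := min_HH_eq hg k x y
  rw [min_eq_left h.le] at this
  rcases le_total (HH g k y) (g x y) with h1 | h1
  · rw [min_eq_left h1] at this; exact this.symm
  · rw [min_eq_right h1] at this; linarith

open Classical in
/-- The label of a block. -/
noncomputable def lab (g : X → X → ℝ) (k : ℕ) (x : X) : Finset X :=
  univ.filter fun z => HH g k x < g x z

lemma lab_eq_of_lt (hg : IsGP g) {k : ℕ} {x y : X} (h : HH g k x < g x y) :
    lab g k x = lab g k y := by
  ext w
  simp only [lab, mem_filter, mem_univ, true_and, HH_eq_of_lt hg h]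
  constructor
  · intro h1
    exact hg.trans_lt (by rw [hg.symm y x]; exact h) h1
  · intro h1
    exact hg.trans_lt h h1

lemma sum_sq_ite {α : Type} [Fintype α] [DecidableEq α] (A B : α) (a b : ℝ) :
    ∑ U, ((if U = A then a else 0) - (if U = B then b else 0)) ^ 2 =
      if A = B then (a - b) ^ 2 else a ^ 2 + b ^ 2 := by
  split_ifs with h
  · subst h
    rw [sum_eq_single A]
    · simp
    · intro U _ hU; simp [hU]
    · simp
  · have : ∀ U, ((if U = A then a else 0) - (if U = B then b else 0)) ^ 2 =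
        (if U = A then a ^ 2 else 0) + (if U = B then b ^ 2 else 0) := by
      intro U
      by_cases h1 : U = A
      · have h2 : U ≠ B := fun h2 => h (h1.symm.trans h2)
        simp [h1, h]
      · by_cases h2 : U = B
        · subst h2; simp [h1]
        · simp [h1, h2]
    simp only [this, sum_add_distrib, sum_ite_eq', mem_univ, if_true]

open Classical in
/-- The embedding. -/
noncomputable def emb (g : X → X → ℝ) (Λ : ℕ) (x : X) :
    EuclideanSpace ℝ (Fin (Λ + 1) × Fin (2 ^ Λ) × Finset X) :=
  WithLp.toLp 2 fun c => if c.2.2 = lab g ((c.2.1 + 1) * 2 ^ (c.1 : ℕ)) x then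
    HH g (c.2.1 * 2 ^ (c.1 : ℕ)) x - HH g ((c.2.1 + 1) * 2 ^ (c.1 : ℕ)) x else 0

open Classical in
lemma block_le (hg : IsGP g) (x y : X) {a b : ℕ} (hab : a ≤ b) :
    (if lab g b x = lab g b y then ((HH g a x - HH g b x) - (HH g a y - HH g b y)) ^ 2
      else (HH g a x - HH g b x) ^ 2 + (HH g a y - HH g b y) ^ 2) ≤
    ((max (HH g a x) (g x y) - max (HH g b x) (g x y)) +
      (max (HH g a y) (g x y) - max (HH g b y) (g x y))) ^ 2 := by
  have e1 := min_HH_eq hg a x y
  have e2 := min_HH_eq hg b x y
  have m1 := max_add_min (HH g a x) (g x y)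
  have m2 := max_add_min (HH g b x) (g x y)
  have m3 := max_add_min (HH g a y) (g x y)
  have m4 := max_add_min (HH g b y) (g x y)
  have n1 : max (HH g b x) (g x y) ≤ max (HH g a x) (g x y) :=
    max_le_max_right _ (HH_anti hg x hab)
  have n2 : max (HH g b y) (g x y) ≤ max (HH g a y) (g x y) :=
    max_le_max_right _ (HH_anti hg y hab)
  set ex := max (HH g a x) (g x y) - max (HH g b x) (g x y) with hex
  set ey := max (HH g a y) (g x y) - max (HH g b y) (g x y) with hey
  have p1 : 0 ≤ ex := by linarith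
  have p2 : 0 ≤ ey := by linarith
  split_ifs with h
  · have : (HH g a x - HH g b x) - (HH g a y - HH g b y) = ex - ey := by linarith
    rw [this]
    nlinarith [mul_nonneg p1 p2]
  · have h1 : g x y ≤ HH g b x := by
      by_contra h1
      exact h (lab_eq_of_lt hg (not_le.1 h1))
    have h2 : g x y ≤ HH g a x := h1.trans (HH_anti hg x hab)
    rw [min_eq_right h2] at e1 m1
    rw [min_eq_right h1] at e2 m2
    have a1 : HH g a x - HH g b x = ex := by linarith
    have a2 : HH g a y - HH g b y = ey := by linarith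
    rw [a1, a2]
    nlinarith [mul_nonneg p1 p2]

open Classical in
lemma emb_upper (hg : IsGP g) (Λ : ℕ) (x y : X) :
    ‖emb g Λ x - emb g Λ y‖ ≤ (Λ + 2) * gd g x y := by
  have ht : 0 ≤ gd g x y := by
    have := hg.le_self x y
    have := hg.le_self' x y
    unfold gd; linarith
  have key : ‖emb g Λ x - emb g Λ y‖ ^ 2 ≤ (Λ + 1) * gd g x y ^ 2 := by
    rw [EuclideanSpace.real_norm_sq_eq, Fintype.sum_prod_type]
    have : ∀ r : Fin (Λ + 1), ∑ c : Fin (2 ^ Λ) × Finset X,
        ((emb g Λ x - emb g Λ y).ofLp (r, c)) ^ 2 ≤ gd g x y ^ 2 := by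
      intro r
      rw [Fintype.sum_prod_type]
      let e : ℕ → ℝ := fun s => max (HH g (s * 2 ^ (r : ℕ)) x) (g x y) +
        max (HH g (s * 2 ^ (r : ℕ)) y) (g x y)
      have hmono : ∀ s, 0 ≤ e s - e (s + 1) := by
        intro s
        have hab : s * 2 ^ (r : ℕ) ≤ (s + 1) * 2 ^ (r : ℕ) := Nat.mul_le_mul_right _ (by omega)
        have n1 := max_le_max_right (g x y) (HH_anti hg x hab)
        have n2 := max_le_max_right (g x y) (HH_anti hg y hab)
        simp only [e]
        linarith
      have h1 : ∀ s : Fin (2 ^ Λ), ∑ U : Finset X,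
          ((emb g Λ x - emb g Λ y).ofLp (r, s, U)) ^ 2 ≤ (e s - e (s + 1)) ^ 2 := by
        intro s
        have hab : (s : ℕ) * 2 ^ (r : ℕ) ≤ (s + 1) * 2 ^ (r : ℕ) :=
          Nat.mul_le_mul_right _ (by omega)
        have := block_le hg x y hab
        rw [← sum_sq_ite] at this
        refine le_trans (le_of_eq ?_) (this.trans (le_of_eq ?_))
        · rfl
        · simp only [e]; ring
      refine (sum_le_sum fun s _ => h1 s).trans ?_
      refine (sum_sq_le_sq_sum_of_nonneg fun (s : Fin (2 ^ Λ)) _ => hmono s).trans ?_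
      rw [Fin.sum_univ_eq_sum_range (fun s => e s - e (s + 1)), sum_range_sub']
      have h0 : e 0 = g x x + g y y := by
        simp only [e, zero_mul, HH_zero hg]
        rw [max_eq_left (hg.le_self x y), max_eq_left (hg.le_self' x y)]
      have h2 : 2 * g x y ≤ e (2 ^ Λ) := by
        have := le_max_right (HH g (2 ^ Λ * 2 ^ (r : ℕ)) x) (g x y)
        have := le_max_right (HH g (2 ^ Λ * 2 ^ (r : ℕ)) y) (g x y)
        simp only [e]; linarith
      have h3 : 0 ≤ e 0 - e (2 ^ Λ) := by
        rw [← sum_range_sub']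
        exact sum_nonneg fun s _ => hmono s
      apply pow_le_pow_left₀ h3
      unfold gd; linarith
    refine (sum_le_sum fun r _ => this r).trans ?_
    simp
  apply abs_le_of_sq_le_sq' _ (by positivity) |>.2
  refine key.trans ?_
  rw [mul_pow]
  apply mul_le_mul_of_nonneg_right _ (sq_nonneg _)
  have : (0 : ℝ) ≤ Λ := Nat.cast_nonneg _
  nlinarith

open Classical in
lemma emb_lower_half (hg : IsGP g) (Λ : ℕ) (hn : Fintype.card X < 2 ^ 2 ^ Λ) (x y : X) :
    g x x - g x y ≤ (Λ + 2) * ‖emb g Λ x - emb g Λ y‖ := by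
  set ν := ‖emb g Λ x - emb g Λ y‖ with hν
  have hν0 : 0 ≤ ν := norm_nonneg _
  have coord : ∀ r s, r ≤ Λ → s < 2 ^ Λ →
      (HH g (s * 2 ^ r) x - HH g ((s + 1) * 2 ^ r) x) -
        (if lab g ((s + 1) * 2 ^ r) x = lab g ((s + 1) * 2 ^ r) y then
          HH g (s * 2 ^ r) y - HH g ((s + 1) * 2 ^ r) y else 0) ≤ ν := by
    intro r s hr hs
    have := PiLp.norm_apply_le (emb g Λ x - emb g Λ y)
      (⟨r, by omega⟩, ⟨s, hs⟩, lab g ((s + 1) * 2 ^ r) x)
    refine le_trans ?_ ((le_abs_self _).trans this)
    simp [emb]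
  set b0 := Nat.findGreatest (fun k => g x y ≤ HH g k x) (2 ^ Λ) with hb0
  have hb1 : b0 ≤ 2 ^ Λ := Nat.findGreatest_le _
  have hb2 : g x y ≤ HH g b0 x :=
    Nat.findGreatest_spec (P := fun k => g x y ≤ HH g k x) (Nat.zero_le _)
      (by simp only [HH_zero hg]; exact hg.le_self x y)
  have blk : ∀ r s, r ≤ Λ → (s + 1) * 2 ^ r ≤ b0 →
      HH g (s * 2 ^ r) x - HH g ((s + 1) * 2 ^ r) x ≤ ν := by
    intro r s hr hs
    have hs' : s < 2 ^ Λ := by
      have : s + 1 ≤ (s + 1) * 2 ^ r := Nat.le_mul_of_pos_right _ (by positivity)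
      omega
    have h1 := coord r s hr hs'
    split_ifs at h1 with h2
    · by_contra h3
      have h4 : HH g ((s + 1) * 2 ^ r) x < g x x := by
        have := HH_anti hg x (Nat.zero_le (s * 2 ^ r))
        rw [HH_zero hg] at this
        linarith
      have h5 : x ∈ lab g ((s + 1) * 2 ^ r) y := by
        rw [← h2]; simp [lab, h4]
      simp only [lab, mem_filter, mem_univ, true_and] at h5
      have h6 := HH_eq_of_lt hg h5
      have h7 := HH_anti hg x hs
      rw [hg.symm y x] at h5
      linarith
    · linarith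
  have ind : ∀ r, r ≤ Λ → ∀ s b, b ≤ 2 ^ r → s * 2 ^ r + b ≤ b0 →
      HH g (s * 2 ^ r) x - HH g (s * 2 ^ r + b) x ≤ (r + 1) * ν := by
    intro r
    induction r with
    | zero =>
      intro _ s b hb hs
      have : b = 0 ∨ b = 1 := by omega
      rcases this with rfl | rfl
      · simpa using hν0
      · have := blk 0 s (Nat.zero_le _) (by simpa using hs)
        simpa using this
    | succ r ih =>
      intro hr s b hb hs
      have e1 : s * 2 ^ (r + 1) = (2 * s) * 2 ^ r := by ring
      rw [e1] at hs ⊢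
      push_cast
      by_cases hb' : b ≤ 2 ^ r
      · have := ih (by omega) (2 * s) b hb' hs
        linarith
      · obtain ⟨b', rfl⟩ : ∃ b', b = 2 ^ r + b' := ⟨b - 2 ^ r, by omega⟩
        have e2 : 2 * s * 2 ^ r + (2 ^ r + b') = (2 * s + 1) * 2 ^ r + b' := by ring
        rw [e2] at hs ⊢
        have h1 := ih (by omega) (2 * s + 1) b' (by rw [pow_succ] at hb; omega) hs
        have h2 := blk r (2 * s) (by omega) (by omega)
        linarith
  have main := ind Λ le_rfl 0 b0 hb1 (by omega)
  simp only [zero_mul, zero_add, HH_zero hg] at main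
  have rem : HH g b0 x - g x y ≤ ν := by
    rcases hb1.eq_or_lt with h | h
    · rw [h, HH_top hg x hn]
      have := hg.nonneg x y
      linarith
    · have h1 : HH g (b0 + 1) x < g x y := by
        by_contra h1
        exact Nat.findGreatest_is_greatest (P := fun k => g x y ≤ HH g k x)
          (Nat.lt_succ_self b0) h (not_lt.1 h1)
      have h2 := coord 0 b0 (Nat.zero_le _) h
      simp only [pow_zero, mul_one] at h2
      rw [if_pos (lab_eq_of_lt hg h1), HH_eq_of_lt hg h1] at h2
      by_contra h3
      have h4 : g x y < HH g b0 x := by linarith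
      have h5 : g x y < HH g b0 y := by linarith
      have hw : 0 < g x y := lt_of_le_of_lt (HH_nonneg hg _ x) h1
      have c1 := (le_HH_iff (g := g) b0 x (hw.trans h4)).1 le_rfl
      have c2 := (le_HH_iff (g := g) b0 y (hw.trans h5)).1 le_rfl
      have hdis : Disjoint (univ.filter fun z => HH g b0 x ≤ g x z)
          (univ.filter fun z => HH g b0 y ≤ g y z) := by
        rw [disjoint_filter]
        intro z _ a1 a2
        have := hg.trans_lt (h4.trans_le a1) (by rw [hg.symm z y]; exact h5.trans_le a2)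
        exact lt_irrefl _ this
      have c3 : 2 ^ (b0 + 1) ≤ (univ.filter fun z => g x y ≤ g x z).card := by
        rw [pow_succ]
        have := card_union_of_disjoint hdis
        have h6 : ((univ.filter fun z => HH g b0 x ≤ g x z) ∪
            (univ.filter fun z => HH g b0 y ≤ g y z)).card ≤
            (univ.filter fun z => g x y ≤ g x z).card := by
          apply card_le_card
          intro z hz
          simp only [mem_union, mem_filter, mem_univ, true_and] at hz ⊢
          rcases hz with hz | hz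
          · exact h4.le.trans hz
          · exact hg.trans_le le_rfl (h5.le.trans hz)
        omega
      have := (le_HH_iff (g := g) (b0 + 1) x hw).2 c3
      linarith
  linarith

/-- Embedding of a tree metric with distortion `2 (Λ + 2) ^ 2`. -/
theorem exists_tree_embed {t : X → X → ℝ} (ht : IsTree t) (Λ : ℕ)
    (hn : Fintype.card X < 2 ^ 2 ^ Λ) :
    ∃ f : X → EuclideanSpace ℝ (Fin (Λ + 1) × Fin (2 ^ Λ) × Finset X),
      (∀ x y, ‖f x - f y‖ ≤ (Λ + 2) * t x y) ∧ ∀ x y, t x y ≤ 2 * (Λ + 2) * ‖f x - f y‖ := by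
  rcases isEmpty_or_nonempty X with hX | ⟨⟨r⟩⟩
  · exact ⟨fun _ => 0, fun z => (hX.false z).elim, fun z => (hX.false z).elim⟩
  obtain ⟨g, hg, htg⟩ := ht.exists_gp r
  refine ⟨emb g Λ, fun x y => ?_, fun x y => ?_⟩
  · rw [htg]; exact emb_upper hg Λ x y
  · have h1 := emb_lower_half hg Λ hn x y
    have h2 := emb_lower_half hg Λ hn y x
    rw [norm_sub_rev, hg.symm y x] at h2
    rw [htg, gd]
    linarith

end Pool.Agent.Lib.MP_2c27be_co
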