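import Pool.Agent.Lib.MP_2c27be_co.Steiner
import Pool.Agent.Lib.MP_2c27be_co.TreeEmbed

-- part Pool.Agent.Lib.MP_2c27be_co.Robust
section

/-!
Robust truncation of probability vectors, and averages of vector valued functions.
-/

namespace Pool.Agent.Lib.MP_2c27be_co

open Finset

variable {X : Type} [Fintype X]

open Classical in
/-- Mass of a ball. -/
noncomputable def bm (t : X → X → ℝ) (μ : X → ℝ) (ρ : ℝ) (z : X) : ℝ :=
  ∑ w, (if t z w ≤ ρ then 1 else 0) * μ w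

/-- The majority part. -/
noncomputable def om (t : X → X → ℝ) (μ : X → ℝ) (ρ : ℝ) (z : X) : ℝ :=
  μ z * cl (4 * bm t μ (2 * ρ) z - 1)

/-- The normalised majority part. -/
noncomputable def nu (t : X → X → ℝ) (μ : X → ℝ) (ρ : ℝ) (z : X) : ℝ :=
  om t μ ρ z / max (∑ w, om t μ ρ w) (1 / 2)

variable {t : X → X → ℝ} {μ μ' : X → ℝ} {ρ : ℝ}

lemma om_nonneg (h : ∀ z, 0 ≤ μ z) (z : X) : 0 ≤ om t μ ρ z :=
  mul_nonneg (h z) (cl_nonneg _)

lemma max_half_pos (a : ℝ) : 0 < max a (1 / 2) := lt_max_of_lt_right (by norm_num)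

lemma nu_nonneg (h : ∀ z, 0 ≤ μ z) (z : X) : 0 ≤ nu t μ ρ z :=
  div_nonneg (om_nonneg h z) (max_half_pos _).le

lemma sum_nu_le : ∑ z, nu t μ ρ z ≤ 1 := by
  unfold nu
  rw [← sum_div, div_le_one (max_half_pos _)]
  exact le_max_left _ _

lemma sum_test_lip (φ : X → ℝ) (hφ : ∀ z, |φ z| ≤ 1) :
    |∑ w, φ w * μ w - ∑ w, φ w * μ' w| ≤ ∑ w, |μ w - μ' w| := by
  rw [← sum_sub_distrib]
  refine (abs_sum_le_sum_abs _ _).trans (sum_le_sum fun w _ => ?_)
  rw [← mul_sub, abs_mul]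
  exact mul_le_of_le_one_left (abs_nonneg _) (hφ w)

lemma om_lip (h' : ∀ z, 0 ≤ μ' z) (hs' : ∑ z, μ' z = 1) :
    ∑ z, |om t μ ρ z - om t μ' ρ z| ≤ 5 * ∑ w, |μ w - μ' w| := by
  set η := ∑ w, |μ w - μ' w| with hη
  have h1 : ∀ z, |om t μ ρ z - om t μ' ρ z| ≤ |μ z - μ' z| + μ' z * (4 * η) := by
    intro z
    have a1 : |bm t μ (2 * ρ) z - bm t μ' (2 * ρ) z| ≤ η :=
      sum_test_lip _ fun w => by split_ifs <;> simp
    have a2 := cl_lip (4 * bm t μ (2 * ρ) z - 1) (4 * bm t μ' (2 * ρ) z - 1)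
    rw [show 4 * bm t μ (2 * ρ) z - 1 - (4 * bm t μ' (2 * ρ) z - 1) =
      4 * (bm t μ (2 * ρ) z - bm t μ' (2 * ρ) z) by ring, abs_mul,
      abs_of_pos (by norm_num : (0 : ℝ) < 4)] at a2
    have e : om t μ ρ z - om t μ' ρ z = (μ z - μ' z) * cl (4 * bm t μ (2 * ρ) z - 1) +
        μ' z * (cl (4 * bm t μ (2 * ρ) z - 1) - cl (4 * bm t μ' (2 * ρ) z - 1)) := by
      unfold om; ring
    rw [e]
    refine (abs_add_le _ _).trans (add_le_add ?_ ?_)
    · rw [abs_mul, abs_of_nonneg (cl_nonneg _)]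
      exact mul_le_of_le_one_right (abs_nonneg _) (cl_le_one _)
    · rw [abs_mul, abs_of_nonneg (h' z)]
      exact mul_le_mul_of_nonneg_left (by linarith) (h' z)
  refine (sum_le_sum fun z _ => h1 z).trans ?_
  rw [sum_add_distrib, ← sum_mul, hs']
  linarith

lemma nu_lip (h' : ∀ z, 0 ≤ μ' z) (hs' : ∑ z, μ' z = 1) :
    ∑ z, |nu t μ ρ z - nu t μ' ρ z| ≤ 20 * ∑ w, |μ w - μ' w| := by
  have h1 := om_lip (t := t) (μ := μ) (ρ := ρ) h' hs'
  set ξ := ∑ z, |om t μ ρ z - om t μ' ρ z| with hξ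
  have hξ0 : 0 ≤ ξ := sum_nonneg fun _ _ => abs_nonneg _
  set Z := max (∑ w, om t μ ρ w) (1 / 2) with hZ
  set Z' := max (∑ w, om t μ' ρ w) (1 / 2) with hZ'
  have z1 : 1 / 2 ≤ Z := le_max_right _ _
  have z2 : 1 / 2 ≤ Z' := le_max_right _ _
  have z3 : |Z - Z'| ≤ ξ := by
    refine (abs_max_sub_max_le_abs _ _ _).trans ?_
    rw [← sum_sub_distrib]
    exact abs_sum_le_sum_abs _ _
  have h2 : ∀ z, |nu t μ ρ z - nu t μ' ρ z| ≤
      2 * |om t μ ρ z - om t μ' ρ z| + nu t μ' ρ z * (2 * ξ) := by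
    intro z
    have e : nu t μ ρ z - nu t μ' ρ z =
        (om t μ ρ z - om t μ' ρ z) / Z + nu t μ' ρ z * ((Z' - Z) / Z) := by
      unfold nu
      rw [← hZ, ← hZ']
      field_simp
      ring
    rw [e]
    refine (abs_add_le _ _).trans (add_le_add ?_ ?_)
    · rw [abs_div, abs_of_pos (by linarith : 0 < Z), div_le_iff₀ (by linarith)]
      nlinarith [abs_nonneg (om t μ ρ z - om t μ' ρ z)]
    · rw [abs_mul, abs_of_nonneg (nu_nonneg h' z)]
      apply mul_le_mul_of_nonneg_left _ (nu_nonneg h' z)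
      rw [abs_div, abs_of_pos (by linarith : 0 < Z), div_le_iff₀ (by linarith), abs_sub_comm]
      nlinarith
  refine (sum_le_sum fun z _ => h2 z).trans ?_
  rw [sum_add_distrib, ← sum_mul, ← mul_sum, ← hξ]
  have := mul_le_mul_of_nonneg_right (sum_nu_le (t := t) (μ := μ') (ρ := ρ))
    (show 0 ≤ 2 * ξ by positivity)
  linarith

/-- A probability vector supported near a point. -/
def Near (t : X → X → ℝ) (ν : X → ℝ) (ρ : ℝ) (p : X) : Prop :=
  ∑ z, ν z = 1 ∧ ∀ z, ν z ≠ 0 → t p z ≤ ρ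

open Classical in
lemma near_nu (ht : IsTree t) (h : ∀ z, 0 ≤ μ z) (hs : ∑ z, μ z = 1) {p : X}
    (hp : ∑ z, (if ρ < t p z then 1 else 0) * μ z ≤ 1 / 4) : Near t (nu t μ ρ) (3 * ρ) p := by
  have h1 : 3 / 4 ≤ ∑ z, (if t p z ≤ ρ then 1 else 0) * μ z := by
    have : ∑ z, (if t p z ≤ ρ then 1 else 0) * μ z + ∑ z, (if ρ < t p z then 1 else 0) * μ z =
        ∑ z, μ z := by
      rw [← sum_add_distrib]
      refine sum_congr rfl fun z _ => ?_
      by_cases c : t p z ≤ ρ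
      · simp [c, not_lt.2 c]
      · simp [c, not_le.1 c]
    linarith
  have h2 : 3 / 4 ≤ ∑ z, om t μ ρ z := by
    refine h1.trans (sum_le_sum fun z _ => ?_)
    split_ifs with c
    · have : 3 / 4 ≤ bm t μ (2 * ρ) z := by
        refine h1.trans (sum_le_sum fun w _ => mul_le_mul_of_nonneg_right ?_ (h w))
        have := ht.tri z p w
        rw [ht.symm z p] at this
        split_ifs <;> linarith
      rw [om, cl_of_two_le (by linarith)]
      linarith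
    · rw [zero_mul]; exact om_nonneg h z
  constructor
  · unfold nu
    rw [← sum_div, max_eq_left (by linarith), div_self (by linarith)]
  · intro z hz
    by_contra c
    apply hz
    have : bm t μ (2 * ρ) z ≤ 1 / 4 := by
      refine le_trans (sum_le_sum fun w _ => mul_le_mul_of_nonneg_right ?_ (h w)) hp
      have := ht.tri p w z
      rw [ht.symm w z] at this
      split_ifs <;> linarith
    rw [nu, om, cl_of_le_one (by linarith)]
    simp

variable {E : Type} [NormedAddCommGroup E] [NormedSpace ℝ E]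

/-- Average of a vector valued function. -/
noncomputable def lin (ν : X → ℝ) (φ : X → E) : E := ∑ z, ν z • φ z

lemma norm_lin_le {ν : X → ℝ} {φ : X → E} {B : ℝ} (h : ∀ z, ν z ≠ 0 → ‖φ z‖ ≤ B) :
    ‖lin ν φ‖ ≤ (∑ z, |ν z|) * B := by
  rw [sum_mul]
  refine (norm_sum_le _ _).trans (sum_le_sum fun z _ => ?_)
  by_cases hz : ν z = 0
  · simp [hz]
  · rw [norm_smul, Real.norm_eq_abs]
    exact mul_le_mul_of_nonneg_left (h z hz) (abs_nonneg _)

lemma norm_lin_le' {ν : X → ℝ} {φ : X → E} {B : ℝ} (h0 : ∀ z, 0 ≤ ν z) (h1 : ∑ z, ν z ≤ 1)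
    (hB : 0 ≤ B) (h : ∀ z, ν z ≠ 0 → ‖φ z‖ ≤ B) : ‖lin ν φ‖ ≤ B := by
  refine (norm_lin_le h).trans ?_
  rw [sum_congr rfl fun z _ => abs_of_nonneg (h0 z)]
  exact mul_le_of_le_one_left hB h1

lemma lin_sub_left (ν ν' : X → ℝ) (φ : X → E) :
    lin ν φ - lin ν' φ = lin (fun z => ν z - ν' z) φ := by
  simp only [lin, sub_smul, sum_sub_distrib]

lemma lin_sub_right (ν : X → ℝ) (φ ψ : X → E) :
    lin ν φ - lin ν ψ = lin ν (fun z => φ z - ψ z) := by
  simp only [lin, smul_sub, sum_sub_distrib]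

lemma lin_congr {ν : X → ℝ} {φ ψ : X → E} (h : ∀ z, ν z ≠ 0 → φ z = ψ z) : lin ν φ = lin ν ψ := by
  refine sum_congr rfl fun z _ => ?_
  by_cases hz : ν z = 0
  · simp [hz]
  · rw [h z hz]

lemma lin_const {ν : X → ℝ} (h : ∑ z, ν z = 1) (c : E) : lin ν (fun _ => c) = c := by
  rw [lin, ← sum_smul, h, one_smul]

lemma norm_lin_sub_le {ν ν' : X → ℝ} {φ : X → E} {B : ℝ} (h : ∀ z, ‖φ z‖ ≤ B) :
    ‖lin ν φ - lin ν' φ‖ ≤ (∑ z, |ν z - ν' z|) * B := by
  rw [lin_sub_left]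
  exact norm_lin_le fun z _ => h z

lemma norm_bil_sub_le {ν₁ ν₁' ν₂ ν₂' : X → ℝ} {Φ : X → X → E} {B : ℝ} (hB : 0 ≤ B)
    (h : ∀ z w, ‖Φ z w‖ ≤ B) (h1 : ∀ z, 0 ≤ ν₁' z) (h1' : ∑ z, ν₁' z ≤ 1)
    (h2 : ∀ z, 0 ≤ ν₂ z) (h2' : ∑ z, ν₂ z ≤ 1) :
    ‖lin ν₁ (fun z => lin ν₂ (Φ z)) - lin ν₁' (fun z => lin ν₂' (Φ z))‖ ≤
      (∑ z, |ν₁ z - ν₁' z| + ∑ z, |ν₂ z - ν₂' z|) * B := by
  have a1 : ‖lin ν₁ (fun z => lin ν₂ (Φ z)) - lin ν₁' (fun z => lin ν₂ (Φ z))‖ ≤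
      (∑ z, |ν₁ z - ν₁' z|) * B :=
    norm_lin_sub_le fun z => norm_lin_le' h2 h2' hB fun w _ => h z w
  have a2 : ‖lin ν₁' (fun z => lin ν₂ (Φ z)) - lin ν₁' (fun z => lin ν₂' (Φ z))‖ ≤
      (∑ z, |ν₂ z - ν₂' z|) * B := by
    rw [lin_sub_right]
    exact norm_lin_le' h1 h1' (mul_nonneg (sum_nonneg fun _ _ => abs_nonneg _) hB)
      fun z _ => norm_lin_sub_le (h z)
  have := norm_sub_le_norm_sub_add_norm_sub (lin ν₁ (fun z => lin ν₂ (Φ z)))
    (lin ν₁' (fun z => lin ν₂ (Φ z))) (lin ν₁' (fun z => lin ν₂' (Φ z)))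
  linarith

open Classical in
lemma bil_eq (ht : IsTree t) {ν₁ ν₂ : X → ℝ} {ρ₁ ρ₂ ρ : ℝ} {p : X} (h1 : Near t ν₁ ρ₁ p)
    (h2 : Near t ν₂ ρ₂ p) (hρ : ρ₁ + ρ₂ ≤ ρ) (f : X → E) :
    lin ν₁ (fun z => lin ν₂ fun w => if t z w ≤ ρ then f z - f w else 0) = lin ν₁ f - lin ν₂ f := by
  rw [← lin_const h1.1 (lin ν₂ f), lin_sub_right]
  refine lin_congr fun z hz => ?_
  rw [← lin_const h2.1 (f z), lin_sub_right]
  refine lin_congr fun w hw => ?_
  have := ht.tri z p w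
  rw [ht.symm z p] at this
  rw [if_pos (by linarith [h1.2 z hz, h2.2 w hw]), lin_const h2.1]

lemma norm_lin_near {ν : X → ℝ} (h0 : ∀ z, 0 ≤ ν z) {ρ K : ℝ} {p : X} (h : Near t ν ρ p)
    {f : X → E} (hK : 0 ≤ K) (hρ : 0 ≤ ρ) (hf : ∀ x y, ‖f x - f y‖ ≤ K * t x y) :
    ‖lin ν f - f p‖ ≤ K * ρ := by
  rw [← lin_const h.1 (f p), lin_sub_right]
  refine norm_lin_le' h0 h.1.le (by positivity) fun z hz => ?_
  rw [norm_sub_rev]
  exact (hf p z).trans (mul_le_mul_of_nonneg_left (h.2 z hz) hK)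

lemma norm_lin_sub_near {ν ν' : X → ℝ} {ρ K : ℝ} {p : X} (h : Near t ν ρ p) (h' : Near t ν' ρ p)
    {f : X → E} (hK : 0 ≤ K) (hf : ∀ x y, ‖f x - f y‖ ≤ K * t x y) :
    ‖lin ν f - lin ν' f‖ ≤ (∑ z, |ν z - ν' z|) * (K * ρ) := by
  have e : lin ν f - lin ν' f = lin ν (fun z => f z - f p) - lin ν' (fun z => f z - f p) := by
    rw [← lin_sub_right, ← lin_sub_right, lin_const h.1, lin_const h'.1]
    abel
  rw [e, lin_sub_left]
  refine norm_lin_le fun z hz => ?_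
  rw [norm_sub_rev]
  refine (hf p z).trans (mul_le_mul_of_nonneg_left ?_ hK)
  by_cases c : ν z = 0
  · exact h'.2 z (fun c' => hz (by rw [c, c', sub_zero]))
  · exact h.2 z c

end Pool.Agent.Lib.MP_2c27be_co
end

-- part Pool.Agent.Lib.MP_2c27be_co.Block
section

/-!
The map attached to one block of scales and one tree.
-/

namespace Pool.Agent.Lib.MP_2c27be_co

open Finset

/-- The data of the construction, with embeddings of the trees and anchors. -/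
structure Setup2 (X ι E : Type) [Fintype ι] [NormedAddCommGroup E] extends Setup X ι where
  f : ι → X → E
  K : ℝ
  Kl : ℝ
  π : ℕ → ι → Bool → X → X
  K_pos : 0 < K
  Kl_pos : 0 < Kl
  f_up : ∀ ω x y, ‖f ω x - f ω y‖ ≤ K * t ω x y
  f_low : ∀ ω x y, t ω x y ≤ Kl * ‖f ω x - f ω y‖
  π_near : ∀ b ω s z, t ω z (π b ω s z) ≤ 32 * (8 * κ * (δ * 2 ^ b))
  π_loc : ∀ b ω x, ∃ s, ∀ z, t ω x z ≤ 4 * (8 * κ * (δ * 2 ^ b)) → π b ω s z = π b ω s x

namespace Setup2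

variable {X ι E : Type} [Fintype X] [Fintype ι] [NormedAddCommGroup E] [NormedSpace ℝ E]
  (S : Setup2 X ι E)

/-- Radii in the tree. -/
noncomputable def ρ (j : ℕ) : ℝ := 8 * S.κ * S.Δ j

omit [Fintype X] [NormedSpace ℝ E] in
lemma ρ_pos (j : ℕ) : 0 < S.ρ j := by
  have := S.κ_pos
  have := S.Δ_pos j
  unfold ρ; positivity

omit [Fintype X] [NormedSpace ℝ E] in
lemma ρ_succ (j : ℕ) : S.ρ (j + 1) = 2 * S.ρ j := by
  unfold ρ; rw [S.Δ_succ]; ring

/-- Robust kernels. -/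
noncomputable def ν (j : ℕ) (ω : ι) (x : X) : X → ℝ := nu (S.t ω) (S.μ j x) (S.ρ j)

omit [NormedSpace ℝ E] in
lemma ν_nonneg (j : ℕ) (ω : ι) (x z : X) : 0 ≤ S.ν j ω x z := nu_nonneg (S.μ_nonneg j x) z

omit [NormedSpace ℝ E] in
lemma ν_sum (j : ℕ) (ω : ι) (x : X) : ∑ z, S.ν j ω x z ≤ 1 := sum_nu_le

omit [NormedSpace ℝ E] in
lemma ν_lip (j : ℕ) (ω : ι) (x y : X) : ∑ z, |S.ν j ω x z - S.ν j ω y z| ≤ 60 * S.τ j x y := by
  have h1 := nu_lip (t := S.t ω) (μ := S.μ j x) (ρ := S.ρ j) (S.μ_nonneg j y) (S.sum_μ_one j y)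
  have h2 := S.μ_lip j x y
  unfold ν
  linarith

omit [NormedSpace ℝ E] in
lemma near_self (ω : ι) (x : X) {j b : ℕ} (hjb : j ≤ b) (hb : b ≤ j + S.W)
    (h : S.r b ω x + S.β j b ω x ≤ 1 / 4) : Near (S.t ω) (S.ν j ω x) (3 * S.ρ j) x :=
  near_nu (S.tree ω) (S.μ_nonneg j x) (S.sum_μ_one j x) ((S.minority ω x hjb hb).trans h)

omit [NormedSpace ℝ E] in
lemma near_other (ω : ι) (x y : X) {j b : ℕ} (hjb : j ≤ b) (hb : b ≤ j + S.W)
    (h : S.r b ω x + S.β j b ω x + 3 * S.τ j x y ≤ 1 / 4) :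
    Near (S.t ω) (S.ν j ω y) (3 * S.ρ j) x := by
  classical
  refine near_nu (S.tree ω) (S.μ_nonneg j y) (S.sum_μ_one j y) ?_
  have h1 := S.minority ω x hjb hb
  have h2 := sum_test_lip (μ := S.μ j x) (μ' := S.μ j y)
    (fun z => if 8 * S.κ * S.Δ j < S.t ω x z then 1 else 0) (fun z => by split_ifs <;> simp)
  have h3 := S.μ_lip j x y
  have h4 := (abs_le.1 h2).1
  unfold ρ
  linarith

/-- Size of the modulus of continuity at one scale. -/
noncomputable def aa (j : ℕ) (x y : X) : ℝ := S.Δ j * S.τ j x y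

omit [Fintype X] [NormedSpace ℝ E] in
lemma aa_nonneg (j : ℕ) (x y : X) : 0 ≤ S.aa j x y :=
  mul_nonneg (S.Δ_pos j).le (S.τ_nonneg j x y)

/-- Averaged embedding. -/
noncomputable def R (j : ℕ) (ω : ι) (x : X) : E := lin (S.ν j ω x) (S.f ω)

open Classical in
/-- Truncated increments. -/
noncomputable def Jm (j : ℕ) (ω : ι) (x : X) : E :=
  lin (S.ν j ω x) fun z => lin (S.ν (j + 1) ω x) fun w =>
    if S.t ω z w ≤ 9 * S.ρ j then S.f ω z - S.f ω w else 0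

/-- The top term. -/
noncomputable def top (b : ℕ) (ω : ι) (s : Bool) (x : X) : E :=
  lin (S.ν b ω x) fun z => S.f ω z - S.f ω (S.π b ω s z)

/-- The telescoped map. -/
noncomputable def G (a : ℕ) (ω : ι) (s : Bool) (x : X) : E :=
  ∑ j ∈ Ico a (a + S.W), S.Jm j ω x + S.top (a + S.W) ω s x

/-- The amplitude. -/
noncomputable def amp (b : ℕ) (ω : ι) (x : X) : ℝ := cl (3 - 16 * S.r b ω x)

/-- The block map. -/
noncomputable def F (a : ℕ) (ω : ι) (s : Bool) (x : X) : E :=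
  S.amp (a + S.W) ω x • S.G a ω s x

omit [Fintype X] [NormedSpace ℝ E] in
open Classical in
lemma trunc_le (j : ℕ) (ω : ι) (z w : X) :
    ‖if S.t ω z w ≤ 9 * S.ρ j then S.f ω z - S.f ω w else 0‖ ≤ S.K * (9 * S.ρ j) := by
  split_ifs with h
  · exact (S.f_up ω z w).trans (mul_le_mul_of_nonneg_left h S.K_pos.le)
  · have := S.K_pos
    have := S.ρ_pos j
    rw [norm_zero]; positivity

omit [Fintype X] [NormedSpace ℝ E] in
lemma anchor_le (b : ℕ) (ω : ι) (s : Bool) (z : X) :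
    ‖S.f ω z - S.f ω (S.π b ω s z)‖ ≤ S.K * (32 * S.ρ b) :=
  (S.f_up ω _ _).trans (mul_le_mul_of_nonneg_left (S.π_near b ω s z) S.K_pos.le)

lemma Jm_norm (j : ℕ) (ω : ι) (x : X) : ‖S.Jm j ω x‖ ≤ S.K * (9 * S.ρ j) := by
  have h : 0 ≤ S.K * (9 * S.ρ j) := by
    have := S.K_pos
    have := S.ρ_pos j
    positivity
  exact norm_lin_le' (S.ν_nonneg j ω x) (S.ν_sum j ω x) h fun z _ =>
    norm_lin_le' (S.ν_nonneg _ ω x) (S.ν_sum _ ω x) h fun w _ => S.trunc_le j ω z w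

lemma Jm_lip (j : ℕ) (ω : ι) (x y : X) :
    ‖S.Jm j ω x - S.Jm j ω y‖ ≤ 4320 * (S.κ * S.K) * (S.aa j x y + S.aa (j + 1) x y) := by
  have h : 0 ≤ S.K * (9 * S.ρ j) := by
    have := S.K_pos
    have := S.ρ_pos j
    positivity
  refine (norm_bil_sub_le h (S.trunc_le j ω) (S.ν_nonneg j ω y) (S.ν_sum j ω y)
    (S.ν_nonneg _ ω x) (S.ν_sum _ ω x)).trans ?_
  refine (mul_le_mul_of_nonneg_right (add_le_add (S.ν_lip j ω x y) (S.ν_lip (j + 1) ω x y))
    h).trans ?_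
  have h1 : 0 ≤ S.κ * S.K * (S.Δ j * S.τ (j + 1) x y) :=
    mul_nonneg (mul_pos S.κ_pos S.K_pos).le (mul_nonneg (S.Δ_pos j).le (S.τ_nonneg _ x y))
  unfold aa ρ
  rw [S.Δ_succ]
  linarith

lemma top_norm (b : ℕ) (ω : ι) (s : Bool) (x : X) : ‖S.top b ω s x‖ ≤ S.K * (32 * S.ρ b) := by
  have h : 0 ≤ S.K * (32 * S.ρ b) := by
    have := S.K_pos
    have := S.ρ_pos b
    positivity
  exact norm_lin_le' (S.ν_nonneg b ω x) (S.ν_sum b ω x) h fun z _ => S.anchor_le b ω s z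

lemma top_lip (b : ℕ) (ω : ι) (s : Bool) (x y : X) :
    ‖S.top b ω s x - S.top b ω s y‖ ≤ 15360 * (S.κ * S.K) * S.aa b x y := by
  have h : 0 ≤ S.K * (32 * S.ρ b) := by
    have := S.K_pos
    have := S.ρ_pos b
    positivity
  refine (norm_lin_sub_le (S.anchor_le b ω s)).trans ?_
  refine (mul_le_mul_of_nonneg_right (S.ν_lip b ω x y) h).trans (le_of_eq ?_)
  unfold aa ρ
  ring

lemma G_norm (a : ℕ) (ω : ι) (s : Bool) (x : X) :
    ‖S.G a ω s x‖ ≤ S.K * (41 * S.ρ (a + S.W)) := by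
  refine (norm_add_le _ _).trans ?_
  have h1 := S.top_norm (a + S.W) ω s x
  have h2 : ‖∑ j ∈ Ico a (a + S.W), S.Jm j ω x‖ ≤
      ∑ j ∈ Ico a (a + S.W), (S.K * (9 * S.ρ (j + 1)) - S.K * (9 * S.ρ j)) := by
    refine (norm_sum_le _ _).trans (sum_le_sum fun j _ => (S.Jm_norm j ω x).trans (le_of_eq ?_))
    rw [S.ρ_succ]; ring
  rw [sum_Ico_sub (fun j => S.K * (9 * S.ρ j)) (Nat.le_add_right _ _)] at h2
  have h3 : 0 ≤ S.K * (9 * S.ρ a) := by
    have := S.K_pos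
    have := S.ρ_pos a
    positivity
  linarith

omit [Fintype X] [NormedSpace ℝ E] in
lemma amp_lip (b : ℕ) (ω : ι) (x y : X) : |S.amp b ω x - S.amp b ω y| ≤ 48 * S.τ b x y := by
  refine (cl_lip _ _).trans ?_
  have := S.r_lip b ω x y
  rw [show 3 - 16 * S.r b ω x - (3 - 16 * S.r b ω y) = 16 * (S.r b ω y - S.r b ω x) by ring,
    abs_mul, abs_of_pos (by norm_num : (0 : ℝ) < 16), abs_sub_comm]
  linarith

lemma Jm_eq {j : ℕ} {ω : ι} {x p : X} (h1 : Near (S.t ω) (S.ν j ω x) (3 * S.ρ j) p)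
    (h2 : Near (S.t ω) (S.ν (j + 1) ω x) (3 * S.ρ (j + 1)) p) :
    S.Jm j ω x = S.R j ω x - S.R (j + 1) ω x :=
  bil_eq (S.tree ω) h1 h2 (by rw [S.ρ_succ]; linarith) _

/-- The good event at one scale. -/
def firm (j b : ℕ) (ω : ι) (x y : X) : Prop := S.β j b ω x ≤ 1 / 16 ∧ S.τ j x y ≤ 1 / 64

open Classical in
lemma G_lip (a : ℕ) (ω : ι) (s : Bool) (x y : X) (hr : S.r (a + S.W) ω x ≤ 1 / 8) :
    ‖S.G a ω s x - S.G a ω s y‖ ≤ 16800 * (S.κ * S.K) * (S.aa a x y + S.aa (a + S.W) x y +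
      ∑ j ∈ Ico a (a + S.W), if S.firm j (a + S.W) ω x y ∧ S.firm (j + 1) (a + S.W) ω x y then 0
        else S.aa j x y + S.aa (j + 1) x y) := by
  set b := a + S.W with hb
  have hκK : 0 < S.κ * S.K := mul_pos S.κ_pos S.K_pos
  have nr : ∀ j, a ≤ j → j ≤ b → S.firm j b ω x y →
      Near (S.t ω) (S.ν j ω x) (3 * S.ρ j) x ∧ Near (S.t ω) (S.ν j ω y) (3 * S.ρ j) x := by
    intro j h1 h2 h3
    exact ⟨S.near_self ω x h2 (by omega) (by linarith [h3.1]),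
      S.near_other ω x y h2 (by omega) (by linarith [h3.1, h3.2])⟩
  let Et : ℕ → E := fun j => if S.firm j b ω x y then S.R j ω x - S.R j ω y else 0
  have hE : ∀ j, a ≤ j → j ≤ b → ‖Et j‖ ≤ 1440 * (S.κ * S.K) * S.aa j x y := by
    intro j h1 h2
    simp only [Et]
    split_ifs with h
    · refine (norm_lin_sub_near (nr j h1 h2 h).1 (nr j h1 h2 h).2 S.K_pos.le (S.f_up ω)).trans ?_
      refine (mul_le_mul_of_nonneg_right (S.ν_lip j ω x y) ?_).trans (le_of_eq ?_)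
      · have := S.K_pos
        have := S.ρ_pos j
        positivity
      · unfold aa ρ; ring
    · have := S.aa_nonneg j x y
      rw [norm_zero]; positivity
  have e : S.G a ω s x - S.G a ω s y =
      ∑ j ∈ Ico a b, (S.Jm j ω x - S.Jm j ω y + (Et (j + 1) - Et j)) + (Et a - Et b) +
        (S.top b ω s x - S.top b ω s y) := by
    rw [sum_add_distrib, sum_Ico_sub Et (Nat.le_add_right _ _), sum_sub_distrib]
    unfold G
    abel
  have h1 : ‖∑ j ∈ Ico a b, (S.Jm j ω x - S.Jm j ω y + (Et (j + 1) - Et j))‖ ≤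
      16800 * (S.κ * S.K) * ∑ j ∈ Ico a b, (if S.firm j b ω x y ∧ S.firm (j + 1) b ω x y then 0
        else S.aa j x y + S.aa (j + 1) x y) := by
    rw [mul_sum]
    refine (norm_sum_le _ _).trans (sum_le_sum fun j hj => ?_)
    obtain ⟨j1, j2⟩ := mem_Ico.1 hj
    split_ifs with h
    · have n1 := nr j j1 j2.le h.1
      have n2 := nr (j + 1) (by omega) (by omega) h.2
      rw [S.Jm_eq n1.1 n2.1, S.Jm_eq n1.2 n2.2]
      simp only [Et, if_pos h.1, if_pos h.2]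
      rw [mul_zero]
      apply le_of_eq
      rw [norm_eq_zero]
      abel
    · have c1 := S.Jm_lip j ω x y
      have c2 := hE j j1 j2.le
      have c3 := hE (j + 1) (by omega) (by omega)
      have c4 := norm_add_le (S.Jm j ω x - S.Jm j ω y) (Et (j + 1) - Et j)
      have c5 := norm_sub_le (Et (j + 1)) (Et j)
      have c6 := mul_nonneg hκK.le (S.aa_nonneg j x y)
      have c7 := mul_nonneg hκK.le (S.aa_nonneg (j + 1) x y)
      linarith
  rw [e]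
  have c1 := hE a le_rfl (Nat.le_add_right _ _)
  have c2 := hE b (Nat.le_add_right _ _) le_rfl
  have c3 := S.top_lip b ω s x y
  have c4 := norm_add₃_le (a := ∑ j ∈ Ico a b, (S.Jm j ω x - S.Jm j ω y + (Et (j + 1) - Et j)))
    (b := Et a - Et b) (c := S.top b ω s x - S.top b ω s y)
  have c5 := norm_sub_le (Et a) (Et b)
  have c6 := mul_nonneg hκK.le (S.aa_nonneg a x y)
  linarith

open Classical in
lemma F_lip (a : ℕ) (ω : ι) (s : Bool) (x y : X) :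
    ‖S.F a ω s x - S.F a ω s y‖ ≤ 40000 * (S.κ * S.K) * (S.aa a x y + S.aa (a + S.W) x y +
      ∑ j ∈ Ico a (a + S.W), if S.firm j (a + S.W) ω x y ∧ S.firm (j + 1) (a + S.W) ω x y then 0
        else S.aa j x y + S.aa (j + 1) x y) := by
  have hG := S.G_lip a ω s x y
  set b := a + S.W with hb
  have hκK : 0 < S.κ * S.K := mul_pos S.κ_pos S.K_pos
  set T := ∑ j ∈ Ico a b, if S.firm j b ω x y ∧ S.firm (j + 1) b ω x y then 0
        else S.aa j x y + S.aa (j + 1) x y with hT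
  have hT0 : 0 ≤ T := sum_nonneg fun j _ => by
    split_ifs
    · exact le_rfl
    · exact add_nonneg (S.aa_nonneg _ _ _) (S.aa_nonneg _ _ _)
  have c1 := mul_nonneg hκK.le (S.aa_nonneg a x y)
  have c2 := mul_nonneg hκK.le (S.aa_nonneg b x y)
  have c3 := mul_nonneg hκK.le hT0
  have e : S.F a ω s x - S.F a ω s y = S.amp b ω x • (S.G a ω s x - S.G a ω s y) +
      (S.amp b ω x - S.amp b ω y) • S.G a ω s y := by
    unfold F
    rw [smul_sub, sub_smul]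
    abel
  have h1 : ‖S.amp b ω x • (S.G a ω s x - S.G a ω s y)‖ ≤
      16800 * (S.κ * S.K) * (S.aa a x y + S.aa b x y + T) := by
    by_cases hr : S.r b ω x ≤ 1 / 8
    · rw [norm_smul, Real.norm_eq_abs, amp, abs_of_nonneg (cl_nonneg _)]
      exact (mul_le_of_le_one_left (norm_nonneg _) (cl_le_one _)).trans (hG hr)
    · rw [amp, cl_of_le_one (by linarith), zero_smul, norm_zero]
      linarith
  have h2 : ‖(S.amp b ω x - S.amp b ω y) • S.G a ω s y‖ ≤ 15744 * (S.κ * S.K) * S.aa b x y := by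
    rw [norm_smul, Real.norm_eq_abs]
    refine (mul_le_mul (S.amp_lip b ω x y) (S.G_norm a ω s y) (norm_nonneg _)
      (by have := S.τ_nonneg b x y; positivity)).trans (le_of_eq ?_)
    unfold aa ρ; ring
  rw [e]
  have := norm_add_le (S.amp b ω x • (S.G a ω s x - S.G a ω s y))
    ((S.amp b ω x - S.amp b ω y) • S.G a ω s y)
  linarith

lemma F_eq (a : ℕ) (ω : ι) (s : Bool) (x : X) (hr : S.r (a + S.W) ω x ≤ 1 / 16)
    (hβ : ∀ j, a ≤ j → j ≤ a + S.W → S.β j (a + S.W) ω x ≤ 1 / 16) {c : X}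
    (hc : ∀ z, S.t ω x z ≤ 3 * S.ρ (a + S.W) → S.π (a + S.W) ω s z = c) :
    S.F a ω s x = S.R a ω x - S.f ω c := by
  set b := a + S.W with hb
  have nr : ∀ j, a ≤ j → j ≤ b → Near (S.t ω) (S.ν j ω x) (3 * S.ρ j) x := fun j h1 h2 =>
    S.near_self ω x h2 (by omega) (by linarith [hβ j h1 h2])
  have h1 : ∑ j ∈ Ico a b, S.Jm j ω x = S.R a ω x - S.R b ω x := by
    rw [← neg_sub, ← sum_Ico_sub (fun j => S.R j ω x) (Nat.le_add_right _ _), ← sum_neg_distrib]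
    refine sum_congr rfl fun j hj => ?_
    obtain ⟨j1, j2⟩ := mem_Ico.1 hj
    rw [S.Jm_eq (nr j j1 j2.le) (nr (j + 1) (by omega) (by omega)), neg_sub]
  have n := nr b (Nat.le_add_right _ _) le_rfl
  have h2 : S.top b ω s x = S.R b ω x - S.f ω c := by
    rw [← lin_const n.1 (S.f ω c), R, lin_sub_right]
    exact lin_congr fun z hz => by rw [hc z (n.2 z hz)]
  rw [F, ← hb, amp, cl_of_two_le (by linarith), one_smul, G, ← hb, h1, h2]
  abel

lemma F_low (a : ℕ) (ω : ι) (x y : X) (hrx : S.r (a + S.W) ω x ≤ 1 / 16)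
    (hry : S.r (a + S.W) ω y ≤ 1 / 16)
    (hβx : ∀ j, a ≤ j → j ≤ a + S.W → S.β j (a + S.W) ω x ≤ 1 / 16)
    (hβy : ∀ j, a ≤ j → j ≤ a + S.W → S.β j (a + S.W) ω y ≤ 1 / 16)
    (ht : S.t ω x y ≤ S.ρ (a + S.W)) (ha : 96 * S.κ * S.K * S.Kl * S.Δ a ≤ S.d x y) :
    ∃ s, S.d x y / (2 * S.Kl) ≤ ‖S.F a ω s x - S.F a ω s y‖ := by
  obtain ⟨s, hs⟩ := S.π_loc (a + S.W) ω x
  have hρ := S.ρ_pos (a + S.W)
  change ∀ z, S.t ω x z ≤ 4 * S.ρ (a + S.W) → _ at hs
  refine ⟨s, ?_⟩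
  rw [S.F_eq a ω s x hrx hβx (fun z hz => hs z (by linarith)),
    S.F_eq a ω s y hry hβy (fun z hz => hs z (by linarith [(S.tree ω).tri x y z]))]
  have n1 := S.near_self ω x (Nat.le_add_right a S.W) le_rfl
    (by linarith [hβx a le_rfl (Nat.le_add_right _ _)])
  have n2 := S.near_self ω y (Nat.le_add_right a S.W) le_rfl
    (by linarith [hβy a le_rfl (Nat.le_add_right _ _)])
  have hρa := S.ρ_pos a
  have m1 := norm_lin_near (S.ν_nonneg a ω x) n1 S.K_pos.le (by positivity) (S.f_up ω)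
  have m2 := norm_lin_near (S.ν_nonneg a ω y) n2 S.K_pos.le (by positivity) (S.f_up ω)
  have e : S.f ω x - S.f ω y = (S.R a ω x - S.f ω (S.π (a + S.W) ω s x) -
      (S.R a ω y - S.f ω (S.π (a + S.W) ω s x))) + (S.R a ω y - S.f ω y) -
      (S.R a ω x - S.f ω x) := by abel
  have m3 := S.f_low ω x y
  have m4 := S.dom ω x y
  set N := ‖S.R a ω x - S.f ω (S.π (a + S.W) ω s x) -
      (S.R a ω y - S.f ω (S.π (a + S.W) ω s x))‖ with hN
  have m5 : ‖S.f ω x - S.f ω y‖ ≤ N + S.K * (3 * S.ρ a) + S.K * (3 * S.ρ a) := by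
    rw [e]
    exact (norm_sub_le _ _).trans (add_le_add ((norm_add_le _ _).trans (add_le_add le_rfl m2)) m1)
  have m6 := mul_le_mul_of_nonneg_left m5 S.Kl_pos.le
  have hKl := S.Kl_pos
  rw [div_le_iff₀ (by positivity)]
  unfold ρ at m6
  linarith

end Setup2

end Pool.Agent.Lib.MP_2c27be_co
end

-- part Pool.Agent.Lib.MP_2c27be_co.Energy
section

/-!
Upper and lower bounds for the mean square increments of the block maps.
-/

namespace Pool.Agent.Lib.MP_2c27be_co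

open Finset

lemma sum_shift_le {h : ℕ → ℝ} (h0 : ∀ j, 0 ≤ h j) {H : ℝ} (hH : ∀ M, ∑ j ∈ range M, h j ≤ H)
    (M k : ℕ) : ∑ a ∈ range M, h (a + k) ≤ H := by
  refine le_trans ?_ (hH (k + M))
  rw [sum_range_add]
  simp only [add_comm k]
  exact le_add_of_nonneg_left (sum_nonneg fun j _ => h0 j)

lemma sum_block_le {h : ℕ → ℝ} (h0 : ∀ j, 0 ≤ h j) {H : ℝ} (hH : ∀ M, ∑ j ∈ range M, h j ≤ H)
    (M W : ℕ) : ∑ a ∈ range M, ∑ j ∈ Ico a (a + W), h j ≤ W * H := by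
  simp only [sum_Ico_eq_sum_range, Nat.add_sub_cancel_left]
  rw [sum_comm]
  refine (sum_le_sum fun k _ => sum_shift_le h0 hH M k).trans (le_of_eq ?_)
  simp

namespace Setup2

variable {X ι E : Type} [Fintype X] [Fintype ι] [NormedAddCommGroup E] [NormedSpace ℝ E]
  (S : Setup2 X ι E)

/-- The mean square increment. -/
noncomputable def En (M : ℕ) (x y : X) : ℝ :=
  ∑ a ∈ range M, ∑ ω, S.p ω * ∑ s, ‖S.F a ω s x - S.F a ω s y‖ ^ 2

omit [Fintype X] [NormedSpace ℝ E] in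
open Classical in
lemma β_prob (j b : ℕ) (x : X) :
    ∑ ω, S.p ω * (if 1 / 16 < S.β j b ω x then 1 else 0) ≤ 48 / S.m := by
  refine (markov S.p_nonneg (fun ω => S.β_nonneg j b ω x) (by norm_num)).trans ?_
  have := S.β_exp j b x
  rw [div_le_iff₀ (by norm_num)]
  refine this.trans (le_of_eq (by ring))

omit [Fintype X] [NormedSpace ℝ E] in
open Classical in
lemma r_prob (hκ : 1024 * S.D ≤ S.κ) (b : ℕ) (x : X) :
    ∑ ω, S.p ω * (if 1 / 16 < S.r b ω x then 1 else 0) ≤ 1 / 16 := by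
  refine (markov S.p_nonneg (fun ω => S.r_nonneg b ω x) (by norm_num)).trans ?_
  have := S.r_exp b x
  rw [div_le_iff₀ (by norm_num)]
  refine this.trans ?_
  rw [div_le_iff₀ S.κ_pos]
  linarith

open Classical in
/-- Mean cost of one scale. -/
noncomputable def cost (j : ℕ) (x y : X) : ℝ :=
  (96 / S.m + if S.Δ j ≤ 64 * (S.α * S.d x y) then 1 else 0) * (S.aa j x y + S.aa (j + 1) x y) ^ 2

omit [Fintype X] [NormedSpace ℝ E] in
lemma cost_nonneg (j : ℕ) (x y : X) : 0 ≤ S.cost j x y := by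
  have := S.m_pos
  unfold cost
  split_ifs <;> positivity

omit [Fintype X] [NormedSpace ℝ E] in
lemma α_nonneg : 0 ≤ S.α := by
  have := S.m_pos
  have := S.D_pos
  unfold Setup.α
  positivity

omit [Fintype X] [NormedSpace ℝ E] in
lemma sum_cost (M : ℕ) (x y : X) :
    ∑ j ∈ range M, S.cost j x y ≤ (384 * S.Q / S.m + 73728 * S.α ^ 2) * S.d x y ^ 2 := by
  classical
  set l := 64 * (S.α * S.d x y) with hl
  have hl0 : 0 ≤ l := by have := S.α_nonneg; have := S.d_nonneg x y; positivity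
  have hm := S.m_pos
  have h1 : ∀ j ∈ range M, S.cost j x y ≤ 192 / S.m * (S.aa j x y ^ 2 + S.aa (j + 1) x y ^ 2) +
      9 * l * (if S.δ * 2 ^ j ≤ l then S.δ * 2 ^ j else 0) := by
    intro j _
    have a1 : (S.aa j x y + S.aa (j + 1) x y) ^ 2 ≤ 2 * (S.aa j x y ^ 2 + S.aa (j + 1) x y ^ 2) := by
      nlinarith [sq_nonneg (S.aa j x y - S.aa (j + 1) x y)]
    have a2 := mul_le_mul_of_nonneg_left a1 (show 0 ≤ 96 / S.m by positivity)
    have a3 : 96 / S.m * (2 * (S.aa j x y ^ 2 + S.aa (j + 1) x y ^ 2)) =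
        192 / S.m * (S.aa j x y ^ 2 + S.aa (j + 1) x y ^ 2) := by ring
    unfold cost
    rw [← hl, add_mul]
    change _ ≤ _ + 9 * l * (if S.Δ j ≤ l then S.Δ j else 0)
    split_ifs with h
    · have b1 : S.aa j x y ≤ S.Δ j := mul_le_of_le_one_right (S.Δ_pos _).le (S.τ_le_one _ _ _)
      have b2 : S.aa (j + 1) x y ≤ S.Δ (j + 1) :=
        mul_le_of_le_one_right (S.Δ_pos _).le (S.τ_le_one _ _ _)
      rw [S.Δ_succ] at b2
      have b3 := pow_le_pow_left₀ (add_nonneg (S.aa_nonneg j x y) (S.aa_nonneg (j + 1) x y))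
        (show S.aa j x y + S.aa (j + 1) x y ≤ 3 * S.Δ j by linarith) 2
      have b4 := mul_le_mul_of_nonneg_right h (S.Δ_pos j).le
      nlinarith
    · linarith
  refine (sum_le_sum h1).trans ?_
  rw [sum_add_distrib, ← mul_sum, ← mul_sum, sum_add_distrib]
  have c1 : ∑ j ∈ range M, S.aa j x y ^ 2 ≤ S.Q * S.d x y ^ 2 := S.sum_τ_sq M x y
  have c2 : ∑ j ∈ range M, S.aa (j + 1) x y ^ 2 ≤ S.Q * S.d x y ^ 2 :=
    sum_shift_le (h := fun j => S.aa j x y ^ 2) (fun _ => sq_nonneg _)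
      (fun M => S.sum_τ_sq M x y) M 1
  have c3 := mul_le_mul_of_nonneg_left (sum_geo_le S.δ_pos hl0 M) (show 0 ≤ 9 * l by positivity)
  have c4 := mul_le_mul_of_nonneg_left (add_le_add c1 c2) (show 0 ≤ 192 / S.m by positivity)
  refine (add_le_add c4 c3).trans (le_of_eq ?_)
  rw [hl]; ring

open Classical in
lemma F_sq_exp (a : ℕ) (s : Bool) (x y : X) :
    ∑ ω, S.p ω * ‖S.F a ω s x - S.F a ω s y‖ ^ 2 ≤ 3 * (40000 * (S.κ * S.K)) ^ 2 *
      (S.aa a x y ^ 2 + S.aa (a + S.W) x y ^ 2 + S.W * ∑ j ∈ Ico a (a + S.W), S.cost j x y) := by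
  set b := a + S.W with hb
  let bad : ι → ℕ → ℝ := fun ω j => (if 1 / 16 < S.β j b ω x then 1 else 0) +
    (if 1 / 16 < S.β (j + 1) b ω x then 1 else 0) +
    (if S.Δ j ≤ 64 * (S.α * S.d x y) then 1 else 0)
  have h1 : ∀ ω, ‖S.F a ω s x - S.F a ω s y‖ ^ 2 ≤ 3 * (40000 * (S.κ * S.K)) ^ 2 *
      (S.aa a x y ^ 2 + S.aa b x y ^ 2 +
        S.W * ∑ j ∈ Ico a b, bad ω j * (S.aa j x y + S.aa (j + 1) x y) ^ 2) := by
    intro ω
    have a1 := pow_le_pow_left₀ (norm_nonneg _) (S.F_lip a ω s x y) 2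
    rw [← hb, mul_pow] at a1
    set T := ∑ j ∈ Ico a b, if S.firm j b ω x y ∧ S.firm (j + 1) b ω x y then 0
        else S.aa j x y + S.aa (j + 1) x y with hT
    have a2 : T ^ 2 ≤ S.W * ∑ j ∈ Ico a b, bad ω j * (S.aa j x y + S.aa (j + 1) x y) ^ 2 := by
      refine sq_sum_le_card_mul_sum_sq.trans ?_
      rw [Nat.card_Ico, hb, Nat.add_sub_cancel_left]
      refine mul_le_mul_of_nonneg_left (sum_le_sum fun j _ => ?_) (Nat.cast_nonneg _)
      by_cases h : S.firm j (a + S.W) ω x y ∧ S.firm (j + 1) (a + S.W) ω x y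
      · rw [if_pos h]
        have : 0 ≤ bad ω j := by
          simp only [bad]
          split_ifs <;> norm_num
        rw [zero_pow two_ne_zero]
        positivity
      · rw [if_neg h]
        refine le_mul_of_one_le_left (sq_nonneg _) ?_
        simp only [bad]
        have t1 := S.τ_le_α j x y
        have t2 := S.τ_le_α (j + 1) x y
        rw [S.Δ_succ] at t2
        have t3 := S.Δ_pos j
        split_ifs with c1 c2 c3 <;> try norm_num
        exfalso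
        apply h
        rename_i c2 c3
        refine ⟨⟨not_lt.1 c1, ?_⟩, ⟨not_lt.1 c2, ?_⟩⟩
        · by_contra c
          nlinarith [mul_lt_mul_of_pos_left (not_le.1 c) t3]
        · by_contra c
          nlinarith [mul_lt_mul_of_pos_left (not_le.1 c) t3]
    have a3 : (S.aa a x y + S.aa b x y + T) ^ 2 ≤ 3 * (S.aa a x y ^ 2 + S.aa b x y ^ 2 + T ^ 2) := by
      nlinarith [sq_nonneg (S.aa a x y - S.aa b x y), sq_nonneg (S.aa a x y - T),
        sq_nonneg (S.aa b x y - T)]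
    refine a1.trans ?_
    rw [mul_comm 3, mul_assoc]
    exact mul_le_mul_of_nonneg_left (by linarith) (sq_nonneg _)
  refine (sum_le_sum fun ω _ => mul_le_mul_of_nonneg_left (h1 ω) (S.p_nonneg ω)).trans ?_
  simp only [mul_left_comm (S.p _)]
  rw [← mul_sum]
  apply mul_le_mul_of_nonneg_left _ (by positivity)
  simp only [mul_add, sum_add_distrib, ← sum_mul, S.p_sum, one_mul, mul_left_comm (S.p _)]
  rw [← mul_sum]
  refine add_le_add le_rfl (mul_le_mul_of_nonneg_left ?_ (Nat.cast_nonneg _))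
  simp only [mul_sum]
  rw [sum_comm]
  refine sum_le_sum fun j _ => ?_
  simp only [← mul_assoc, ← sum_mul]
  apply mul_le_mul_of_nonneg_right _ (sq_nonneg _)
  simp only [bad, mul_add, sum_add_distrib, ← sum_mul, S.p_sum, one_mul]
  have c1 := S.β_prob j b x
  have c2 := S.β_prob (j + 1) b x
  have : 96 / S.m = 48 / S.m + 48 / S.m := by ring
  linarith

lemma En_le (M : ℕ) (x y : X) :
    S.En M x y ≤ 6 * (40000 * (S.κ * S.K)) ^ 2 *
      (2 * S.Q + S.W ^ 2 * (384 * S.Q / S.m + 73728 * S.α ^ 2)) * S.d x y ^ 2 := by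
  have h1 : ∀ a ∈ range M, ∑ ω, S.p ω * ∑ s, ‖S.F a ω s x - S.F a ω s y‖ ^ 2 ≤
      6 * (40000 * (S.κ * S.K)) ^ 2 * (S.aa a x y ^ 2 + S.aa (a + S.W) x y ^ 2 +
        S.W * ∑ j ∈ Ico a (a + S.W), S.cost j x y) := by
    intro a _
    simp only [Fintype.sum_bool, mul_add (S.p _), sum_add_distrib]
    linarith [S.F_sq_exp a true x y, S.F_sq_exp a false x y]
  refine (sum_le_sum h1).trans ?_
  rw [← mul_sum, mul_assoc (6 * _)]
  apply mul_le_mul_of_nonneg_left _ (by positivity)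
  rw [sum_add_distrib, sum_add_distrib, ← mul_sum]
  have c1 : ∑ j ∈ range M, S.aa j x y ^ 2 ≤ S.Q * S.d x y ^ 2 := S.sum_τ_sq M x y
  have c2 : ∑ j ∈ range M, S.aa (j + S.W) x y ^ 2 ≤ S.Q * S.d x y ^ 2 :=
    sum_shift_le (h := fun j => S.aa j x y ^ 2) (fun _ => sq_nonneg _)
      (fun M => S.sum_τ_sq M x y) M _
  have c3 := mul_le_mul_of_nonneg_left
    (sum_block_le (fun j => S.cost_nonneg j x y) (fun M => S.sum_cost M x y) M S.W)
    (Nat.cast_nonneg (α := ℝ) S.W)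
  linarith

open Classical in
lemma F_low_exp (hκ : 1024 * S.D ≤ S.κ) (hm : 384 * ((S.W : ℝ) + 1) ≤ S.m) (a : ℕ) (x y : X)
    (hd : 0 < S.d x y) (hb : S.d x y ≤ S.Δ (a + S.W))
    (ha : 96 * S.κ * S.K * S.Kl * S.Δ a ≤ S.d x y) :
    1 / 2 * (S.d x y / (2 * S.Kl)) ^ 2 ≤ ∑ ω, S.p ω * ∑ s, ‖S.F a ω s x - S.F a ω s y‖ ^ 2 := by
  have hlow := fun ω => S.F_low a ω x y
  set b := a + S.W with hb'
  let bad : ι → ℝ := fun ω => (if 1 / 16 < S.r b ω x then 1 else 0) +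
    (if 1 / 16 < S.r b ω y then 1 else 0) +
    ∑ j ∈ Icc a b, ((if 1 / 16 < S.β j b ω x then 1 else 0) +
      (if 1 / 16 < S.β j b ω y then 1 else 0)) +
    (if 8 * S.D * S.d x y < S.t ω x y then 1 else 0)
  have hD := S.D_pos
  have h1 : ∑ ω, S.p ω * bad ω ≤ 1 / 2 := by
    simp only [bad, mul_add, sum_add_distrib]
    have c1 := S.r_prob hκ b x
    have c2 := S.r_prob hκ b y
    have c3 : ∀ z : X, ∑ ω, S.p ω * ∑ j ∈ Icc a b,
        (if 1 / 16 < S.β j b ω z then (1 : ℝ) else 0) ≤ 1 / 8 := by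
      intro z
      simp only [mul_sum]
      rw [sum_comm]
      refine (sum_le_sum fun j _ => S.β_prob j b z).trans ?_
      rw [sum_const, Nat.card_Icc, nsmul_eq_mul, hb', show a + S.W + 1 - a = S.W + 1 by omega,
        ← mul_div_assoc, div_le_iff₀ S.m_pos]
      push_cast
      linarith
    have c4 := markov S.p_nonneg (fun ω => (S.tree ω).nonneg x y)
      (show 0 < 8 * S.D * S.d x y by positivity)
    have c5 : (∑ ω, S.p ω * S.t ω x y) / (8 * S.D * S.d x y) ≤ 1 / 8 := by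
      rw [div_le_iff₀ (by positivity)]
      linarith [S.exp x y]
    linarith [c3 x, c3 y]
  have h2 : ∀ ω, (1 - bad ω) * (S.d x y / (2 * S.Kl)) ^ 2 ≤
      ∑ s, ‖S.F a ω s x - S.F a ω s y‖ ^ 2 := by
    intro ω
    have i0 : ∀ (P : Prop) [Decidable P], (0 : ℝ) ≤ if P then 1 else 0 := by
      intro P _; split_ifs <;> norm_num
    have i1 : ∀ (P : Prop) [Decidable P], (if P then (1 : ℝ) else 0) < 1 → ¬ P := by
      intro P _ h hP; rw [if_pos hP] at h; exact lt_irrefl _ h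
    have j1 := i0 (1 / 16 < S.r b ω x)
    have j2 := i0 (1 / 16 < S.r b ω y)
    have j3 := i0 (8 * S.D * S.d x y < S.t ω x y)
    have j4 : ∀ j ∈ Icc a b, (0 : ℝ) ≤ (if 1 / 16 < S.β j b ω x then 1 else 0) +
      (if 1 / 16 < S.β j b ω y then 1 else 0) := fun j _ => add_nonneg (i0 _) (i0 _)
    have j5 := sum_nonneg j4
    by_cases c : bad ω < 1
    · simp only [bad] at c
      have k1 : ∀ j, a ≤ j → j ≤ b → S.β j b ω x ≤ 1 / 16 ∧ S.β j b ω y ≤ 1 / 16 := by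
        intro j hj1 hj2
        have := single_le_sum j4 (mem_Icc.2 ⟨hj1, hj2⟩)
        have l1 := i0 (1 / 16 < S.β j b ω x)
        have l2 := i0 (1 / 16 < S.β j b ω y)
        exact ⟨not_lt.1 (i1 _ (by linarith)), not_lt.1 (i1 _ (by linarith))⟩
      have k2 : S.t ω x y ≤ S.ρ b := by
        have l1 : S.t ω x y ≤ 8 * S.D * S.d x y := not_lt.1 (i1 _ (by linarith))
        have l2 : S.D * S.d x y ≤ S.κ * S.Δ b :=
          mul_le_mul (by linarith) hb hd.le S.κ_pos.le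
        unfold ρ
        linarith
      obtain ⟨s, hs⟩ := hlow ω (not_lt.1 (i1 _ (by linarith))) (not_lt.1 (i1 _ (by linarith)))
        (fun j h1 h2 => (k1 j h1 h2).1) (fun j h1 h2 => (k1 j h1 h2).2) k2 ha
      have k3 := pow_le_pow_left₀ (by have := S.Kl_pos; positivity) hs 2
      have k4 := single_le_sum (f := fun s => ‖S.F a ω s x - S.F a ω s y‖ ^ 2)
        (fun _ _ => sq_nonneg _) (mem_univ s)
      refine le_trans ?_ (k3.trans k4)
      refine mul_le_of_le_one_left (sq_nonneg _) ?_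
      simp only [bad]
      linarith
    · exact (mul_nonpos_of_nonpos_of_nonneg (by linarith) (sq_nonneg _)).trans
        (sum_nonneg fun _ _ => sq_nonneg _)
  refine le_trans ?_ (sum_le_sum fun ω _ => mul_le_mul_of_nonneg_left (h2 ω) (S.p_nonneg ω))
  simp only [← mul_assoc, ← sum_mul]
  apply mul_le_mul_of_nonneg_right _ (sq_nonneg _)
  simp only [mul_sub, sum_sub_distrib, mul_one, S.p_sum]
  linarith

lemma le_En (hκ : 1024 * S.D ≤ S.κ) (hm : 384 * ((S.W : ℝ) + 1) ≤ S.m) {g : ℕ}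
    (hg : 96 * S.κ * S.K * S.Kl ≤ 2 ^ g) (hW : 2 * g ≤ S.W) (M : ℕ) (x y : X)
    (h1 : S.Δ S.W ≤ S.d x y) (h2 : S.d x y ≤ S.Δ M) :
    S.W / (16 * S.Kl ^ 2) * S.d x y ^ 2 ≤ S.En M x y := by
  classical
  have hd : 0 < S.d x y := (S.Δ_pos _).trans_le h1
  have hex : ∃ j, S.d x y ≤ S.Δ j := ⟨M, h2⟩
  set k := Nat.find hex with hk
  have k1 : S.d x y ≤ S.Δ k := Nat.find_spec hex
  have k2 : k ≤ M := Nat.find_min' hex h2
  have k3 : S.W ≤ k := by
    by_contra c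
    have := S.Δ_mono (show k + 1 ≤ S.W by omega)
    rw [S.Δ_succ] at this
    linarith [S.Δ_pos k]
  have h3 : ∀ a ∈ Ico (k - S.W) (k - g), 1 / 2 * (S.d x y / (2 * S.Kl)) ^ 2 ≤
      ∑ ω, S.p ω * ∑ s, ‖S.F a ω s x - S.F a ω s y‖ ^ 2 := by
    intro a ha
    obtain ⟨a1, a2⟩ := mem_Ico.1 ha
    refine S.F_low_exp hκ hm a x y hd (k1.trans (S.Δ_mono (by omega))) ?_
    have a3 : S.Δ (a + g) < S.d x y := not_le.1 (Nat.find_min hex (by omega))
    rw [S.Δ_add] at a3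
    exact (mul_le_mul_of_nonneg_right hg (S.Δ_pos a).le).trans a3.le
  have h4 := sum_le_sum h3
  rw [sum_const, Nat.card_Ico, nsmul_eq_mul] at h4
  have h5 : ∑ a ∈ Ico (k - S.W) (k - g), ∑ ω, S.p ω * ∑ s, ‖S.F a ω s x - S.F a ω s y‖ ^ 2 ≤
      S.En M x y := by
    refine sum_le_sum_of_subset_of_nonneg (fun a ha => ?_) fun a _ _ =>
      sum_nonneg fun ω _ => mul_nonneg (S.p_nonneg ω) (sum_nonneg fun _ _ => sq_nonneg _)
    have := mem_Ico.1 ha
    exact mem_range.2 (by omega)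
  refine le_trans ?_ (h4.trans h5)
  have h6 : (S.W : ℝ) ≤ 2 * ((k - g - (k - S.W) : ℕ) : ℝ) := by
    exact_mod_cast (show S.W ≤ 2 * (k - g - (k - S.W)) by omega)
  have hKl := S.Kl_pos
  have e : S.W / (16 * S.Kl ^ 2) * S.d x y ^ 2 =
      S.W / 2 * (1 / 2 * (S.d x y / (2 * S.Kl)) ^ 2) := by
    field_simp
    ring
  rw [e]
  exact mul_le_mul_of_nonneg_right (by linarith) (by positivity)

end Setup2

end Pool.Agent.Lib.MP_2c27be_co
end

-- part Pool.Agent.Lib.MP_2c27be_co.Main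
section

/-!
Assembly of the embedding and the asymptotics.
-/

namespace Pool.Agent.Lib.MP_2c27be_co

open Finset

lemma exists_euclid_card {X κ : Type} [Fintype X] [Fintype κ] (F : X → EuclideanSpace ℝ κ) :
    ∃ f : X → EuclideanSpace ℝ (Fin (Fintype.card X)), ∀ x y,
      dist (f x) (f y) ^ 2 = ‖F x - F y‖ ^ 2 := by
  let V : Submodule ℝ (EuclideanSpace ℝ κ) := Submodule.span ℝ (Set.range F)
  have hr : Module.finrank ℝ V ≤ Fintype.card X := finrank_range_le_card F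
  let b := stdOrthonormalBasis ℝ V
  let v : X → V := fun x => ⟨F x, Submodule.subset_span ⟨x, rfl⟩⟩
  let a : V → ℕ → ℝ := fun w i => if h : i < Module.finrank ℝ V then b.repr w ⟨i, h⟩ else 0
  refine ⟨fun x => WithLp.toLp 2 fun i => a (v x) i, fun x y => ?_⟩
  have h1 : ∀ i, a (v x) i - a (v y) i = a (v x - v y) i := by
    intro i
    simp only [a]
    split_ifs <;> simp
  rw [EuclideanSpace.dist_eq, Real.sq_sqrt (sum_nonneg fun _ _ => sq_nonneg _)]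
  have h2 : ‖F x - F y‖ = ‖b.repr (v x - v y)‖ := by
    rw [LinearIsometryEquiv.norm_map]; rfl
  rw [h2, EuclideanSpace.real_norm_sq_eq]
  simp only [Real.dist_eq, sq_abs, h1]
  rw [Fin.sum_univ_eq_sum_range (fun i => a (v x - v y) i ^ 2),
    ← sum_subset (range_subset_range.2 hr), ← Fin.sum_univ_eq_sum_range (fun i => a (v x - v y) i ^ 2)]
  · refine sum_congr rfl fun i _ => ?_
    simp only [a, dif_pos i.2]
  · intro i _ hi
    simp only [a, dif_neg (fun h => hi (mem_range.2 h))]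
    simp

lemma exists_euclid_sum {X Ω κ : Type} [Fintype X] [Fintype Ω] [Fintype κ] (q : Ω → ℝ)
    (hq : ∀ ω, 0 ≤ q ω) (G : Ω → X → EuclideanSpace ℝ κ) :
    ∃ f : X → EuclideanSpace ℝ (Fin (Fintype.card X)), ∀ x y,
      dist (f x) (f y) ^ 2 = ∑ ω, q ω * ‖G ω x - G ω y‖ ^ 2 := by
  obtain ⟨f, hf⟩ := exists_euclid_card (κ := Ω × κ)
    (fun x => WithLp.toLp 2 fun c => Real.sqrt (q c.1) * G c.1 x c.2)
  refine ⟨f, fun x y => ?_⟩
  rw [hf, EuclideanSpace.real_norm_sq_eq, Fintype.sum_prod_type]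
  refine sum_congr rfl fun ω _ => ?_
  rw [EuclideanSpace.real_norm_sq_eq, mul_sum]
  refine sum_congr rfl fun i _ => ?_
  simp only [PiLp.sub_apply]
  rw [← mul_sub, mul_pow, Real.sq_sqrt (hq ω)]

lemma ratio_le {D k L W m : ℝ} (hD : 1 ≤ D) (hk : 1 ≤ k) (hL : 0 ≤ L) (hW : W = 2 * k ^ 5)
    (hm : m = 384 * (W + 1) ^ 2) :
    6 * (40000 * (1024 * D * k)) ^ 2 *
      (2 * (2 * (8 * D) ^ 2 * ((L + 2) + m ^ 2 * (W + m) * D ^ 2)) +
        W ^ 2 * (384 * (2 * (8 * D) ^ 2 * ((L + 2) + m ^ 2 * (W + m) * D ^ 2)) / m +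
          73728 * (8 * D * (1 + m * D)) ^ 2)) ≤
    W / (16 * (2 * k) ^ 2) * (10 ^ 40 * D ^ 6 * ((L + 2) / k + k ^ 30)) := by
  set Q := 2 * (8 * D) ^ 2 * ((L + 2) + m ^ 2 * (W + m) * D ^ 2) with hQ
  have hk0 : 0 < k := by linarith
  have hD0 : 0 < D := by linarith
  have k5 : 1 ≤ k ^ 5 := one_le_pow₀ hk
  have hW0 : 0 < W := by rw [hW]; positivity
  have hm0 : 0 < m := by rw [hm]; positivity
  have hQ0 : 0 ≤ Q := by positivity
  have m1 : m ≤ 3456 * k ^ 10 := by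
    have : (W + 1) ^ 2 ≤ (3 * k ^ 5) ^ 2 := pow_le_pow_left₀ (by positivity) (by linarith) 2
    rw [hm]
    calc 384 * (W + 1) ^ 2 ≤ 384 * (3 * k ^ 5) ^ 2 := by linarith
      _ = 3456 * k ^ 10 := by ring
  have m2 : W + m ≤ 3458 * k ^ 10 := by
    have : k ^ 5 ≤ k ^ 10 := pow_le_pow_right₀ hk (by norm_num)
    linarith
  have m3 : 1 ≤ m := by rw [hm]; nlinarith
  have a1 : W ^ 2 * (384 * Q / m) ≤ Q := by
    rw [← mul_div_assoc, div_le_iff₀ hm0, hm]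
    have : W ^ 2 ≤ (W + 1) ^ 2 := by nlinarith
    nlinarith
  have a2 : 8 * D * (1 + m * D) ≤ 55296 * D ^ 2 * k ^ 10 := by
    have h1 : 1 ≤ m * D := one_le_mul_of_one_le_of_one_le m3 hD
    have h2 : m * D ≤ 3456 * k ^ 10 * D := mul_le_mul_of_nonneg_right m1 hD0.le
    calc 8 * D * (1 + m * D) ≤ 8 * D * (2 * (3456 * k ^ 10 * D)) :=
          mul_le_mul_of_nonneg_left (by linarith) (by positivity)
      _ = 55296 * D ^ 2 * k ^ 10 := by ring
  have a3 : W ^ 2 * (73728 * (8 * D * (1 + m * D)) ^ 2) ≤ 10 ^ 15 * D ^ 4 * k ^ 31 := by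
    have h1 := pow_le_pow_left₀ (by positivity) a2 2
    have h2 : k ^ 30 ≤ k ^ 31 := pow_le_pow_right₀ hk (by norm_num)
    calc W ^ 2 * (73728 * (8 * D * (1 + m * D)) ^ 2)
        ≤ W ^ 2 * (73728 * (55296 * D ^ 2 * k ^ 10) ^ 2) :=
          mul_le_mul_of_nonneg_left (by linarith) (by positivity)
      _ = 4 * 73728 * 55296 ^ 2 * (D ^ 4 * k ^ 30) := by rw [hW]; ring
      _ ≤ 10 ^ 15 * (D ^ 4 * k ^ 31) :=
          mul_le_mul (by norm_num) (mul_le_mul_of_nonneg_left h2 (by positivity))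
            (by positivity) (by positivity)
      _ = _ := by ring
  have a4 : Q ≤ 10 ^ 14 * D ^ 4 * ((L + 2) + k ^ 31) := by
    have h1 : m ^ 2 * (W + m) ≤ (3456 * k ^ 10) ^ 2 * (3458 * k ^ 10) :=
      mul_le_mul (pow_le_pow_left₀ hm0.le m1 2) m2 (by positivity) (by positivity)
    have h2 : k ^ 30 ≤ k ^ 31 := pow_le_pow_right₀ hk (by norm_num)
    have h3 : 1 ≤ D ^ 2 := one_le_pow₀ hD
    have h4 : m ^ 2 * (W + m) ≤ 10 ^ 11 * k ^ 31 := by
      calc m ^ 2 * (W + m) ≤ (3456 * k ^ 10) ^ 2 * (3458 * k ^ 10) := h1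
        _ = 3456 ^ 2 * 3458 * k ^ 30 := by ring
        _ ≤ 10 ^ 11 * k ^ 31 := mul_le_mul (by norm_num) h2 (by positivity) (by positivity)
    have h5 : (L + 2) + m ^ 2 * (W + m) * D ^ 2 ≤ 10 ^ 11 * D ^ 2 * ((L + 2) + k ^ 31) := by
      have b1 := mul_le_mul_of_nonneg_right h4 (sq_nonneg D)
      have b2 : (L + 2) * 1 ≤ (L + 2) * (10 ^ 11 * D ^ 2) :=
        mul_le_mul_of_nonneg_left (by linarith) (by positivity)
      linarith
    calc Q ≤ 2 * (8 * D) ^ 2 * (10 ^ 11 * D ^ 2 * ((L + 2) + k ^ 31)) :=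
          mul_le_mul_of_nonneg_left h5 (by positivity)
      _ = 128 * 10 ^ 11 * (D ^ 4 * ((L + 2) + k ^ 31)) := by ring
      _ ≤ 10 ^ 14 * (D ^ 4 * ((L + 2) + k ^ 31)) :=
          mul_le_mul_of_nonneg_right (by norm_num) (by positivity)
      _ = _ := by ring
  have a5 : 2 * Q + W ^ 2 * (384 * Q / m + 73728 * (8 * D * (1 + m * D)) ^ 2) ≤
      2 * 10 ^ 15 * (D ^ 4 * ((L + 2) + k ^ 31)) := by
    have b1 : 0 ≤ D ^ 4 * (L + 2) := by positivity
    have b2 : 0 ≤ D ^ 4 * k ^ 31 := by positivity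
    rw [mul_add (W ^ 2)]
    linarith
  calc _ ≤ 6 * (40000 * (1024 * D * k)) ^ 2 * (2 * 10 ^ 15 * (D ^ 4 * ((L + 2) + k ^ 31))) :=
        mul_le_mul_of_nonneg_left a5 (by positivity)
    _ = 6 * (40000 * 1024) ^ 2 * (2 * 10 ^ 15) * (D ^ 6 * k ^ 2 * ((L + 2) + k ^ 31)) := by ring
    _ ≤ 10 ^ 40 / 32 * (D ^ 6 * k ^ 2 * ((L + 2) + k ^ 31)) :=
        mul_le_mul_of_nonneg_right (by norm_num) (by positivity)
    _ = _ := by
        rw [hW]
        field_simp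
        ring

theorem embed_bound {X ι : Type} [MetricSpace X] [Fintype X] [Fintype ι] {D : ℝ} (hD : 1 ≤ D)
    (p : ι → ℝ) (t : ι → X → X → ℝ) (hp : ∀ i, 0 ≤ p i) (hp1 : ∑ i, p i = 1)
    (ht : ∀ i, IsTree (t i)) (hdom : ∀ i x y, dist x y ≤ t i x y)
    (hexp : ∀ x y, ∑ i, p i * t i x y ≤ D * dist x y) (Λ L : ℕ) (hpos : 0 < Fintype.card X)
    (hΛ : Fintype.card X < 2 ^ 2 ^ Λ) (hL : Fintype.card X ≤ 2 ^ L)
    (hk : 196608 * D ≤ Λ + 2) :
    ∃ (f : X → EuclideanSpace ℝ (Fin (Fintype.card X))) (c : ℝ), 0 < c ∧ ∀ x y,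
      c * dist x y ^ 2 ≤ dist (f x) (f y) ^ 2 ∧ dist (f x) (f y) ^ 2 ≤
        c * (10 ^ 40 * D ^ 6 * ((L + 2) / (Λ + 2) + (Λ + 2) ^ 30)) * dist x y ^ 2 := by
  classical
  haveI : Nonempty X := Fintype.card_pos_iff.1 hpos
  choose u hu0 hu using fun i => exists_paths (ht i)
  choose i0 hi1 hi2 hi3 using hu
  choose f hf1 hf2 using fun i => exists_tree_embed (ht i) Λ hΛ
  let W : ℕ := 2 * (Λ + 2) ^ 5
  let m : ℕ := 384 * (W + 1) ^ 2
  obtain ⟨c0, hc0⟩ := Finite.exists_min (fun c : X × X => if c.1 = c.2 then 1 else dist c.1 c.2)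
  obtain ⟨c1, hc1⟩ := Finite.exists_max (fun c : X × X => dist c.1 c.2)
  set η := if c0.1 = c0.2 then 1 else dist c0.1 c0.2 with hη
  have hη0 : 0 < η := by
    rw [hη]
    split_ifs with h
    · exact one_pos
    · exact dist_pos.2 h
  have hδ : 0 < η / 2 ^ W := by positivity
  obtain ⟨M, hM⟩ := pow_unbounded_of_one_lt (dist c1.1 c1.2 / (η / 2 ^ W)) (one_lt_two (α := ℝ))
  have hanc : ∀ (b : ℕ) (ω : ι), 0 < 16 * (8 * (1024 * D) * (η / 2 ^ W * 2 ^ b)) := by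
    intro b ω; positivity
  choose π hπ1 hπ2 using fun (b : ℕ) (ω : ι) => exists_anchor (ht ω) _ (hanc b ω)
  have hk1 : (1 : ℝ) ≤ Λ + 2 := by
    have : (0 : ℝ) ≤ Λ := Nat.cast_nonneg _
    linarith
  let S : Setup2 X ι (EuclideanSpace ℝ (Fin (Λ + 1) × Fin (2 ^ Λ) × Finset X)) :=
    { d := dist, p := p, t := t, u := u, i0 := i0, D := D, δ := η / 2 ^ W, κ := 1024 * D,
      m := m, n := Fintype.card X, W := W, J := m, L := L
      d_nonneg := fun _ _ => dist_nonneg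
      p_nonneg := hp
      p_sum := hp1
      tree := ht
      dom := hdom
      exp := hexp
      D_ge := hD
      δ_pos := hδ
      κ_ge := by linarith
      m_pos := by simp only [m]; positivity
      n_pos := hpos
      J_ge := by
        have : 0 < (W + 1) ^ 2 := by positivity
        simp only [m]; omega
      m_le := by exact_mod_cast (Nat.lt_two_pow_self (n := m)).le
      n_le := by exact_mod_cast hL
      u_zero := hu0
      i0_le := hi1
      merge := hi2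
      len := hi3
      f := f, K := Λ + 2, Kl := 2 * (Λ + 2), π := π
      K_pos := by linarith
      Kl_pos := by linarith
      f_up := hf1
      f_low := hf2
      π_near := fun b ω s z => (hπ1 b ω s z).trans (le_of_eq (by ring))
      π_loc := fun b ω x => by
        obtain ⟨s, hs⟩ := hπ2 b ω x
        exact ⟨s, fun z hz => hs z (hz.trans (le_of_eq (by ring)))⟩ }
  obtain ⟨φ, hφ⟩ := exists_euclid_sum (Ω := Fin M × ι × Bool) (fun c => p c.2.1)
    (fun c => hp _) (fun c => S.F c.1 c.2.1 c.2.2)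
  have hEn : ∀ x y, dist (φ x) (φ y) ^ 2 = S.En M x y := by
    intro x y
    rw [hφ, Fintype.sum_prod_type, Setup2.En, ← Fin.sum_univ_eq_sum_range
      (fun a => ∑ ω, S.p ω * ∑ s, ‖S.F a ω s x - S.F a ω s y‖ ^ 2)]
    refine sum_congr rfl fun a _ => ?_
    rw [Fintype.sum_prod_type]
    refine sum_congr rfl fun ω _ => ?_
    rw [mul_sum]
  have hW : (W : ℝ) = 2 * ((Λ : ℝ) + 2) ^ 5 := by simp [W]
  have hm : (m : ℝ) = 384 * ((W : ℝ) + 1) ^ 2 := by simp [m]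
  refine ⟨φ, W / (16 * (2 * ((Λ : ℝ) + 2)) ^ 2), by rw [hW]; positivity, fun x y => ⟨?_, ?_⟩⟩
  · by_cases hxy : x = y
    · simp [hxy]
    rw [hEn]
    refine S.le_En le_rfl ?_ (g := (Λ + 2) ^ 5) ?_ le_rfl M x y ?_ ?_
    · change 384 * ((W : ℝ) + 1) ≤ m
      rw [hm]
      have : (0 : ℝ) ≤ W := Nat.cast_nonneg _
      nlinarith
    · change 96 * (1024 * D) * ((Λ : ℝ) + 2) * (2 * ((Λ : ℝ) + 2)) ≤ _
      have h1 : (((Λ + 2) ^ 5 : ℕ) : ℝ) ≤ 2 ^ (Λ + 2) ^ 5 := by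
        exact_mod_cast (Nat.lt_two_pow_self (n := (Λ + 2) ^ 5)).le
      push_cast at h1
      have h2 : ((Λ : ℝ) + 2) ^ 3 ≤ ((Λ : ℝ) + 2) ^ 5 := pow_le_pow_right₀ hk1 (by norm_num)
      have h3 := mul_le_mul_of_nonneg_right hk (sq_nonneg ((Λ : ℝ) + 2))
      nlinarith
    · change η / 2 ^ W * 2 ^ W ≤ dist x y
      have := hc0 (x, y)
      simp only [if_neg hxy] at this
      rw [div_mul_cancel₀ _ (by positivity)]
      exact this
    · change dist x y ≤ η / 2 ^ W * 2 ^ M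
      rw [div_lt_iff₀ hδ] at hM
      have := hc1 (x, y)
      linarith
  · rw [hEn]
    refine (S.En_le M x y).trans (mul_le_mul_of_nonneg_right ?_ (sq_nonneg _))
    have := ratio_le (L := L) hD hk1 (Nat.cast_nonneg _) hW hm
    refine le_trans (le_of_eq ?_) this
    simp only [S, Setup.Q, Setup.α, Nat.cast_add]

lemma asym {C ε : ℝ} (hC : 0 < C) (hε : 0 < ε) (k0 : ℝ) : ∃ N : ℕ, ∀ n, N ≤ n →
    0 < n ∧ ∃ Λ L : ℕ, n < 2 ^ 2 ^ Λ ∧ n ≤ 2 ^ L ∧ k0 ≤ Λ + 2 ∧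
      C * ((L + 2) / (Λ + 2) + (Λ + 2) ^ 30) ≤ ε ^ 2 * Real.log n := by
  have h1 := (tendsto_pow_const_div_const_pow_of_one_lt 30 (one_lt_two (α := ℝ))).eventually
    (gt_mem_nhds (show 0 < ε ^ 2 / (64 * C) by positivity))
  obtain ⟨k1, hk1⟩ := Filter.eventually_atTop.1 h1
  obtain ⟨k2, hk2⟩ := exists_nat_ge (max k0 (16 * C / ε ^ 2))
  refine ⟨2 ^ 2 ^ (k1 + k2), fun n hn => ?_⟩
  have hn0 : 0 < n := lt_of_lt_of_le (by positivity) hn
  set l := Nat.log 2 n with hl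
  have a1 : 2 ^ (k1 + k2) ≤ l := Nat.le_log_of_pow_le (by norm_num) hn
  have a2 : n < 2 ^ (l + 1) := Nat.lt_pow_succ_log_self (by norm_num) n
  have a3 : 2 ^ l ≤ n := Nat.pow_log_le_self 2 hn0.ne'
  set v := Nat.log 2 (l + 1) with hv
  have b1 : k1 + k2 ≤ v := Nat.le_log_of_pow_le (by norm_num) (by omega)
  have b2 : l + 1 < 2 ^ (v + 1) := Nat.lt_pow_succ_log_self (by norm_num) _
  have b3 : 2 ^ v ≤ l + 1 := Nat.pow_log_le_self 2 (by omega)
  have l1 : 1 ≤ l := le_trans (Nat.one_le_two_pow) a1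
  have hv2 : (k2 : ℝ) ≤ ((v + 1 : ℕ) : ℝ) + 2 := by
    have : (k2 : ℝ) ≤ v := by exact_mod_cast (show k2 ≤ v by omega)
    push_cast
    linarith
  refine ⟨hn0, v + 1, l + 1, a2.trans (Nat.pow_lt_pow_right (by norm_num) b2), a2.le,
    ((le_max_left _ _).trans hk2).trans hv2, ?_⟩
  have c1 : (l : ℝ) ≤ 2 * Real.log n := by
    have d1 : ((2 : ℝ) ^ l) ≤ n := by exact_mod_cast a3
    have d2 := Real.log_le_log (by positivity) d1
    rw [Real.log_pow] at d2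
    have d3 := Real.log_two_gt_d9
    have d4 : (0 : ℝ) ≤ l := Nat.cast_nonneg _
    nlinarith
  have c2 := hk1 (v + 3) (by omega)
  have c3 : (2 : ℝ) ^ (v + 3) ≤ 16 * l := by
    have : 2 ^ (v + 3) ≤ 16 * l := by rw [pow_add]; omega
    exact_mod_cast this
  have c4 : (1 : ℝ) ≤ l := by exact_mod_cast l1
  have e : ((v + 1 : ℕ) : ℝ) + 2 = ((v + 3 : ℕ) : ℝ) := by push_cast; ring
  rw [e] at hv2 ⊢
  set k : ℝ := ((v + 3 : ℕ) : ℝ) with hk
  have hk0 : 0 < k := by rw [hk]; positivity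
  rw [div_lt_div_iff₀ (by positivity) (by positivity)] at c2
  have c5 : 16 * C ≤ k * ε ^ 2 := by
    have := ((le_max_right _ _).trans hk2).trans hv2
    rwa [div_le_iff₀ (by positivity)] at this
  have c6 : C * ((((l + 1 : ℕ) : ℝ) + 2) / k) ≤ ε ^ 2 * l / 4 := by
    rw [← mul_div_assoc, div_le_iff₀ hk0]
    push_cast
    have := mul_le_mul_of_nonneg_right c5 (show (0 : ℝ) ≤ l by linarith)
    nlinarith
  have c7 : C * k ^ 30 ≤ ε ^ 2 * l / 4 := by
    have := mul_le_mul_of_nonneg_left c3 (sq_nonneg ε)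
    linarith
  have c8 := mul_le_mul_of_nonneg_left c1 (sq_nonneg ε)
  rw [mul_add]
  linarith

theorem main (D : ℝ) (hD : 1 ≤ D) (ε : ℝ) (hε : 0 < ε) : ∃ N : ℕ,
    ∀ (X : Type) [MetricSpace X] [Fintype X], N ≤ Fintype.card X →
      ∀ (k : ℕ) (p : Fin k → ℝ) (t : Fin k → X → X → ℝ), (∀ i, 0 ≤ p i) → (∑ i, p i) = 1 →
        (∀ i, IsTree (t i)) → (∀ i x y, dist x y ≤ t i x y) →
        (∀ x y, (∑ i, p i * t i x y) ≤ D * dist x y) →
      ∃ (f : X → EuclideanSpace ℝ (Fin (Fintype.card X))) (s : ℝ), 0 < s ∧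
        ∀ x y, s * dist x y ≤ dist (f x) (f y) ∧
          dist (f x) (f y) ≤ s * (ε * Real.sqrt (Real.log (Fintype.card X))) * dist x y := by
  obtain ⟨N, hN⟩ := asym (C := 10 ^ 40 * D ^ 6) (by positivity) hε (196608 * D)
  refine ⟨N, fun X _ _ hn k p t hp hp1 ht hdom hexp => ?_⟩
  obtain ⟨hpos, Λ, L, h1, h2, h3, h4⟩ := hN _ hn
  obtain ⟨f, c, hc, hf⟩ := embed_bound hD p t hp hp1 ht hdom hexp Λ L hpos h1 h2 h3
  refine ⟨f, Real.sqrt c, Real.sqrt_pos.2 hc, fun x y => ⟨?_, ?_⟩⟩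
  · refine (abs_le_of_sq_le_sq' ?_ dist_nonneg).2
    rw [mul_pow, Real.sq_sqrt hc.le]
    exact (hf x y).1
  · refine (abs_le_of_sq_le_sq' ?_ (by positivity)).2
    rw [mul_pow, mul_pow, mul_pow, Real.sq_sqrt hc.le, Real.sq_sqrt (Real.log_natCast_nonneg _)]
    exact (hf x y).2.trans (mul_le_mul_of_nonneg_right (mul_le_mul_of_nonneg_left h4 hc.le)
      (sq_nonneg _))

end Pool.Agent.Lib.MP_2c27be_co
end
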