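import Pool.Agent.Lib.MP_2c27be_co.Main

/-!
The quantitative bound, weighted trees as graphs, and the passage to the sequence space.
-/

namespace Pool.Agent.Lib.MP_2c27be_co

open Finset

lemma asym2 (k0 : ℝ) : ∃ N : ℕ, ∀ n, N ≤ n →
    0 < n ∧ ∃ Λ L : ℕ, n < 2 ^ 2 ^ Λ ∧ n ≤ 2 ^ L ∧ k0 ≤ Λ + 2 ∧
      ((L + 2) / (Λ + 2) + (Λ + 2) ^ 30 : ℝ) ≤ 40 * (Real.log n / Real.log (Real.log n)) := by
  have h1 := (tendsto_pow_const_div_const_pow_of_one_lt 31 (one_lt_two (α := ℝ))).eventually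
    (gt_mem_nhds one_pos)
  obtain ⟨k1, hk1⟩ := Filter.eventually_atTop.1 h1
  obtain ⟨k2, hk2⟩ := exists_nat_ge k0
  refine ⟨2 ^ 2 ^ (k1 + k2 + 2), fun n hn => ?_⟩
  have hn0 : 0 < n := lt_of_lt_of_le (by positivity) hn
  set l := Nat.log 2 n with hl
  have a1 : 2 ^ (k1 + k2 + 2) ≤ l := Nat.le_log_of_pow_le (by norm_num) hn
  have a2 : n < 2 ^ (l + 1) := Nat.lt_pow_succ_log_self (by norm_num) n
  have a3 : 2 ^ l ≤ n := Nat.pow_log_le_self 2 hn0.ne'
  set v := Nat.log 2 (l + 1) with hv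
  have b1 : k1 + k2 + 2 ≤ v := Nat.le_log_of_pow_le (by norm_num) (by omega)
  have b2 : l + 1 < 2 ^ (v + 1) := Nat.lt_pow_succ_log_self (by norm_num) _
  have b3 : 2 ^ v ≤ l + 1 := Nat.pow_log_le_self 2 (by omega)
  have l1 : 4 ≤ l := by
    have : 0 < 2 ^ (k1 + k2) := by positivity
    rw [pow_add] at a1
    omega
  have e : ((v + 1 : ℕ) : ℝ) + 2 = ((v + 3 : ℕ) : ℝ) := by push_cast; ring
  refine ⟨hn0, v + 1, l + 1, a2.trans (Nat.pow_lt_pow_right (by norm_num) b2), a2.le,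
    hk2.trans (by rw [e]; exact_mod_cast (by omega : k2 ≤ v + 3)), ?_⟩
  have c4 : (4 : ℝ) ≤ l := by exact_mod_cast l1
  have d3 := Real.log_two_gt_d9
  have d4 := Real.log_two_lt_d9
  have c1 : (l : ℝ) ≤ 2 * Real.log n := by
    have d1 : ((2 : ℝ) ^ l) ≤ n := by exact_mod_cast a3
    have d2 := Real.log_le_log (by positivity) d1
    rw [Real.log_pow] at d2
    nlinarith
  have c0 : Real.log n ≤ 2 ^ (v + 1) := by
    have d1 : (n : ℝ) ≤ 2 ^ (l + 1) := by exact_mod_cast a2.le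
    have d2 := Real.log_le_log (by exact_mod_cast hn0) d1
    have d5 : ((l + 1 : ℕ) : ℝ) ≤ 2 ^ (v + 1) := by exact_mod_cast b2.le
    have d6 : (0 : ℝ) ≤ (l + 1 : ℕ) := Nat.cast_nonneg _
    rw [Real.log_pow] at d2
    nlinarith
  have c2 := hk1 (v + 3) (by omega)
  have c3 : (2 : ℝ) ^ (v + 3) ≤ 16 * l := by
    have : 2 ^ (v + 3) ≤ 16 * l := by rw [pow_add]; omega
    exact_mod_cast this
  have c5 : Real.log (Real.log n) ≤ ((v + 3 : ℕ) : ℝ) := by
    have d2 := Real.log_le_log (by linarith) c0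
    have d6 : (0 : ℝ) ≤ v := Nat.cast_nonneg _
    rw [Real.log_pow] at d2
    push_cast at d2 ⊢
    nlinarith
  have c6 : 0 < Real.log (Real.log n) := Real.log_pos (by linarith)
  rw [e]
  set k : ℝ := ((v + 3 : ℕ) : ℝ) with hk
  have hk0 : 0 < k := c6.trans_le c5
  rw [div_lt_one (by positivity)] at c2
  have c7 : (((l + 1 : ℕ) : ℝ) + 2) / k + k ^ 30 ≤ 40 * (Real.log n / k) := by
    rw [← mul_div_assoc, le_div_iff₀ hk0, add_mul, div_mul_cancel₀ _ hk0.ne', ← pow_succ]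
    push_cast
    linarith
  exact c7.trans (mul_le_mul_of_nonneg_left
    (div_le_div_of_nonneg_left (by linarith) c6 c5) (by norm_num))

lemma exists_lp {n : ℕ} : ∃ j : EuclideanSpace ℝ (Fin n) → lp (fun _ : ℕ => ℝ) 2,
    ∀ x y, dist (j x) (j y) = dist x y := by
  let b : Fin n → lp (fun _ : ℕ => ℝ) 2 := fun i => lp.single 2 (i : ℕ) 1
  have hb : Orthonormal ℝ b := by
    refine orthonormal_iff_ite.2 fun i j => ?_
    rw [lp.inner_single_left, lp.single_apply, Pi.single_apply]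
    simp [Fin.ext_iff]
  refine ⟨fun x => ∑ i, x i • b i, fun x y => ?_⟩
  rw [dist_eq_norm, dist_eq_norm, ← sum_sub_distrib, ← sq_eq_sq₀ (norm_nonneg _) (norm_nonneg _),
    ← real_inner_self_eq_norm_sq, ← real_inner_self_eq_norm_sq, PiLp.inner_apply]
  simp only [← sub_smul]
  rw [hb.inner_sum]
  simp [sq]

theorem quant (D : ℝ) (hD : 1 ≤ D) : ∃ N : ℕ,
    ∀ (X : Type) [MetricSpace X] [Fintype X], N ≤ Fintype.card X →
      ∀ (k : ℕ) (p : Fin k → ℝ) (t : Fin k → X → X → ℝ), (∀ i, 0 ≤ p i) → (∑ i, p i) = 1 →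
        (∀ i, IsTree (t i)) → (∀ i x y, dist x y ≤ t i x y) →
        (∀ x y, (∑ i, p i * t i x y) ≤ D * dist x y) →
      ∃ (f : X → lp (fun _ : ℕ => ℝ) 2) (s : ℝ), 0 < s ∧
        ∀ x y, s * dist x y ≤ dist (f x) (f y) ∧ dist (f x) (f y) ≤ s * (10 ^ 21 * D ^ 3 *
          √(Real.log (Fintype.card X) / Real.log (Real.log (Fintype.card X)))) * dist x y := by
  obtain ⟨N, hN⟩ := asym2 (196608 * D)
  refine ⟨N, fun X _ _ hn k p t hp hp1 ht hdom hexp => ?_⟩
  obtain ⟨hpos, Λ, L, h1, h2, h3, h4⟩ := hN _ hn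
  obtain ⟨f, c, hc, hf⟩ := embed_bound hD p t hp hp1 ht hdom hexp Λ L hpos h1 h2 h3
  obtain ⟨j, hj⟩ := exists_lp (n := Fintype.card X)
  refine ⟨fun x => j (f x), √c, Real.sqrt_pos.2 hc, fun x y => ⟨?_, ?_⟩⟩ <;> rw [hj]
  · refine (abs_le_of_sq_le_sq' ?_ dist_nonneg).2
    rw [mul_pow, Real.sq_sqrt hc.le]
    exact (hf x y).1
  · set r := Real.log (Fintype.card X) / Real.log (Real.log (Fintype.card X))
    have h5 : 0 ≤ r := by
      have : (0 : ℝ) ≤ (L + 2) / (Λ + 2) + (Λ + 2) ^ 30 := by positivity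
      linarith
    refine (abs_le_of_sq_le_sq' ?_ (by positivity)).2
    rw [mul_pow, mul_pow, mul_pow, Real.sq_sqrt hc.le, Real.sq_sqrt h5]
    refine (hf x y).2.trans (mul_le_mul_of_nonneg_right (mul_le_mul_of_nonneg_left ?_ hc.le)
      (sq_nonneg _))
    have h6 := mul_le_mul_of_nonneg_left h4 (show (0 : ℝ) ≤ 10 ^ 40 * D ^ 6 by positivity)
    have h7 : 0 ≤ D ^ 6 * r := by positivity
    nlinarith

section graph

open SimpleGraph

variable {V : Type} {T : SimpleGraph V} (hT : T.IsTree)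

/-- The path between two vertices of a tree. -/
noncomputable def pth (a b : V) : T.Path a b := by
  classical exact (hT.connected a b).some.toPath

lemma pth_sub {a b : V} (p : T.Walk a b) : (pth hT a b).1.edges ⊆ p.edges := by
  classical
  rw [(hT.isAcyclic.subsingleton_path a b).elim (pth hT a b) p.toPath]
  exact p.edges_toPath_subset_edges

/-- The edge `e` separates `a` from `b`. -/
def Sep (e : Sym2 V) (a b : V) : Prop := e ∈ (pth hT a b).1.edges

variable {hT} {e : Sym2 V} {a b c : V}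

lemma not_sep_self : ¬ Sep hT e a a := fun h => by simpa using pth_sub hT Walk.nil h

lemma Sep.symm (h : Sep hT e a b) : Sep hT e b a := by
  simpa [Sep] using pth_sub hT (pth hT b a).1.reverse h

lemma Sep.tri (h : Sep hT e a c) (b : V) : Sep hT e a b ∨ Sep hT e b c := by
  simpa [Sep] using pth_sub hT ((pth hT a b).1.append (pth hT b c).1) h

lemma not_sep_or (u v a : V) : ¬ Sep hT s(u, v) a u ∨ ¬ Sep hT s(u, v) a v := by
  obtain ⟨p⟩ := hT.connected a u
  have key : ∀ {x y : V} (_ : T.Walk x y), y = u →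
      ¬ Sep hT s(u, v) x u ∨ ¬ Sep hT s(u, v) x v := by
    intro x y q
    induction q with
    | nil => rintro rfl; exact .inl not_sep_self
    | @cons x z y h q ih =>
      intro hy
      by_cases he : s(u, v) = s(x, z)
      · rcases Sym2.eq_iff.1 he with ⟨rfl, -⟩ | ⟨-, rfl⟩
        exacts [.inl not_sep_self, .inr not_sep_self]
      · have h1 : ¬ Sep hT s(u, v) x z := fun h' => he (by simpa using pth_sub hT h.toWalk h')
        exact (ih hy).imp (fun h2 h3 => (h3.tri z).elim h1 h2) fun h2 h3 => (h3.tri z).elim h1 h2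
  exact key p rfl

lemma sep_iff (r : V) : Sep hT e a b ↔ ¬ (Sep hT e r a ↔ Sep hT e r b) := by
  induction e with | h u v =>
  have h1 := not_sep_or (hT := hT) u v r
  have h2 := not_sep_or (hT := hT) u v a
  have h3 := not_sep_or (hT := hT) u v b
  have t : ∀ {x y z}, Sep hT s(u, v) x y → ¬ Sep hT s(u, v) x z → ¬ Sep hT s(u, v) y z → False :=
    fun h h' h'' => (h.tri _).elim h' fun g => h'' g.symm
  refine ⟨fun hab h => ?_, fun h => by_contra fun hab => h ⟨fun g => ?_, fun g => ?_⟩⟩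
  · have hb : Sep hT s(u, v) r b := (hab.tri r).elim (fun g => h.1 g.symm) id
    have ha := h.2 hb
    rcases h1 with h1 | h1 <;> rcases h2 with h2 | h2 <;> rcases h3 with h3 | h3 <;>
      first | exact t hab h2 h3 | exact t ha h1 h2 | exact t hb h1 h3
  · exact (g.tri b).resolve_right fun g' => hab g'.symm
  · exact (g.tri a).resolve_right hab

lemma Sep.near {u v : V} (h : Sep hT s(u, v) a b) (h' : ¬ Sep hT e a b) : ¬ Sep hT e a u := by
  classical
  have hu := Walk.fst_mem_support_of_mem_edges _ h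
  exact fun h1 => h' (Walk.edges_takeUntil_subset_edges _ hu (pth_sub hT _ h1))

lemma isTree_graph [Finite V] (hT : T.IsTree) {w : Sym2 V → ℝ} (hw : ∀ e ∈ T.edgeSet, 0 < w e) :
    IsTree fun a b => ⨅ p : T.Path a b, (p.1.edges.map w).sum := by
  classical
  let _ := Fintype.ofFinite V
  have h1 : ∀ a b, ⨅ p : T.Path a b, (p.1.edges.map w).sum =
      ∑ e ∈ T.edgeFinset, w e * if Sep hT e a b then 1 else 0 := fun a b => by
    have := hT.isAcyclic.subsingleton_path a b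
    rw [ciInf_subsingleton (pth hT a b), ← List.sum_toFinset _ (pth hT a b).2.isTrail.edges_nodup]
    simp only [mul_ite, mul_one, mul_zero, ← sum_filter]
    refine sum_congr (Finset.ext fun e => ?_) fun _ _ => rfl
    rw [List.mem_toFinset, mem_filter, mem_edgeFinset]
    exact ⟨fun h => ⟨Walk.edges_subset_edgeSet _ h, h⟩, fun h => h.2⟩
  refine ⟨fun a b => ?_, fun a => ?_, fun x y z u => ?_⟩ <;> simp only [h1]
  · exact sum_congr rfl fun e _ => by rw [if_congr ⟨Sep.symm, Sep.symm⟩ rfl rfl]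
  · simp [not_sep_self]
  simp only [← sum_add_distrib, ← mul_add]
  by_cases h : ∃ e', ¬ Sep hT e' x u ∧ ¬ Sep hT e' y z ∧ Sep hT e' x y
  · obtain ⟨e', a1, a2, a3⟩ := h
    refine le_max_of_le_left (sum_le_sum fun e he => mul_le_mul_of_nonneg_left ?_
      (hw e (mem_edgeFinset.1 he)).le)
    have h2 : ¬ (Sep hT e x u ∧ Sep hT e y z) := by
      induction e with | h s t =>
      exact fun h => (a3.tri s).elim (h.1.near a1) fun h' => h.2.near a2 h'.symm
    simp only [sep_iff (a := z) x, sep_iff (a := y) x] at h2 ⊢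
    by_cases b1 : Sep hT e x y <;> by_cases b2 : Sep hT e x z <;> by_cases b3 : Sep hT e x u <;>
      simp_all
  · refine le_max_of_le_right (sum_le_sum fun e he => mul_le_mul_of_nonneg_left ?_
      (hw e (mem_edgeFinset.1 he)).le)
    have h2 : ¬ (¬ Sep hT e x u ∧ ¬ Sep hT e y z ∧ Sep hT e x y) := fun h' => h ⟨e, h'⟩
    simp only [sep_iff (a := z) x, sep_iff (a := y) x] at h2 ⊢
    by_cases b1 : Sep hT e x y <;> by_cases b2 : Sep hT e x z <;> by_cases b3 : Sep hT e x u <;>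
      simp_all

end graph

end Pool.Agent.Lib.MP_2c27be_co
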