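import Mathlib

-- part Pool.Agent.Lib.MP_2c27be_co.Tree
section

/-!
Tree metrics through Gromov products.
-/

namespace Pool.Agent.Lib.MP_2c27be_co

open Finset

variable {X : Type}

/-- Abstract Gromov product of a tree metric. -/
structure IsGP (g : X → X → ℝ) : Prop where
  symm : ∀ x y, g x y = g y x
  nonneg : ∀ x y, 0 ≤ g x y
  le_self : ∀ x y, g x y ≤ g x x
  ultra : ∀ x y z, min (g x y) (g y z) ≤ g x z

/-- The metric attached to a Gromov product. -/
def gd (g : X → X → ℝ) (x y : X) : ℝ := g x x + g y y - 2 * g x y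

/-- A function satisfying the four point condition. -/
structure IsTree (t : X → X → ℝ) : Prop where
  symm : ∀ x y, t x y = t y x
  zero : ∀ x, t x x = 0
  four : ∀ x y z w, t x y + t z w ≤ max (t x z + t y w) (t x w + t y z)

lemma IsTree.tri {t : X → X → ℝ} (h : IsTree t) (x y z : X) : t x z ≤ t x y + t y z := by
  have := h.four x z y y
  rw [h.zero y, max_self, h.symm z y] at this
  linarith

lemma IsTree.nonneg {t : X → X → ℝ} (h : IsTree t) (x y : X) : 0 ≤ t x y := by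
  have := h.tri x y x
  rw [h.zero x, h.symm y x] at this
  linarith

lemma IsTree.exists_gp {t : X → X → ℝ} (h : IsTree t) (r : X) :
    ∃ g : X → X → ℝ, IsGP g ∧ ∀ x y, t x y = gd g x y := by
  refine ⟨fun x y => (t x r + t y r - t x y) / 2, ⟨?_, ?_, ?_, ?_⟩, ?_⟩
  · intro x y
    rw [h.symm x y]; ring
  · intro x y
    have := h.tri x r y
    rw [h.symm r y] at this
    linarith
  · intro x y
    have := h.tri y x r
    rw [h.symm y x] at this
    rw [h.zero x]
    linarith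
  · intro x y z
    have := h.four x z y r
    rw [h.symm z y] at this
    rcases le_total (t x y + t z r) (t x r + t y z) with h1 | h1
    · rw [max_eq_right h1] at this
      apply le_trans (min_le_right _ _)
      linarith
    · rw [max_eq_left h1] at this
      apply le_trans (min_le_left _ _)
      linarith
  · intro x y
    simp only [gd, h.zero]
    ring

lemma IsGP.le_self' {g : X → X → ℝ} (h : IsGP g) (x y : X) : g x y ≤ g y y := by
  rw [h.symm]; exact h.le_self y x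

lemma IsGP.trans_le {g : X → X → ℝ} (h : IsGP g) {x y z : X} {a : ℝ} (h1 : a ≤ g x y)
    (h2 : a ≤ g y z) : a ≤ g x z := le_trans (le_min h1 h2) (h.ultra x y z)

lemma IsGP.trans_lt {g : X → X → ℝ} (h : IsGP g) {x y z : X} {a : ℝ} (h1 : a < g x y)
    (h2 : a < g y z) : a < g x z := lt_of_lt_of_le (lt_min h1 h2) (h.ultra x y z)

open Classical in
/-- Anchors: two partitions into clusters of bounded diameter such that every ball of radius
`L / 4` is inside a cluster of one of them. -/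
lemma exists_anchor [Fintype X] {t : X → X → ℝ} (ht : IsTree t) (L : ℝ) (hL : 0 < L) :
    ∃ π : Bool → X → X, (∀ s z, t z (π s z) ≤ 2 * L) ∧
      ∀ x, ∃ s, ∀ z, t x z ≤ L / 4 → π s z = π s x := by
  rcases isEmpty_or_nonempty X with hX | ⟨⟨r⟩⟩
  · exact ⟨fun _ x => x, fun _ z => (hX.false z).elim, fun z => (hX.false z).elim⟩
  obtain ⟨g, hg, htg⟩ := ht.exists_gp r
  let sh : Bool → ℝ := fun s => if s then L / 2 else 0
  let k : Bool → X → ℤ := fun s x => ⌊(g x x + sh s) / L⌋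
  let cl : Bool → X → Finset X := fun s x =>
    univ.filter (fun z => k s z = k s x ∧ k s x * L - sh s ≤ g x z)
  let pick : Finset X → X := fun S => if h : S.Nonempty then h.choose else r
  have hk1 : ∀ s x, k s x * L - sh s ≤ g x x := by
    intro s x
    have := Int.floor_le ((g x x + sh s) / L)
    rw [le_div_iff₀ hL] at this
    simp only [k]
    linarith
  have hk2 : ∀ s x, g x x < k s x * L - sh s + L := by
    intro s x
    have := Int.lt_floor_add_one ((g x x + sh s) / L)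
    rw [div_lt_iff₀ hL] at this
    simp only [k]
    linarith
  have hmem : ∀ s x, pick (cl s x) ∈ cl s x := by
    intro s x
    have hne : (cl s x).Nonempty := ⟨x, by
      simp only [cl, mem_filter, mem_univ, true_and]; exact hk1 s x⟩
    simp only [pick, dif_pos hne]
    exact hne.choose_spec
  refine ⟨fun s x => pick (cl s x), ?_, ?_⟩
  · intro s z
    have h1 := hmem s z
    simp only [cl, mem_filter, mem_univ, true_and] at h1
    have h2 := hk2 s z
    have h3 := hk2 s (pick (cl s z))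
    rw [h1.1] at h3
    rw [htg, gd]
    have := h1.2
    simp only [cl] at h3 ⊢
    linarith
  · intro x
    have key : ∀ s, k s x * L - sh s + L / 4 ≤ g x x → g x x + L / 4 < k s x * L - sh s + L →
        ∀ z, t x z ≤ L / 4 → pick (cl s z) = pick (cl s x) := by
      intro s h1 h2 z hz
      rw [htg, gd] at hz
      have a1 := hg.le_self x z
      have a2 := hg.le_self' x z
      have hkz : k s z = k s x := by
        simp only [k]
        rw [Int.floor_eq_iff, le_div_iff₀ hL, div_lt_iff₀ hL]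
        simp only [k] at h1 h2
        constructor <;> linarith
      have hxz : k s x * L - sh s ≤ g x z := by linarith
      congr 1
      ext w
      simp only [cl, mem_filter, mem_univ, true_and, hkz]
      constructor
      · rintro ⟨b1, b2⟩
        exact ⟨b1, hg.trans_le hxz b2⟩
      · rintro ⟨b1, b2⟩
        exact ⟨b1, hg.trans_le (by rw [hg.symm]; exact hxz) b2⟩
    have a1 := hk1 false x
    have a2 := hk2 false x
    have e0 : sh false = 0 := by simp [sh]
    have e1 : sh true = L / 2 := by simp [sh]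
    by_cases c1 : k false x * L - sh false + L / 4 ≤ g x x
    · by_cases c2 : g x x + L / 4 < k false x * L - sh false + L
      · exact ⟨false, key false c1 c2⟩
      · rw [e0] at a1 a2 c1 c2
        have hk : k true x = k false x + 1 := by
          change ⌊(g x x + sh true) / L⌋ = _
          rw [Int.floor_eq_iff, le_div_iff₀ hL, div_lt_iff₀ hL, e1]
          push_cast
          constructor <;> linarith
        refine ⟨true, key true ?_ ?_⟩ <;> rw [hk, e1] <;> push_cast <;> linarith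
    · rw [e0] at a1 a2 c1
      have hk : k true x = k false x := by
        change ⌊(g x x + sh true) / L⌋ = _
        rw [Int.floor_eq_iff, le_div_iff₀ hL, div_lt_iff₀ hL, e1]
        constructor <;> linarith
      refine ⟨true, key true ?_ ?_⟩ <;> rw [hk, e1] <;> linarith

end Pool.Agent.Lib.MP_2c27be_co
end

-- part Pool.Agent.Lib.MP_2c27be_co.Seq
section

/-!
Elementary lemmas on finite sequences of edge lengths.
-/

namespace Pool.Agent.Lib.MP_2c27be_co

open Finset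

/-- Length of the part of a path between two positions. -/
def seg (l : ℕ → ℝ) (i k : ℕ) : ℝ := ∑ s ∈ Ico i k, l s

open Classical in
/-- The `c`-mass of the window of `l`-length `ρ` starting at position `i`. -/
noncomputable def raw (n : ℕ) (l c : ℕ → ℝ) (ρ : ℝ) (i : ℕ) : ℝ :=
  ∑ s ∈ Ico i n, if seg l i (s + 1) ≤ ρ then c s else 0

lemma seg_nonneg {l : ℕ → ℝ} (hl : ∀ s, 0 ≤ l s) (i k : ℕ) : 0 ≤ seg l i k :=
  sum_nonneg fun s _ => hl s

lemma seg_add (l : ℕ → ℝ) {i j k : ℕ} (h1 : i ≤ j) (h2 : j ≤ k) :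
    seg l i k = seg l i j + seg l j k := (sum_Ico_consecutive l h1 h2).symm

lemma seg_zero (l : ℕ → ℝ) (k : ℕ) : seg l 0 k = ∑ s ∈ range k, l s := by
  rw [seg, range_eq_Ico]

lemma seg_succ (l : ℕ → ℝ) (i : ℕ) : seg l i (i + 1) = l i := by simp [seg]

lemma seg_mono {l : ℕ → ℝ} (hl : ∀ s, 0 ≤ l s) {i j k m : ℕ} (h1 : i ≤ j) (h2 : k ≤ m) :
    seg l j k ≤ seg l i m :=
  sum_le_sum_of_subset_of_nonneg (Ico_subset_Ico h1 h2) fun s _ _ => hl s

lemma seg_congr {l l' : ℕ → ℝ} {i : ℕ} (h : ∀ s, i ≤ s → l s = l' s) (k : ℕ) :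
    seg l i k = seg l' i k := sum_congr rfl fun s hs => h s (mem_Ico.1 hs).1

lemma raw_congr {l l' c c' : ℕ → ℝ} {i : ℕ} (h : ∀ s, i ≤ s → l s = l' s)
    (h' : ∀ s, i ≤ s → c s = c' s) (n : ℕ) (ρ : ℝ) : raw n l c ρ i = raw n l' c' ρ i := by
  refine sum_congr rfl fun s hs => ?_
  rw [seg_congr h, h' s (mem_Ico.1 hs).1]

lemma raw_nonneg {l c : ℕ → ℝ} (hc : ∀ s, 0 ≤ c s) (n : ℕ) (ρ : ℝ) (i : ℕ) :
    0 ≤ raw n l c ρ i := by
  refine sum_nonneg fun s _ => ?_
  split_ifs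
  · exact hc s
  · exact le_rfl

lemma raw_self_le {l : ℕ → ℝ} (hl : ∀ s, 0 ≤ l s) {ρ : ℝ} (hρ : 0 ≤ ρ) (n i : ℕ) :
    raw n l l ρ i ≤ ρ := by
  induction n with
  | zero => simp [raw, hρ]
  | succ n ih =>
    by_cases h : i ≤ n
    · by_cases h1 : seg l i (n + 1) ≤ ρ
      · refine le_trans ?_ h1
        refine sum_le_sum fun s _ => ?_
        split_ifs
        · exact le_rfl
        · exact hl s
      · unfold raw at ih ⊢
        rw [sum_Ico_succ_top h, if_neg h1, add_zero]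
        exact ih
    · unfold raw
      rw [Ico_eq_empty (by omega), sum_empty]
      exact hρ

lemma raw_exp_le {ι : Type} [Fintype ι] {p : ι → ℝ} {l : ℕ → ℝ} {c : ι → ℕ → ℝ} {D : ℝ}
    (hl : ∀ s, 0 ≤ l s) (hD : 0 ≤ D) (hc : ∀ s, ∑ ω, p ω * c ω s ≤ D * l s) {ρ : ℝ} (hρ : 0 ≤ ρ)
    (n i : ℕ) : ∑ ω, p ω * raw n l (c ω) ρ i ≤ D * ρ := by
  refine le_trans ?_ (mul_le_mul_of_nonneg_left (raw_self_le hl hρ n i) hD)
  simp only [raw, mul_sum]
  rw [sum_comm]
  refine sum_le_sum fun s _ => ?_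
  split_ifs
  · exact hc s
  · simp

lemma raw_le_double {l c : ℕ → ℝ} (hc : ∀ s, 0 ≤ c s) (n : ℕ) {ρ : ℝ} {i : ℕ}
    (h : seg l 0 i ≤ ρ) : raw n l c ρ i ≤ raw n l c (2 * ρ) 0 := by
  unfold raw
  refine le_trans (sum_le_sum fun s hs => ?_)
    (sum_le_sum_of_subset_of_nonneg (Ico_subset_Ico (Nat.zero_le i) le_rfl) fun s _ _ => ?_)
  · have := seg_add l (Nat.zero_le i) (show i ≤ s + 1 by have := (mem_Ico.1 hs).1; omega)
    split_ifs with h1 h2 h2
    · exact le_rfl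
    · exact (h2 (by linarith)).elim
    · exact hc s
    · exact le_rfl
  · split_ifs
    · exact hc s
    · exact le_rfl

lemma raw_le_add {l c : ℕ → ℝ} (hl : ∀ s, 0 ≤ l s) (hc : ∀ s, 0 ≤ c s) {n : ℕ} (ρ : ℝ) {i : ℕ}
    (hi : i ≤ n) : raw n l c ρ 0 ≤ seg c 0 i + raw n l c ρ i := by
  unfold raw
  rw [← sum_Ico_consecutive _ (Nat.zero_le i) hi]
  refine add_le_add (sum_le_sum fun s _ => ?_) (sum_le_sum fun s _ => ?_)
  · split_ifs
    · exact le_rfl
    · exact hc s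
  · have := seg_mono hl (Nat.zero_le i) (le_refl (s + 1))
    split_ifs with h1 h2 h2
    · exact le_rfl
    · exact (h2 (by linarith)).elim
    · exact hc s
    · exact le_rfl

open Classical in
/-- A covering argument. -/
lemma rising {l c : ℕ → ℝ} (hl : ∀ s, 0 ≤ l s) (hc : ∀ s, 0 ≤ c s) {n i : ℕ} (hi : i ≤ n)
    {κ Δ : ℝ} (hκ : 0 ≤ κ) (hΔ : 0 ≤ Δ) (good : ℕ → Prop)
    (hg : ∀ s, good s → ∃ δ ≤ Δ, l s ≤ δ ∧ raw n l c δ s ≤ κ * δ) :
    ∑ s ∈ range i, (if good s then c s else 0) ≤ κ * (2 * seg l 0 i + Δ) := by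
  have key : ∀ k a, a + k = i → ∑ s ∈ Ico a i, (if good s then c s else 0) ≤
      κ * (seg l a i + seg l (a + 1) i + Δ) := by
    intro k
    induction k using Nat.strong_induction_on with
    | _ k ih =>
      intro a ha
      have p1 := seg_nonneg hl a i
      have p2 := seg_nonneg hl (a + 1) i
      rcases Nat.eq_zero_or_pos k with rfl | hk
      · rw [Ico_eq_empty (by omega), sum_empty]
        positivity
      by_cases hga : good a
      · obtain ⟨δ, hδ, h1, h2⟩ := hg a hga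
        have cover : ∀ a', a ≤ a' → a' ≤ i → (∀ s, a ≤ s → s < a' → seg l a (s + 1) ≤ δ) →
            ∑ s ∈ Ico a a', (if good s then c s else 0) ≤ κ * δ := by
          intro a' _ h4 h5
          refine le_trans ?_ h2
          unfold raw
          refine le_trans (sum_le_sum fun s hs => ?_)
            (sum_le_sum_of_subset_of_nonneg (Ico_subset_Ico le_rfl (h4.trans hi)) fun s _ _ => ?_)
          · rw [if_pos (h5 s (mem_Ico.1 hs).1 (mem_Ico.1 hs).2)]
            split_ifs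
            · exact le_rfl
            · exact hc s
          · split_ifs
            · exact hc s
            · exact le_rfl
        by_cases hex : ∃ s, a ≤ s ∧ s < i ∧ δ < seg l a (s + 1)
        · let a' := Nat.find hex
          obtain ⟨b1, b2, b3⟩ : a ≤ a' ∧ a' < i ∧ δ < seg l a (a' + 1) := Nat.find_spec hex
          have b4 : a ≠ a' := by
            intro e
            rw [← e, seg_succ] at b3
            linarith
          have b5 := cover a' b1 b2.le (fun s hs hs' => by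
            by_contra h
            exact Nat.find_min hex hs' ⟨hs, hs'.trans b2, not_le.1 h⟩)
          have b6 := ih (i - a') (by omega) a' (by omega)
          rw [← sum_Ico_consecutive _ b1 b2.le]
          have b7 := seg_add l (show a ≤ a' + 1 by omega) (show a' + 1 ≤ i by omega)
          have b8 := seg_mono hl (show a + 1 ≤ a' by omega) (le_refl i)
          have b9 : κ * (δ + (seg l a' i + seg l (a' + 1) i + Δ)) ≤
              κ * (seg l a i + seg l (a + 1) i + Δ) :=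
            mul_le_mul_of_nonneg_left (by linarith) hκ
          linarith
        · have b5 := cover i (by omega) le_rfl (fun s hs hs' => by
            by_contra h
            exact hex ⟨s, hs, hs', not_le.1 h⟩)
          exact b5.trans (mul_le_mul_of_nonneg_left (by linarith) hκ)
      · rw [sum_eq_sum_Ico_succ_bot (by omega), if_neg hga, zero_add]
        have b6 := ih (k - 1) (by omega) (a + 1) (by omega)
        have b7 := seg_mono hl (Nat.le_succ a) (le_refl i)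
        have b8 := seg_mono hl (Nat.le_succ (a + 1)) (le_refl i)
        exact b6.trans (mul_le_mul_of_nonneg_left (by linarith) hκ)
  have := key i 0 (by omega)
  rw [range_eq_Ico]
  have b7 := seg_mono hl (Nat.le_succ 0) (le_refl i)
  exact this.trans (mul_le_mul_of_nonneg_left (by linarith) hκ)

/-- The clamp of `s - 1` to the unit interval. -/
def cl (s : ℝ) : ℝ := max (s - 1) 0 - max (s - 2) 0

lemma cl_mono {s s' : ℝ} (h : s ≤ s') : cl s ≤ cl s' := by
  simp only [cl, max_def]; split_ifs <;> linarith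

lemma cl_of_two_le {s : ℝ} (h : 2 ≤ s) : cl s = 1 := by
  simp only [cl, max_def]; split_ifs <;> linarith

lemma cl_of_le_one {s : ℝ} (h : s ≤ 1) : cl s = 0 := by
  simp only [cl, max_def]; split_ifs <;> linarith

lemma cl_nonneg (s : ℝ) : 0 ≤ cl s := by
  simp only [cl, max_def]; split_ifs <;> linarith

lemma cl_le_one (s : ℝ) : cl s ≤ 1 := by
  simp only [cl, max_def]; split_ifs <;> linarith

lemma cl_le_self {s : ℝ} (h : 0 ≤ s) : cl s ≤ s := by
  simp only [cl, max_def]; split_ifs <;> linarith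

lemma cl_lip (s s' : ℝ) : |cl s - cl s'| ≤ |s - s'| := by
  rcases le_total s s' with h | h
  · have := cl_mono h
    rw [abs_of_nonpos (by linarith), abs_of_nonpos (by linarith)]
    simp only [cl, max_def]; split_ifs <;> linarith
  · have := cl_mono h
    rw [abs_of_nonneg (by linarith), abs_of_nonneg (by linarith)]
    simp only [cl, max_def]; split_ifs <;> linarith

lemma max_incr {s s' δ : ℝ} (c : ℝ) (h : s ≤ s') (hδ : 0 ≤ δ) :
    max (s + δ - c) 0 - max (s - c) 0 ≤ max (s' + δ - c) 0 - max (s' - c) 0 := by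
  simp only [max_def]; split_ifs <;> linarith

lemma max_incr_bd (s c : ℝ) {δ : ℝ} (hδ : 0 ≤ δ) :
    0 ≤ max (s + δ - c) 0 - max (s - c) 0 ∧ max (s + δ - c) 0 - max (s - c) 0 ≤ δ := by
  simp only [max_def]; split_ifs <;> constructor <;> linarith

/-- The stopping weights. -/
def wt (σ : ℕ → ℝ) (i : ℕ) : ℝ := cl (seg σ 0 (i + 1)) - cl (seg σ 0 i)

lemma wt_nonneg {σ : ℕ → ℝ} (h : ∀ s, 0 ≤ σ s) (i : ℕ) : 0 ≤ wt σ i :=
  sub_nonneg.2 (cl_mono (seg_mono h le_rfl (Nat.le_succ i)))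

lemma sum_wt (σ : ℕ → ℝ) (k : ℕ) : ∑ i ∈ range k, wt σ i = cl (seg σ 0 k) := by
  unfold wt
  rw [sum_range_sub (fun i => cl (seg σ 0 i)), cl_of_le_one (s := seg σ 0 0) (by simp [seg])]
  ring

lemma sum_wt_one {σ : ℕ → ℝ} (h : ∀ s, 0 ≤ σ s) {n : ℕ} (hn : 2 ≤ σ n) :
    ∑ i ∈ range (n + 1), wt σ i = 1 := by
  rw [sum_wt]
  apply cl_of_two_le
  have := seg_mono h (Nat.zero_le n) (le_refl (n + 1))
  rw [seg_succ] at this
  linarith

lemma seg_lt_of_wt {σ : ℕ → ℝ} (h : ∀ s, 0 ≤ σ s) {i : ℕ} (hi : wt σ i ≠ 0) : seg σ 0 i ≤ 2 := by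
  by_contra h1
  apply hi
  have := seg_mono h (le_refl 0) (Nat.le_succ i)
  rw [wt, cl_of_two_le (by linarith), cl_of_two_le (by linarith), sub_self]

lemma wt_shift {σ σ' : ℕ → ℝ} (h' : ∀ s, 0 ≤ σ' s) {i0 : ℕ}
    (he : ∀ s, i0 ≤ s → σ s = σ' s) (hle : seg σ' 0 i0 ≤ seg σ 0 i0) {k : ℕ} (hk : i0 ≤ k) :
    ∑ i ∈ Ico i0 k, |wt σ i - wt σ' i| ≤ 2 * (seg σ 0 i0 - seg σ' 0 i0) := by
  set δ := seg σ 0 i0 - seg σ' 0 i0 with hδ
  have hδ0 : 0 ≤ δ := by linarith
  have e : ∀ i, i0 ≤ i → seg σ 0 i = seg σ' 0 i + δ := by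
    intro i hi
    rw [seg_add σ (Nat.zero_le _) hi, seg_add σ' (Nat.zero_le _) hi, seg_congr he]
    linarith
  let V : ℕ → ℝ := fun i => (max (seg σ' 0 i + δ - 1) 0 - max (seg σ' 0 i - 1) 0) +
    (max (seg σ' 0 i + δ - 2) 0 - max (seg σ' 0 i - 2) 0)
  have h1 : ∀ i ∈ Ico i0 k, |wt σ i - wt σ' i| ≤ V (i + 1) - V i := by
    intro i hi
    have hi' := (mem_Ico.1 hi).1
    have m := seg_mono h' (le_refl 0) (Nat.le_succ i)
    have a1 := max_incr 1 m hδ0
    have a2 := max_incr 2 m hδ0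
    simp only [wt, cl, V, e i hi', e (i + 1) (by omega)]
    rw [abs_le]
    constructor <;> linarith
  refine (sum_le_sum h1).trans ?_
  rw [sum_Ico_sub V hk]
  have a1 := max_incr_bd (seg σ' 0 k) 1 hδ0
  have a2 := max_incr_bd (seg σ' 0 k) 2 hδ0
  have a3 := max_incr_bd (seg σ' 0 i0) 1 hδ0
  have a4 := max_incr_bd (seg σ' 0 i0) 2 hδ0
  simp only [V]
  linarith [a1.2, a2.2, a3.1, a4.1]

lemma wt_lip {σ σ' : ℕ → ℝ} (h : ∀ s, 0 ≤ σ s) (h' : ∀ s, 0 ≤ σ' s) {i0 k : ℕ}
    (he : ∀ s, i0 ≤ s → σ s = σ' s) (hk : i0 ≤ k) {φ φ' : ℕ → ℝ} (hφ : ∀ i, |φ i| ≤ 1)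
    (hφ' : ∀ i, |φ' i| ≤ 1) (hφe : ∀ i, i0 ≤ i → φ i = φ' i) :
    |∑ i ∈ range k, wt σ i * φ i - ∑ i ∈ range k, wt σ' i * φ' i| ≤
      3 * min 1 (seg σ 0 i0 + seg σ' 0 i0) := by
  have bd : ∀ (σ φ : ℕ → ℝ), (∀ s, 0 ≤ σ s) → (∀ i, |φ i| ≤ 1) → ∀ k,
      |∑ i ∈ range k, wt σ i * φ i| ≤ cl (seg σ 0 k) := by
    intro σ φ h hφ k
    rw [← sum_wt]
    refine (abs_sum_le_sum_abs _ _).trans (sum_le_sum fun i _ => ?_)
    rw [abs_mul, abs_of_nonneg (wt_nonneg h i)]
    exact mul_le_of_le_one_right (wt_nonneg h i) (hφ i)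
  have p1 := seg_nonneg h 0 i0
  have p2 := seg_nonneg h' 0 i0
  rw [mul_min_of_nonneg _ _ (by norm_num : (0 : ℝ) ≤ 3)]
  apply le_min
  · have a1 := abs_le.1 ((bd σ φ h hφ k).trans (cl_le_one _))
    have a2 := abs_le.1 ((bd σ' φ' h' hφ' k).trans (cl_le_one _))
    rw [abs_le]
    constructor <;> linarith [a1.1, a1.2, a2.1, a2.2]
  · rw [← sum_range_add_sum_Ico _ hk, ← sum_range_add_sum_Ico (fun i => wt σ' i * φ' i) hk]
    have a1 := abs_le.1 ((bd σ φ h hφ i0).trans (cl_le_self p1))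
    have a2 := abs_le.1 ((bd σ' φ' h' hφ' i0).trans (cl_le_self p2))
    have a3 : ∑ i ∈ Ico i0 k, |wt σ i - wt σ' i| ≤ 2 * (seg σ 0 i0 + seg σ' 0 i0) := by
      rcases le_total (seg σ' 0 i0) (seg σ 0 i0) with h1 | h1
      · have := wt_shift h' he h1 hk
        linarith
      · have := wt_shift h (fun s hs => (he s hs).symm) h1 hk
        simp only [abs_sub_comm (wt σ' _)] at this
        linarith
    have a4 : |∑ i ∈ Ico i0 k, wt σ i * φ i - ∑ i ∈ Ico i0 k, wt σ' i * φ' i| ≤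
        ∑ i ∈ Ico i0 k, |wt σ i - wt σ' i| := by
      rw [← sum_sub_distrib]
      refine (abs_sum_le_sum_abs _ _).trans (sum_le_sum fun i hi => ?_)
      rw [hφe i (mem_Ico.1 hi).1, ← sub_mul, abs_mul]
      exact mul_le_of_le_one_right (abs_nonneg _) (hφ' i)
    have a5 := abs_le.1 (a4.trans a3)
    rw [abs_le]
    constructor <;> linarith [a1.1, a1.2, a2.1, a2.2, a5.1, a5.2]

lemma card_le_of_window (S : Finset ℕ) (L : ℕ) (h : ∀ j ∈ S, ∀ j' ∈ S, j' < j + L) :
    S.card ≤ L := by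
  rcases S.eq_empty_or_nonempty with rfl | hS
  · simp
  · have : S ⊆ Ico (S.min' hS) (S.min' hS + L) := fun j hj =>
      mem_Ico.2 ⟨min'_le _ _ hj, h _ (min'_mem _ _) _ hj⟩
    simpa using card_le_card this

open Classical in
lemma sum_ite_window (P : ℕ → Prop) (M L : ℕ) (h : ∀ j j', P j → P j' → j' < j + L) {c : ℝ}
    (hc : 0 ≤ c) : ∑ j ∈ range M, (if P j then c else 0) ≤ L * c := by
  rw [← sum_filter, sum_const, nsmul_eq_mul]
  apply mul_le_mul_of_nonneg_right _ hc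
  exact_mod_cast card_le_of_window _ L fun j hj j' hj' =>
    h j j' (mem_filter.1 hj).2 (mem_filter.1 hj').2

open Classical in
lemma sum_geo_le {δ : ℝ} (hδ : 0 < δ) {a : ℝ} (ha : 0 ≤ a) (M : ℕ) :
    ∑ j ∈ range M, (if δ * 2 ^ j ≤ a then δ * 2 ^ j else 0) ≤ 2 * a := by
  have : ∑ j ∈ range M, (if δ * 2 ^ j ≤ a then δ * 2 ^ j else 0) ≤ δ * 2 ^ M ∧
      ∑ j ∈ range M, (if δ * 2 ^ j ≤ a then δ * 2 ^ j else 0) ≤ 2 * a := by
    induction M with
    | zero => simp [hδ.le, ha]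
    | succ M ih =>
      rw [sum_range_succ, pow_succ]
      have : 0 < δ * 2 ^ M := by positivity
      split_ifs with h
      · constructor <;> linarith [ih.1]
      · constructor <;> linarith [ih.1, ih.2]
  exact this.2

open Classical in
lemma sum_scales_le {δ : ℝ} (hδ : 0 < δ) {a N : ℝ} (ha : 0 ≤ a) {L : ℕ} (hN : N ≤ 2 ^ L)
    (M : ℕ) :
    ∑ j ∈ range M, (if δ * 2 ^ j < N * a then min (δ * 2 ^ j) a else 0) ≤ (L + 2) * a := by
  have h1 := sum_geo_le hδ ha M
  have h2 := sum_ite_window (fun j => a < δ * 2 ^ j ∧ δ * 2 ^ j < N * a) M L (by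
    intro j j' hj hj'
    have : δ * 2 ^ j' < δ * 2 ^ (j + L) := by
      calc δ * 2 ^ j' < N * a := hj'.2
        _ ≤ 2 ^ L * a := mul_le_mul_of_nonneg_right hN ha
        _ ≤ 2 ^ L * (δ * 2 ^ j) := mul_le_mul_of_nonneg_left hj.1.le (by positivity)
        _ = δ * 2 ^ (j + L) := by ring
    exact (pow_lt_pow_iff_right₀ (by norm_num : (1 : ℝ) < 2)).1 (lt_of_mul_lt_mul_left this hδ.le))
    ha
  have h3 := add_le_add h1 h2
  rw [← sum_add_distrib] at h3
  refine le_trans (sum_le_sum fun j _ => ?_) (h3.trans (le_of_eq (by ring)))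
  have : 0 < δ * 2 ^ j := by positivity
  by_cases c1 : δ * 2 ^ j ≤ a
  · have c3 : ¬ (a < δ * 2 ^ j ∧ δ * 2 ^ j < N * a) := fun h => absurd h.1 (not_lt.2 c1)
    rw [if_pos c1, if_neg c3, min_eq_left c1]
    split_ifs <;> linarith
  · rw [if_neg c1, min_eq_right (not_le.1 c1).le]
    by_cases c2 : δ * 2 ^ j < N * a
    · rw [if_pos c2, if_pos ⟨not_le.1 c1, c2⟩]; linarith
    · rw [if_neg c2, if_neg (fun h => c2 h.2)]; linarith

end Pool.Agent.Lib.MP_2c27be_co
end

-- part Pool.Agent.Lib.MP_2c27be_co.Kernel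
section

/-!
Smoothing kernels at all scales, adapted to a random tree.
-/

namespace Pool.Agent.Lib.MP_2c27be_co

open Finset

lemma markov {ι : Type} [Fintype ι] {p φ : ι → ℝ} (hp : ∀ ω, 0 ≤ p ω) (hφ : ∀ ω, 0 ≤ φ ω)
    {a : ℝ} (ha : 0 < a) [∀ ω, Decidable (a < φ ω)] :
    ∑ ω, p ω * (if a < φ ω then 1 else 0) ≤ (∑ ω, p ω * φ ω) / a := by
  rw [sum_div]
  refine sum_le_sum fun ω _ => ?_
  rw [mul_div_assoc]
  apply mul_le_mul_of_nonneg_left _ (hp ω)
  split_ifs with h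
  · rw [le_div_iff₀ ha]; linarith
  · exact div_nonneg (hφ ω) ha.le

lemma min_sum_le {s : Finset ℕ} {f : ℕ → ℝ} (hf : ∀ i, 0 ≤ f i) {a B : ℝ} (ha : 0 ≤ a)
    (hB : 0 ≤ B) : min a (∑ i ∈ s, f i + B) ≤ ∑ i ∈ s, min a (f i) + B := by
  by_cases h : ∃ i ∈ s, a ≤ f i
  · obtain ⟨i, hi, h⟩ := h
    have := single_le_sum (f := fun i => min a (f i)) (fun i _ => le_min ha (hf i)) hi
    simp only [min_eq_left h] at this
    linarith [min_le_left a (∑ i ∈ s, f i + B)]
  · push Not at h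
    rw [sum_congr rfl fun i hi => min_eq_right (h i hi).le]
    exact min_le_right _ _

/-- The data of the construction. -/
structure Setup (X ι : Type) [Fintype ι] where
  d : X → X → ℝ
  p : ι → ℝ
  t : ι → X → X → ℝ
  u : ι → X → ℕ → X
  i0 : ι → X → X → ℕ
  D : ℝ
  δ : ℝ
  κ : ℝ
  m : ℝ
  n : ℕ
  W : ℕ
  J : ℕ
  L : ℕ
  d_nonneg : ∀ x y, 0 ≤ d x y
  p_nonneg : ∀ ω, 0 ≤ p ω
  p_sum : ∑ ω, p ω = 1
  tree : ∀ ω, IsTree (t ω)
  dom : ∀ ω x y, d x y ≤ t ω x y
  exp : ∀ x y, ∑ ω, p ω * t ω x y ≤ D * d x y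
  D_ge : 1 ≤ D
  δ_pos : 0 < δ
  κ_ge : 6 * D ≤ κ
  m_pos : 0 < m
  n_pos : 0 < n
  J_ge : 2 ≤ J
  m_le : m ≤ 2 ^ J
  n_le : (n : ℝ) ≤ 2 ^ L
  u_zero : ∀ α x, u α x 0 = x
  i0_le : ∀ α x y, i0 α x y ≤ n
  merge : ∀ α x y i, i0 α x y ≤ i → u α x i = u α y i
  len : ∀ α x y, ∑ l ∈ range (i0 α x y),
    (t α (u α x l) (u α x (l + 1)) + t α (u α y l) (u α y (l + 1))) ≤ 8 * t α x y

/-- Edge lengths along a path. -/
def el {X : Type} (e : X → X → ℝ) (v : ℕ → X) (l : ℕ) : ℝ := e (v l) (v (l + 1))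

lemma el_congr {X : Type} (e : X → X → ℝ) {v v' : ℕ → X} {i : ℕ} (h : ∀ s, i ≤ s → v s = v' s)
    (s : ℕ) (hs : i ≤ s) : el e v s = el e v' s := by
  rw [el, el, h s hs, h (s + 1) (by omega)]

lemma IsTree.le_seg {X : Type} {t : X → X → ℝ} (ht : IsTree t) (v : ℕ → X) (i : ℕ) :
    t (v 0) (v i) ≤ seg (el t v) 0 i := by
  induction i with
  | zero => simp [seg, ht.zero]
  | succ i ih =>
    rw [seg_add _ (Nat.zero_le i) (Nat.le_succ i), seg_succ, el]
    linarith [ht.tri (v 0) (v i) (v (i + 1))]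

namespace Setup

variable {X ι : Type} [Fintype ι] (S : Setup X ι)

/-- The scales. -/
noncomputable def Δ (j : ℕ) : ℝ := S.δ * 2 ^ j

lemma Δ_pos (j : ℕ) : 0 < S.Δ j := by
  have := S.δ_pos
  unfold Δ; positivity

lemma Δ_add (j k : ℕ) : S.Δ (j + k) = 2 ^ k * S.Δ j := by
  unfold Δ; ring

lemma Δ_succ (j : ℕ) : S.Δ (j + 1) = 2 * S.Δ j := by
  unfold Δ; ring

lemma Δ_mono {j k : ℕ} (h : j ≤ k) : S.Δ j ≤ S.Δ k :=
  mul_le_mul_of_nonneg_left (pow_le_pow_right₀ (by norm_num) h) S.δ_pos.le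

lemma κ_pos : 0 < S.κ := by linarith [S.κ_ge, S.D_ge]

lemma D_pos : 0 < S.D := by linarith [S.D_ge]

lemma eld_nonneg (v : ℕ → X) (l : ℕ) : 0 ≤ el S.d v l := S.d_nonneg _ _

lemma elt_nonneg (ω : ι) (v : ℕ → X) (l : ℕ) : 0 ≤ el (S.t ω) v l := (S.tree ω).nonneg _ _

lemma elt_exp (v : ℕ → X) (l : ℕ) : ∑ ω, S.p ω * el (S.t ω) v l ≤ S.D * el S.d v l := S.exp _ _

/-- The window mass. -/
noncomputable def rw (ω : ι) (v : ℕ → X) (ρ : ℝ) (l : ℕ) : ℝ :=
  raw S.n (el S.d v) (el (S.t ω) v) ρ l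

lemma rw_congr (ω : ι) {v v' : ℕ → X} {i : ℕ} (h : ∀ s, i ≤ s → v s = v' s) (ρ : ℝ) :
    S.rw ω v ρ i = S.rw ω v' ρ i :=
  raw_congr (el_congr _ h) (el_congr _ h) _ _

/-- An edge that is clean at some level up to `j`. -/
def good (ω : ι) (v : ℕ → X) (j l : ℕ) : Prop :=
  ∃ k ≤ j, el S.d v l ≤ S.Δ k ∧ S.rw ω v (S.Δ k) l ≤ S.κ * S.Δ k

lemma good_congr (ω : ι) {v v' : ℕ → X} {i : ℕ} (h : ∀ s, i ≤ s → v s = v' s) (j : ℕ) :
    S.good ω v j i ↔ S.good ω v' j i := by
  simp only [good, S.rw_congr ω h, el_congr S.d h i le_rfl]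

open Classical in
/-- The counted mass. -/
noncomputable def cm (ω : ι) (v : ℕ → X) (j l : ℕ) : ℝ :=
  if ¬ S.good ω v j l ∧ S.good ω v (j + (S.W + S.J)) l then el (S.t ω) v l else 0

lemma cm_nonneg (ω : ι) (v : ℕ → X) (j l : ℕ) : 0 ≤ S.cm ω v j l := by
  unfold cm
  split_ifs
  · exact S.elt_nonneg _ _ _
  · exact le_rfl

lemma cm_le (ω : ι) (v : ℕ → X) (j l : ℕ) : S.cm ω v j l ≤ el (S.t ω) v l := by
  unfold cm
  split_ifs
  · exact le_rfl
  · exact S.elt_nonneg _ _ _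

lemma cm_congr (ω : ι) {v v' : ℕ → X} {i : ℕ} (h : ∀ s, i ≤ s → v s = v' s) (j : ℕ) :
    S.cm ω v j i = S.cm ω v' j i := by
  classical
  unfold cm
  rw [el_congr (S.t ω) h i le_rfl]
  exact if_congr (by rw [S.good_congr ω h, S.good_congr ω h]) rfl rfl

lemma sum_cm_le (ω : ι) (v : ℕ → X) (l M : ℕ) :
    ∑ j ∈ range M, S.cm ω v j l ≤ (S.W + S.J : ℕ) * el (S.t ω) v l := by
  have := sum_ite_window (fun j => ¬ S.good ω v j l ∧ S.good ω v (j + (S.W + S.J)) l) M
    (S.W + S.J) (by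
      intro j j' hj hj'
      by_contra h
      obtain ⟨k, hk, h2⟩ := hj.2
      exact hj'.1 ⟨k, by omega, h2⟩) (S.elt_nonneg ω v l)
  refine le_trans (sum_le_sum fun j _ => le_of_eq ?_) this
  unfold cm
  congr

/-- The expected counted mass. -/
noncomputable def q (v : ℕ → X) (j l : ℕ) : ℝ := ∑ ω, S.p ω * S.cm ω v j l

lemma q_nonneg (v : ℕ → X) (j l : ℕ) : 0 ≤ S.q v j l :=
  sum_nonneg fun ω _ => mul_nonneg (S.p_nonneg ω) (S.cm_nonneg _ _ _ _)

lemma q_le (v : ℕ → X) (j l : ℕ) : S.q v j l ≤ S.D * el S.d v l :=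
  le_trans (sum_le_sum fun ω _ => mul_le_mul_of_nonneg_left (S.cm_le _ _ _ _) (S.p_nonneg ω))
    (S.elt_exp v l)

lemma sum_q_le (v : ℕ → X) (l M : ℕ) :
    ∑ j ∈ range M, S.q v j l ≤ (S.W + S.J : ℕ) * (S.D * el S.d v l) := by
  unfold q
  rw [sum_comm]
  refine le_trans ?_ (mul_le_mul_of_nonneg_left (S.elt_exp v l) (Nat.cast_nonneg _))
  rw [mul_sum]
  refine sum_le_sum fun ω _ => ?_
  rw [← mul_sum, mul_left_comm]
  exact mul_le_mul_of_nonneg_left (S.sum_cm_le ω v l M) (S.p_nonneg ω)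

open Classical in
/-- Edges that are not contracted. -/
noncomputable def big (v : ℕ → X) (j l : ℕ) : ℝ :=
  if S.Δ j < S.n * el S.d v l then el S.d v l else 0

lemma big_nonneg (v : ℕ → X) (j l : ℕ) : 0 ≤ S.big v j l := by
  unfold big
  split_ifs
  · exact S.eld_nonneg _ _
  · exact le_rfl

lemma big_le (v : ℕ → X) (j l : ℕ) : S.big v j l ≤ el S.d v l := by
  unfold big
  split_ifs
  · exact le_rfl
  · exact S.eld_nonneg _ _

lemma sum_big_le (v : ℕ → X) (l M : ℕ) :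
    ∑ j ∈ range M, min (S.Δ j) (S.big v j l) ≤ (S.L + 2) * el S.d v l := by
  refine le_trans (sum_le_sum fun j _ => le_of_eq ?_)
    (sum_scales_le S.δ_pos (S.eld_nonneg v l) S.n_le M)
  unfold big
  change _ = if S.Δ j < _ then min (S.Δ j) _ else 0
  split_ifs
  · rfl
  · exact min_eq_right (S.Δ_pos j).le

/-- The stopping density. -/
noncomputable def σ (v : ℕ → X) (j l : ℕ) : ℝ :=
  if l < S.n then (S.big v j l + S.m * S.q v j l) / S.Δ j else 2

lemma σ_nonneg (v : ℕ → X) (j l : ℕ) : 0 ≤ S.σ v j l := by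
  unfold σ
  have := S.big_nonneg v j l
  have := S.q_nonneg v j l
  have := S.m_pos
  have := S.Δ_pos j
  split_ifs <;> positivity

lemma σ_congr {v v' : ℕ → X} {i : ℕ} (h : ∀ s, i ≤ s → v s = v' s) (j : ℕ) :
    S.σ v j i = S.σ v' j i := by
  simp only [σ, big, q, S.cm_congr _ h, el_congr S.d h i le_rfl]

lemma seg_σ (v : ℕ → X) (j : ℕ) {i : ℕ} (hi : i ≤ S.n) :
    S.Δ j * seg (S.σ v j) 0 i = ∑ l ∈ range i, S.big v j l + S.m * ∑ l ∈ range i, S.q v j l := by
  rw [seg_zero, mul_sum, mul_sum, ← sum_add_distrib]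
  refine sum_congr rfl fun l hl => ?_
  rw [σ, if_pos (by have := mem_range.1 hl; omega), mul_div_cancel₀ _ (S.Δ_pos j).ne']

lemma supp_len (v : ℕ → X) (j : ℕ) {i : ℕ} (hi : i ≤ S.n) (hw : wt (S.σ v j) i ≠ 0) :
    seg (el S.d v) 0 i ≤ 3 * S.Δ j := by
  have h1 := seg_lt_of_wt (S.σ_nonneg v j) hw
  have h2 := S.seg_σ v j hi
  have h3 : 0 ≤ S.m * ∑ l ∈ range i, S.q v j l :=
    mul_nonneg S.m_pos.le (sum_nonneg fun l _ => S.q_nonneg _ _ _)
  have h4 := mul_le_mul_of_nonneg_left h1 (S.Δ_pos j).le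
  have hn : (0 : ℝ) < S.n := by exact_mod_cast S.n_pos
  have h5 : ∀ l ∈ range i, el S.d v l ≤ S.big v j l + S.Δ j / S.n := by
    intro l _
    unfold big
    split_ifs with h
    · have := div_pos (S.Δ_pos j) hn
      linarith
    · rw [zero_add, le_div_iff₀ hn]
      linarith
  have h6 := sum_le_sum h5
  rw [sum_add_distrib, sum_const, card_range, nsmul_eq_mul, ← seg_zero] at h6
  have h7 : (i : ℝ) * (S.Δ j / S.n) ≤ S.Δ j := by
    have : (i : ℝ) ≤ S.n := by exact_mod_cast hi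
    calc (i : ℝ) * (S.Δ j / S.n) ≤ S.n * (S.Δ j / S.n) :=
          mul_le_mul_of_nonneg_right this (div_pos (S.Δ_pos j) hn).le
      _ = S.Δ j := by field_simp
  linarith

lemma supp_q (v : ℕ → X) (j : ℕ) {i : ℕ} (hi : i ≤ S.n) (hw : wt (S.σ v j) i ≠ 0) :
    S.m * ∑ ω, S.p ω * seg (S.cm ω v j) 0 i ≤ 2 * S.Δ j := by
  have h1 := seg_lt_of_wt (S.σ_nonneg v j) hw
  have h2 := S.seg_σ v j hi
  have h3 : 0 ≤ ∑ l ∈ range i, S.big v j l := sum_nonneg fun l _ => S.big_nonneg _ _ _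
  have h4 := mul_le_mul_of_nonneg_left h1 (S.Δ_pos j).le
  have h5 : ∑ ω, S.p ω * seg (S.cm ω v j) 0 i = ∑ l ∈ range i, S.q v j l := by
    simp only [seg_zero, mul_sum, q]
    rw [sum_comm]
  rw [h5]
  linarith

/-- Averaging over the stopped random path. -/
noncomputable def Av (j : ℕ) (x : X) (φ : ι → ℕ → ℝ) : ℝ :=
  ∑ α, S.p α * ∑ i ∈ range (S.n + 1), wt (S.σ (S.u α x) j) i * φ α i

lemma Av_mono (j : ℕ) (x : X) {φ ψ : ι → ℕ → ℝ}
    (h : ∀ α i, i ≤ S.n → wt (S.σ (S.u α x) j) i ≠ 0 → φ α i ≤ ψ α i) :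
    S.Av j x φ ≤ S.Av j x ψ := by
  refine sum_le_sum fun α _ => mul_le_mul_of_nonneg_left (sum_le_sum fun i hi => ?_) (S.p_nonneg α)
  by_cases hw : wt (S.σ (S.u α x) j) i = 0
  · simp [hw]
  · exact mul_le_mul_of_nonneg_left (h α i (by have := mem_range.1 hi; omega) hw)
      (wt_nonneg (S.σ_nonneg _ _) i)

lemma Av_const (j : ℕ) (x : X) (c : ι → ℝ) : S.Av j x (fun α _ => c α) = ∑ α, S.p α * c α := by
  refine sum_congr rfl fun α _ => ?_
  rw [← sum_mul, sum_wt_one (S.σ_nonneg _ _) (by simp [σ]), one_mul]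

lemma Av_le (j : ℕ) (x : X) {φ : ι → ℕ → ℝ} {B : ℝ}
    (h : ∀ α i, i ≤ S.n → wt (S.σ (S.u α x) j) i ≠ 0 → φ α i ≤ B) : S.Av j x φ ≤ B := by
  refine (S.Av_mono j x (ψ := fun _ _ => B) h).trans (le_of_eq ?_)
  rw [S.Av_const j x (fun _ => B), ← sum_mul, S.p_sum, one_mul]

lemma Av_nonneg (j : ℕ) (x : X) {φ : ι → ℕ → ℝ} (h : ∀ α i, 0 ≤ φ α i) : 0 ≤ S.Av j x φ :=
  sum_nonneg fun α _ => mul_nonneg (S.p_nonneg α)
    (sum_nonneg fun i _ => mul_nonneg (wt_nonneg (S.σ_nonneg _ _) i) (h α i))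

lemma Av_add (j : ℕ) (x : X) (φ ψ : ι → ℕ → ℝ) :
    S.Av j x (fun α i => φ α i + ψ α i) = S.Av j x φ + S.Av j x ψ := by
  simp only [Av, mul_add, sum_add_distrib]

lemma Av_sum (j : ℕ) (x : X) {κ : Type} [Fintype κ] (c : κ → ℝ) (φ : κ → ι → ℕ → ℝ) :
    ∑ k, c k * S.Av j x (φ k) = S.Av j x (fun α i => ∑ k, c k * φ k α i) := by
  simp only [Av, mul_sum]
  rw [sum_comm]
  refine sum_congr rfl fun α _ => ?_
  rw [sum_comm]
  refine sum_congr rfl fun i _ => sum_congr rfl fun k _ => by ring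

/-- The modulus of continuity of the kernels. -/
noncomputable def τ (j : ℕ) (x y : X) : ℝ :=
  ∑ α, S.p α * min 1 (seg (S.σ (S.u α x) j) 0 (S.i0 α x y) + seg (S.σ (S.u α y) j) 0 (S.i0 α x y))

lemma τ_nonneg (j : ℕ) (x y : X) : 0 ≤ S.τ j x y :=
  sum_nonneg fun α _ => mul_nonneg (S.p_nonneg α) (le_min zero_le_one
    (add_nonneg (seg_nonneg (S.σ_nonneg _ _) _ _) (seg_nonneg (S.σ_nonneg _ _) _ _)))

lemma τ_le_one (j : ℕ) (x y : X) : S.τ j x y ≤ 1 := by
  rw [← S.p_sum]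
  exact sum_le_sum fun α _ => mul_le_of_le_one_right (S.p_nonneg α) (min_le_left _ _)

lemma Av_lip (j : ℕ) (x y : X) {φ φ' : ι → ℕ → ℝ} (hφ : ∀ α i, |φ α i| ≤ 1)
    (hφ' : ∀ α i, |φ' α i| ≤ 1) (he : ∀ α i, S.i0 α x y ≤ i → φ α i = φ' α i) :
    |S.Av j x φ - S.Av j y φ'| ≤ 3 * S.τ j x y := by
  unfold Av τ
  rw [← sum_sub_distrib, mul_sum]
  refine (abs_sum_le_sum_abs _ _).trans (sum_le_sum fun α _ => ?_)
  rw [← mul_sub, abs_mul, abs_of_nonneg (S.p_nonneg α), mul_left_comm]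
  apply mul_le_mul_of_nonneg_left _ (S.p_nonneg α)
  exact wt_lip (S.σ_nonneg _ _) (S.σ_nonneg _ _)
    (fun s hs => S.σ_congr (fun s' hs' => S.merge α x y s' (hs.trans hs')) j)
    ((S.i0_le α x y).trans (Nat.le_succ _)) (hφ α) (hφ' α) (he α)

open Classical in
/-- The kernels. -/
noncomputable def μ (j : ℕ) (x z : X) : ℝ :=
  S.Av j x fun α i => if S.u α x i = z then 1 else 0

lemma μ_nonneg (j : ℕ) (x z : X) : 0 ≤ S.μ j x z :=
  S.Av_nonneg j x fun α i => by split_ifs <;> norm_num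

lemma sum_μ [Fintype X] (j : ℕ) (x : X) (ψ : X → ℝ) :
    ∑ z, ψ z * S.μ j x z = S.Av j x fun α i => ψ (S.u α x i) := by
  classical
  unfold μ
  rw [S.Av_sum]
  congr 1
  funext α i
  simp

lemma sum_μ_one [Fintype X] (j : ℕ) (x : X) : ∑ z, S.μ j x z = 1 := by
  have := S.sum_μ j x (fun _ => 1)
  simp only [one_mul] at this
  rw [this, S.Av_const j x (fun _ => 1)]
  simp [S.p_sum]

lemma μ_lip [Fintype X] (j : ℕ) (x y : X) : ∑ z, |S.μ j x z - S.μ j y z| ≤ 3 * S.τ j x y := by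
  classical
  let ψ : X → ℝ := fun z => if 0 ≤ S.μ j x z - S.μ j y z then 1 else -1
  have h1 : ∀ z, |S.μ j x z - S.μ j y z| = ψ z * S.μ j x z - ψ z * S.μ j y z := by
    intro z
    simp only [ψ]
    split_ifs with h
    · rw [abs_of_nonneg h]; ring
    · rw [abs_of_neg (not_le.1 h)]; ring
  have h2 : ∀ z, |ψ z| ≤ 1 := by
    intro z
    simp only [ψ]
    split_ifs <;> simp
  simp only [h1, sum_sub_distrib, S.sum_μ]
  refine (le_abs_self _).trans (S.Av_lip j x y (fun _ _ => h2 _) (fun _ _ => h2 _) ?_)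
  intro α i hi
  rw [S.merge α x y i hi]

open Classical in
/-- The top level failure rate. -/
noncomputable def r (b : ℕ) (ω : ι) (x : X) : ℝ :=
  S.Av b x fun α i =>
    if S.κ * S.Δ (b + S.J) / 2 < S.rw ω (S.u α x) (2 * S.Δ (b + S.J)) i then 1 else 0

lemma r_nonneg (b : ℕ) (ω : ι) (x : X) : 0 ≤ S.r b ω x :=
  S.Av_nonneg b x fun α i => by split_ifs <;> norm_num

lemma r_lip (b : ℕ) (ω : ι) (x y : X) : |S.r b ω x - S.r b ω y| ≤ 3 * S.τ b x y := by
  refine S.Av_lip b x y (fun _ _ => by split_ifs <;> simp) (fun _ _ => by split_ifs <;> simp) ?_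
  intro α i hi
  rw [S.rw_congr ω (fun s hs => S.merge α x y s (hi.trans hs))]

lemma r_exp (b : ℕ) (x : X) : ∑ ω, S.p ω * S.r b ω x ≤ 4 * S.D / S.κ := by
  unfold r
  rw [S.Av_sum]
  refine S.Av_le b x fun α i _ _ => ?_
  have h1 := S.Δ_pos (b + S.J)
  have h2 := S.κ_pos
  refine (markov S.p_nonneg (fun ω => raw_nonneg (S.elt_nonneg ω _) _ _ _) (by positivity)).trans ?_
  have h3 := raw_exp_le (p := S.p) (c := fun ω => el (S.t ω) (S.u α x)) (S.eld_nonneg (S.u α x))
    S.D_pos.le (S.elt_exp _) (ρ := 2 * S.Δ (b + S.J)) (by positivity) S.n i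
  rw [div_le_div_iff₀ (by positivity) h2]
  nlinarith

open Classical in
/-- The lower level failure rate. -/
noncomputable def β (j b : ℕ) (ω : ι) (x : X) : ℝ :=
  (S.Av j x fun α i => if S.Δ j < seg (S.cm ω (S.u α x) j) 0 i then 1 else 0) +
  S.Av b x fun α i => if S.κ * S.Δ (b + S.J) / 2 < seg (el (S.t ω) (S.u α x)) 0 i then 1 else 0

lemma β_nonneg (j b : ℕ) (ω : ι) (x : X) : 0 ≤ S.β j b ω x :=
  add_nonneg (S.Av_nonneg j x fun α i => by split_ifs <;> norm_num)
    (S.Av_nonneg b x fun α i => by split_ifs <;> norm_num)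

lemma β_exp (j b : ℕ) (x : X) : ∑ ω, S.p ω * S.β j b ω x ≤ 3 / S.m := by
  unfold β
  simp only [mul_add, sum_add_distrib]
  rw [S.Av_sum, S.Av_sum]
  have hm := S.m_pos
  have e : 3 / S.m = 2 / S.m + 1 / S.m := by ring
  rw [e]
  apply add_le_add
  · refine S.Av_le j x fun α i hi hw => ?_
    have h1 := S.Δ_pos j
    refine (markov S.p_nonneg (fun ω => seg_nonneg (S.cm_nonneg ω _ _) _ _) h1).trans ?_
    have h2 := S.supp_q _ j hi hw
    rw [div_le_div_iff₀ h1 hm]
    linarith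
  · refine S.Av_le b x fun α i hi hw => ?_
    have h1 := S.Δ_pos (b + S.J)
    have h2 := S.κ_pos
    refine (markov S.p_nonneg (fun ω => seg_nonneg (S.elt_nonneg ω _) _ _)
      (by positivity)).trans ?_
    have h3 := S.supp_len _ b hi hw
    have h4 : ∑ ω, S.p ω * seg (el (S.t ω) (S.u α x)) 0 i ≤ S.D * seg (el S.d (S.u α x)) 0 i := by
      simp only [seg_zero, mul_sum]
      rw [sum_comm]
      exact sum_le_sum fun l _ => S.elt_exp _ l
    have h5 := mul_le_mul_of_nonneg_left h3 S.D_pos.le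
    rw [div_le_div_iff₀ (by positivity) hm, S.Δ_add]
    have h6 := S.Δ_pos b
    have h7 : S.D * (3 * S.Δ b) * S.m ≤ S.D * (3 * S.Δ b) * 2 ^ S.J :=
      mul_le_mul_of_nonneg_left S.m_le (by have := S.D_pos; positivity)
    have h8 : 6 * S.D * (2 ^ S.J * S.Δ b) ≤ S.κ * (2 ^ S.J * S.Δ b) :=
      mul_le_mul_of_nonneg_right S.κ_ge (by positivity)
    have h9 := mul_le_mul_of_nonneg_right (h4.trans h5) hm.le
    nlinarith

open Classical in
lemma near_of_clean (ω : ι) (v : ℕ → X) {j b i : ℕ} (hjb : j ≤ b) (hb : b ≤ j + S.W)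
    (hi : i ≤ S.n) (hw : wt (S.σ v j) i ≠ 0) (h1 : seg (S.cm ω v j) 0 i ≤ S.Δ j)
    (h2 : S.rw ω v (2 * S.Δ (b + S.J)) 0 ≤ S.κ * S.Δ (b + S.J)) :
    S.t ω (v 0) (v i) ≤ 8 * S.κ * S.Δ j := by
  have a1 := (S.tree ω).le_seg v i
  have a2 := S.supp_len v j hi hw
  have a3 : 3 * S.Δ j ≤ S.Δ (b + S.J) := by
    have := S.Δ_mono (show j + 2 ≤ b + S.J by have := S.J_ge; omega)
    rw [S.Δ_add] at this
    have := S.Δ_pos j
    norm_num at *
    linarith
  have a4 := rising (S.eld_nonneg v) (S.elt_nonneg ω v) hi S.κ_pos.le (S.Δ_pos j).le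
    (S.good ω v j) (fun s ⟨k, hk, h⟩ => ⟨S.Δ k, S.Δ_mono hk, h⟩)
  have a5 : ∀ l ∈ range i, el (S.t ω) v l ≤
      (if S.good ω v j l then el (S.t ω) v l else 0) + S.cm ω v j l := by
    intro l hl
    have hl' := mem_range.1 hl
    have b1 : S.good ω v (j + (S.W + S.J)) l := by
      refine ⟨b + S.J, by omega, ?_, ?_⟩
      · have := seg_mono (S.eld_nonneg v) (Nat.zero_le l) (show l + 1 ≤ i by omega)
        rw [seg_succ] at this
        linarith
      · have := seg_mono (S.eld_nonneg v) (le_refl 0) hl'.le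
        exact (raw_le_double (S.elt_nonneg ω v) S.n (by linarith)).trans h2
    unfold cm
    by_cases hg : S.good ω v j l
    · simp [hg]
    · simp [hg, b1]
  have a6 := sum_le_sum a5
  rw [sum_add_distrib, ← seg_zero, ← seg_zero (S.cm ω v j)] at a6
  have a7 : S.κ * (2 * seg (el S.d v) 0 i + S.Δ j) ≤ S.κ * (7 * S.Δ j) :=
    mul_le_mul_of_nonneg_left (by linarith) S.κ_pos.le
  have a8 : 1 * S.Δ j ≤ S.κ * S.Δ j :=
    mul_le_mul_of_nonneg_right (by linarith [S.κ_ge, S.D_ge]) (S.Δ_pos j).le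
  linarith

open Classical in
lemma minority [Fintype X] (ω : ι) (x : X) {j b : ℕ} (hjb : j ≤ b) (hb : b ≤ j + S.W) :
    ∑ z, (if 8 * S.κ * S.Δ j < S.t ω x z then 1 else 0) * S.μ j x z ≤
      S.r b ω x + S.β j b ω x := by
  rw [S.sum_μ]
  let dirty : ι → ℝ := fun α =>
    if S.κ * S.Δ (b + S.J) < S.rw ω (S.u α x) (2 * S.Δ (b + S.J)) 0 then 1 else 0
  have h1 : (S.Av j x fun α i => if 8 * S.κ * S.Δ j < S.t ω x (S.u α x i) then 1 else 0) ≤
      S.Av j x fun α i => (if S.Δ j < seg (S.cm ω (S.u α x) j) 0 i then 1 else 0) + dirty α := by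
    refine S.Av_mono j x fun α i hi hw => ?_
    simp only [dirty]
    have := S.near_of_clean ω (S.u α x) hjb hb hi hw
    rw [S.u_zero] at this
    split_ifs with c1 c2 c3 <;> try norm_num
    exact absurd (this (not_lt.1 c2) (not_lt.1 ‹_›)) (not_le.2 c1)
  rw [S.Av_add, S.Av_const j x dirty, ← S.Av_const b x dirty] at h1
  have h2 : (S.Av b x fun α _ => dirty α) ≤ S.Av b x fun α i =>
      (if S.κ * S.Δ (b + S.J) / 2 < S.rw ω (S.u α x) (2 * S.Δ (b + S.J)) i then 1 else 0) +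
      (if S.κ * S.Δ (b + S.J) / 2 < seg (el (S.t ω) (S.u α x)) 0 i then 1 else 0) := by
    refine S.Av_mono b x fun α i hi _ => ?_
    simp only [dirty]
    have : S.rw ω (S.u α x) (2 * S.Δ (b + S.J)) 0 ≤ seg (el (S.t ω) (S.u α x)) 0 i +
        S.rw ω (S.u α x) (2 * S.Δ (b + S.J)) i :=
      raw_le_add (S.eld_nonneg _) (S.elt_nonneg ω _) _ hi
    split_ifs <;> linarith
  rw [S.Av_add] at h2
  unfold r β
  linarith

/-- Contribution of the long edges. -/
noncomputable def A (j : ℕ) (x y : X) : ℝ :=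
  ∑ α, S.p α * ∑ l ∈ range (S.i0 α x y),
    (min (S.Δ j) (S.big (S.u α x) j l) + min (S.Δ j) (S.big (S.u α y) j l))

/-- Contribution of the counted edges. -/
noncomputable def B (j : ℕ) (x y : X) : ℝ :=
  ∑ α, S.p α * ∑ l ∈ range (S.i0 α x y), (S.q (S.u α x) j l + S.q (S.u α y) j l)

lemma A_nonneg (j : ℕ) (x y : X) : 0 ≤ S.A j x y :=
  sum_nonneg fun α _ => mul_nonneg (S.p_nonneg α) (sum_nonneg fun _ _ =>
    add_nonneg (le_min (S.Δ_pos j).le (S.big_nonneg _ _ _))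
      (le_min (S.Δ_pos j).le (S.big_nonneg _ _ _)))

lemma B_nonneg (j : ℕ) (x y : X) : 0 ≤ S.B j x y :=
  sum_nonneg fun α _ => mul_nonneg (S.p_nonneg α) (sum_nonneg fun _ _ =>
    add_nonneg (S.q_nonneg _ _ _) (S.q_nonneg _ _ _))

lemma path_τ (v : ℕ → X) (j : ℕ) {i : ℕ} (hi : i ≤ S.n) :
    S.Δ j * min 1 (seg (S.σ v j) 0 i) ≤
      ∑ l ∈ range i, min (S.Δ j) (S.big v j l) + S.m * ∑ l ∈ range i, S.q v j l := by
  rw [mul_min_of_nonneg _ _ (S.Δ_pos j).le, mul_one, S.seg_σ v j hi]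
  exact min_sum_le (S.big_nonneg v j) (S.Δ_pos j).le
    (mul_nonneg S.m_pos.le (sum_nonneg fun l _ => S.q_nonneg _ _ _))

lemma τ_le (j : ℕ) (x y : X) : S.Δ j * S.τ j x y ≤ S.A j x y + S.m * S.B j x y := by
  unfold τ A B
  rw [mul_sum, mul_sum, ← sum_add_distrib]
  refine sum_le_sum fun α _ => ?_
  have h1 := S.path_τ (S.u α x) j (S.i0_le α x y)
  have h2 := S.path_τ (S.u α y) j (S.i0_le α x y)
  have p1 := seg_nonneg (S.σ_nonneg (S.u α x) j) 0 (S.i0 α x y)
  have p2 := seg_nonneg (S.σ_nonneg (S.u α y) j) 0 (S.i0 α x y)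
  have h3 : min 1 (seg (S.σ (S.u α x) j) 0 (S.i0 α x y) + seg (S.σ (S.u α y) j) 0 (S.i0 α x y)) ≤
      min 1 (seg (S.σ (S.u α x) j) 0 (S.i0 α x y)) +
        min 1 (seg (S.σ (S.u α y) j) 0 (S.i0 α x y)) := by
    simp only [min_def]; split_ifs <;> linarith
  have h4 := mul_le_mul_of_nonneg_left h3 (S.Δ_pos j).le
  rw [mul_left_comm, mul_left_comm S.m, ← mul_add]
  apply mul_le_mul_of_nonneg_left _ (S.p_nonneg α)
  rw [sum_add_distrib, sum_add_distrib]
  linarith

lemma path_exp (x y : X) {F : ι → ℕ → ℝ} {c : ℝ} (hc : 0 ≤ c)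
    (h : ∀ α l, F α l ≤ c * (el S.d (S.u α x) l + el S.d (S.u α y) l)) :
    ∑ α, S.p α * ∑ l ∈ range (S.i0 α x y), F α l ≤ c * (8 * S.D * S.d x y) := by
  have h1 : ∑ α, S.p α * ∑ l ∈ range (S.i0 α x y), F α l ≤ ∑ α, S.p α * (c * (8 * S.t α x y)) := by
    refine sum_le_sum fun α _ => mul_le_mul_of_nonneg_left ?_ (S.p_nonneg α)
    refine le_trans ?_ (mul_le_mul_of_nonneg_left (S.len α x y) hc)
    rw [mul_sum]
    refine sum_le_sum fun l _ => (h α l).trans (mul_le_mul_of_nonneg_left ?_ hc)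
    exact add_le_add (S.dom α _ _) (S.dom α _ _)
  refine h1.trans ?_
  have h2 : ∑ α, S.p α * (c * (8 * S.t α x y)) = c * (8 * ∑ α, S.p α * S.t α x y) := by
    simp only [mul_sum]
    exact sum_congr rfl fun α _ => by ring
  rw [h2]
  apply mul_le_mul_of_nonneg_left _ hc
  linarith [S.exp x y]

lemma A_le (j : ℕ) (x y : X) : S.A j x y ≤ 8 * S.D * S.d x y := by
  have := S.path_exp x y (c := 1) zero_le_one (F := fun α l =>
    min (S.Δ j) (S.big (S.u α x) j l) + min (S.Δ j) (S.big (S.u α y) j l)) (fun α l => by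
      rw [one_mul]
      exact add_le_add ((min_le_right _ _).trans (S.big_le _ _ _))
        ((min_le_right _ _).trans (S.big_le _ _ _)))
  rwa [one_mul] at this

lemma B_le (j : ℕ) (x y : X) : S.B j x y ≤ S.D * (8 * S.D * S.d x y) :=
  S.path_exp x y S.D_pos.le (fun α l => by
    rw [mul_add]
    exact add_le_add (S.q_le _ _ _) (S.q_le _ _ _))

lemma sum_A_le (M : ℕ) (x y : X) :
    ∑ j ∈ range M, S.A j x y ≤ (S.L + 2) * (8 * S.D * S.d x y) := by
  have := S.path_exp x y (c := S.L + 2) (by positivity) (F := fun α l => ∑ j ∈ range M,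
    (min (S.Δ j) (S.big (S.u α x) j l) + min (S.Δ j) (S.big (S.u α y) j l))) (fun α l => by
      rw [mul_add, sum_add_distrib]
      exact add_le_add (S.sum_big_le _ _ _) (S.sum_big_le _ _ _))
  refine le_trans (le_of_eq ?_) this
  unfold A
  rw [sum_comm]
  refine sum_congr rfl fun α _ => ?_
  rw [← mul_sum, sum_comm]

lemma sum_B_le (M : ℕ) (x y : X) :
    ∑ j ∈ range M, S.B j x y ≤ (S.W + S.J : ℕ) * S.D * (8 * S.D * S.d x y) := by
  have := S.path_exp x y (c := (S.W + S.J : ℕ) * S.D) (by have := S.D_pos; positivity)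
    (F := fun α l => ∑ j ∈ range M, (S.q (S.u α x) j l + S.q (S.u α y) j l)) (fun α l => by
      rw [mul_add, sum_add_distrib, mul_assoc, mul_assoc]
      exact add_le_add (S.sum_q_le _ _ _) (S.sum_q_le _ _ _))
  refine le_trans (le_of_eq ?_) this
  unfold B
  rw [sum_comm]
  refine sum_congr rfl fun α _ => ?_
  rw [← mul_sum, sum_comm]

/-- Uniform Lipschitz constant. -/
noncomputable def α : ℝ := 8 * S.D * (1 + S.m * S.D)

/-- Square sum constant. -/
noncomputable def Q : ℝ :=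
  2 * (8 * S.D) ^ 2 * ((S.L + 2) + S.m ^ 2 * (S.W + S.J : ℕ) * S.D ^ 2)

lemma τ_le_α (j : ℕ) (x y : X) : S.Δ j * S.τ j x y ≤ S.α * S.d x y := by
  have h1 := S.τ_le j x y
  have h2 := S.A_le j x y
  have h3 := mul_le_mul_of_nonneg_left (S.B_le j x y) S.m_pos.le
  unfold α
  linarith

lemma sum_τ_sq (M : ℕ) (x y : X) :
    ∑ j ∈ range M, (S.Δ j * S.τ j x y) ^ 2 ≤ S.Q * S.d x y ^ 2 := by
  set c := 8 * S.D * S.d x y with hc
  have hc0 : 0 ≤ c := by have := S.D_pos; have := S.d_nonneg x y; positivity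
  have h1 : ∀ j ∈ range M, (S.Δ j * S.τ j x y) ^ 2 ≤
      2 * c * S.A j x y + 2 * S.m ^ 2 * (S.D * c) * S.B j x y := by
    intro j _
    have a0 : 0 ≤ S.Δ j * S.τ j x y := mul_nonneg (S.Δ_pos j).le (S.τ_nonneg j x y)
    have a1 := pow_le_pow_left₀ a0 (S.τ_le j x y) 2
    have a2 := mul_le_mul_of_nonneg_right (S.A_le j x y) (S.A_nonneg j x y)
    have a3 := mul_le_mul_of_nonneg_left
      (mul_le_mul_of_nonneg_right (S.B_le j x y) (S.B_nonneg j x y)) (sq_nonneg S.m)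
    nlinarith [sq_nonneg (S.A j x y - S.m * S.B j x y)]
  refine (sum_le_sum h1).trans ?_
  rw [sum_add_distrib, ← mul_sum, ← mul_sum]
  have h2 := mul_le_mul_of_nonneg_left (S.sum_A_le M x y) (show 0 ≤ 2 * c by positivity)
  have h3 := mul_le_mul_of_nonneg_left (S.sum_B_le M x y)
    (show 0 ≤ 2 * S.m ^ 2 * (S.D * c) by have := S.D_pos; positivity)
  refine (add_le_add h2 h3).trans (le_of_eq ?_)
  rw [Q, hc]
  ring

end Setup

end Pool.Agent.Lib.MP_2c27be_co
end

-- part Pool.Agent.Lib.MP_2c27be_co.Steiner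
section

/-!
Steiner point removal: merging paths through points of the space, with stretch at most 8.
-/

namespace Pool.Agent.Lib.MP_2c27be_co

open Finset

variable {X : Type} [Fintype X]

open Classical in
/-- The nested clusters. -/
noncomputable def clus (g : X → X → ℝ) (h : Finset X → ℝ) : ℕ → X → Finset X
  | 0, _ => univ
  | l + 1, x => (clus g h l x).filter fun y => y = x ∨ h (clus g h l x) < g x y

variable {g : X → X → ℝ} {h : Finset X → ℝ}

lemma mem_clus_succ {l : ℕ} {x y : X} :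
    y ∈ clus g h (l + 1) x ↔ y ∈ clus g h l x ∧ (y = x ∨ h (clus g h l x) < g x y) := by
  simp only [clus, mem_filter]

lemma self_mem_clus (l : ℕ) (x : X) : x ∈ clus g h l x := by
  induction l with
  | zero => simp [clus]
  | succ l ih => exact mem_clus_succ.2 ⟨ih, Or.inl rfl⟩

lemma clus_pair (hg : IsGP g) {l : ℕ} {x y z : X} (hy : y ∈ clus g h (l + 1) x)
    (hz : z ∈ clus g h (l + 1) x) (hne : y ≠ z) : h (clus g h l x) < g y z := by
  rcases (mem_clus_succ.1 hy).2 with rfl | h1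
  · rcases (mem_clus_succ.1 hz).2 with rfl | h2
    · exact (hne rfl).elim
    · exact h2
  · rcases (mem_clus_succ.1 hz).2 with rfl | h2
    · rw [hg.symm]; exact h1
    · exact hg.trans_lt (by rw [hg.symm]; exact h1) h2

lemma clus_eq (hg : IsGP g) {l : ℕ} {x y : X} (hy : y ∈ clus g h l x) :
    clus g h l y = clus g h l x := by
  induction l with
  | zero => simp [clus]
  | succ l ih =>
    have e := ih (mem_clus_succ.1 hy).1
    ext z
    constructor
    · intro hz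
      rw [mem_clus_succ, e] at hz
      refine mem_clus_succ.2 ⟨hz.1, ?_⟩
      rcases hz.2 with rfl | h1
      · exact (mem_clus_succ.1 hy).2
      · rcases (mem_clus_succ.1 hy).2 with rfl | h2
        · exact Or.inr h1
        · exact Or.inr (hg.trans_lt h2 h1)
    · intro hz
      rw [mem_clus_succ, e]
      refine ⟨(mem_clus_succ.1 hz).1, ?_⟩
      by_cases hne : z = y
      · exact Or.inl hne
      · exact Or.inr (clus_pair hg hy hz (Ne.symm hne))

lemma clus_anti {l l' : ℕ} (hl : l ≤ l') (x : X) : clus g h l' x ⊆ clus g h l x := by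
  induction l', hl using Nat.le_induction with
  | base => exact Subset.refl _
  | succ l' _ ih => exact fun y hy => ih (mem_clus_succ.1 hy).1

theorem exists_paths {t : X → X → ℝ} (ht : IsTree t) :
    ∃ u : X → ℕ → X, (∀ x, u x 0 = x) ∧ ∀ x y,
      ∃ i0 ≤ Fintype.card X, (∀ i, i0 ≤ i → u x i = u y i) ∧
        ∑ l ∈ range i0, (t (u x l) (u x (l + 1)) + t (u y l) (u y (l + 1))) ≤ 8 * t x y := by
  rcases isEmpty_or_nonempty X with hX | ⟨⟨r⟩⟩
  · exact ⟨fun x _ => x, fun _ => rfl, fun z => (hX.false z).elim⟩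
  haveI : Nonempty X := ⟨r⟩
  obtain ⟨g, hg, htg⟩ := ht.exists_gp r
  have h1 : ∀ C : Finset X, C.Nonempty → ∃ c ∈ C, ∀ y ∈ C, g c c ≤ g y y :=
    fun C hC => exists_min_image C (fun c => g c c) hC
  choose! rep hrep hrep' using h1
  have h2 : ∀ C : Finset X, C.Nonempty → ∃ y ∈ C, ∀ z ∈ C, g (rep C) y ≤ g (rep C) z :=
    fun C hC => exists_min_image C (fun c => g (rep C) c) hC
  choose! low hlow hlow' using h2
  let γ : Finset X → ℝ := fun C => g (rep C) (low C)
  let h : Finset X → ℝ := fun C => (γ C + g (rep C) (rep C)) / 2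
  let C := clus g h
  have hne : ∀ l x, (C l x).Nonempty := fun l x => ⟨x, self_mem_clus l x⟩
  have hγ : ∀ S : Finset X, S.Nonempty → ∀ y ∈ S, ∀ z ∈ S, γ S ≤ g y z := by
    intro S hS y hy z hz
    exact hg.trans_le (by rw [hg.symm y]; exact hlow' S hS y hy) (hlow' S hS z hz)
  have hγ1 : ∀ S : Finset X, γ S ≤ g (rep S) (rep S) := fun S => hg.le_self _ _
  have hγ2 : ∀ l x, h (C l x) ≤ γ (C (l + 1) x) := by
    intro l x
    by_cases e : rep (C (l + 1) x) = low (C (l + 1) x)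
    · have a1 := hrep' _ (hne l x) _ (clus_anti (Nat.le_succ l) x (hrep _ (hne (l + 1) x)))
      have a2 := hγ1 (C l x)
      simp only [γ, h, ← e] at a1 a2 ⊢
      linarith
    · exact (clus_pair hg (hrep _ (hne (l + 1) x)) (hlow _ (hne (l + 1) x)) e).le
  have hcard : ∀ l x, (C l x).card + l ≤ Fintype.card X ∨ (C l x).card ≤ 1 := by
    intro l x
    induction l with
    | zero => left; simp [C, clus]
    | succ l ih =>
      by_cases h1 : (C (l + 1) x).card ≤ 1
      · exact Or.inr h1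
      · left
        have hsub : C (l + 1) x ⊆ C l x := clus_anti (Nat.le_succ l) x
        have h2 := card_le_card hsub
        have h3 : C (l + 1) x ≠ C l x := by
          intro e
          have b1 : rep (C l x) ∈ C (l + 1) x := by rw [e]; exact hrep _ (hne l x)
          have b2 : low (C l x) ∈ C (l + 1) x := by rw [e]; exact hlow _ (hne l x)
          by_cases e2 : rep (C l x) = low (C l x)
          · obtain ⟨y, hy, hy'⟩ := exists_mem_ne (not_le.1 h1) (rep (C l x))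
            have := clus_pair hg b1 hy (Ne.symm hy')
            have a2 := hg.le_self (rep (C l x)) y
            simp only [h, γ] at this
            change (g (rep (C l x)) (low (C l x)) + g (rep (C l x)) (rep (C l x))) / 2 < _ at this
            rw [← e2] at this
            linarith
          · have := clus_pair hg b1 b2 e2
            have a2 := hγ1 (C l x)
            change (γ (C l x) + g (rep (C l x)) (rep (C l x))) / 2 < γ (C l x) at this
            linarith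
        have h4 := card_lt_card (hsub.ssubset_of_ne h3)
        omega
  set n := Fintype.card X with hn
  have htop : ∀ x y, y ∈ C n x → y = x := by
    intro x y hy
    have h1 : (C n x).card ≤ 1 := by
      rcases hcard n x with h1 | h1 <;> omega
    exact card_le_one.1 h1 _ hy _ (self_mem_clus n x)
  let u : X → ℕ → X := fun x i => rep (C (n - i) x)
  have hu0 : ∀ x, u x 0 = x := fun x => htop x _ (hrep _ (hne n x))
  have hlen : ∀ x i, i ≤ n → ∑ l ∈ range i, t (u x l) (u x (l + 1)) ≤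
      5 * g x x - g (u x i) (u x i) - 4 * γ (C (n - i) x) := by
    intro x i
    induction i with
    | zero =>
      intro _
      have e1 : low (C n x) = x := htop x _ (hlow _ (hne n x))
      have e2 : rep (C n x) = x := hu0 x
      simp only [range_zero, sum_empty, hu0, Nat.sub_zero, γ, e1, e2]
      linarith
    | succ i ih =>
      intro hi
      rw [sum_range_succ]
      have a1 := ih (by omega)
      have e : n - i = n - (i + 1) + 1 := by omega
      have a2 := hγ2 (n - (i + 1)) x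
      rw [← e] at a2
      have a3 : γ (C (n - (i + 1)) x) ≤ g (u x i) (u x (i + 1)) :=
        hγ _ (hne _ x) _ (clus_anti (by omega) x (hrep _ (hne (n - i) x))) _ (hrep _ (hne _ x))
      rw [htg (u x i), gd]
      change (γ (C (n - (i + 1)) x) + g (u x (i + 1)) (u x (i + 1))) / 2 ≤ _ at a2
      linarith
  refine ⟨u, hu0, fun x y => ?_⟩
  by_cases hxy : y = x
  · subst hxy
    exact ⟨0, Nat.zero_le _, fun _ _ => rfl, by simp [ht.zero]⟩
  classical
  set l0 := Nat.findGreatest (fun l => y ∈ C l x) n with hl0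
  have b1 : l0 ≤ n := Nat.findGreatest_le _
  have b2 : y ∈ C l0 x :=
    Nat.findGreatest_spec (P := fun l => y ∈ C l x) (Nat.zero_le _) (by simp [C, clus])
  have b3 : l0 < n := by
    rcases b1.eq_or_lt with e | e
    · rw [e] at b2
      exact (hxy (htop x y b2)).elim
    · exact e
  have b4 : y ∉ C (l0 + 1) x :=
    Nat.findGreatest_is_greatest (P := fun l => y ∈ C l x) (Nat.lt_succ_self l0) b3
  have b5 : g x y ≤ h (C l0 x) := by
    by_contra b5
    exact b4 (mem_clus_succ.2 ⟨b2, Or.inr (not_le.1 b5)⟩)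
  refine ⟨n - l0, Nat.sub_le _ _, fun i hi => ?_, ?_⟩
  · have : y ∈ C (n - i) x := clus_anti (by omega) x b2
    simp only [u]
    rw [show C (n - i) y = C (n - i) x from clus_eq hg this]
  · rw [sum_add_distrib]
    have c1 := hlen x (n - l0) (Nat.sub_le _ _)
    have c2 := hlen y (n - l0) (Nat.sub_le _ _)
    have e : n - (n - l0) = l0 := by omega
    have e2 : C l0 y = C l0 x := clus_eq hg b2
    simp only [u, e, e2] at c1 c2
    have d1 := hrep' _ (hne l0 x) x (self_mem_clus l0 x)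
    have d2 := hrep' _ (hne l0 x) y b2
    have d3 := hγ1 (C l0 x)
    rw [htg x y, gd]
    change g x y ≤ (γ (C l0 x) + g (rep (C l0 x)) (rep (C l0 x))) / 2 at b5
    simp only [u]
    linarith

end Pool.Agent.Lib.MP_2c27be_co
end
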